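import Pool.Agent.TH619.Loc1
import Pool.Agent.Helper775.Tight.Main
import Pool.Agent.Helper775.Tight.Conn

/-! The Alexander-Spanier class mod 2 of a local cocycle mod 6 on circles. -/

set_option autoImplicit false
namespace Pool.Agent.TH619
open Set Topology Filter Pool.Agent.Helper775.Tight SoftCx

/-- reduction mod 2 -/
def r2 : ZMod 6 →+* ZMod 2 := ZMod.castHom (show 2 ∣ 6 by norm_num) (ZMod 2)

/-- the Alexander-Spanier cochain mod 2 of a local cocycle mod 6 -/
def chn {N : Type} (t : N → N → ZMod 6) : Ch N := fun l =>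
  match l with
  | [x, y] => ZMod.castHom (show 2 ∣ 6 by norm_num) (ZMod 2) (t x y)
  | _ => 0

theorem chn_two {N : Type} (t : N → N → ZMod 6) (x y : N) : chn t [x, y] = r2 (t x y) := rfl

theorem dd_two {N : Type} (k : Ch N) (x y : N) : dd k [x, y] = k [y] + k [x] := by
  rw [dd_apply (by simp)]
  simp only [d_cons, d_nil]
  ring

theorem dd_three {N : Type} (k : Ch N) (x y z : N) :
    dd k [x, y, z] = k [y, z] + k [x, z] + k [x, y] := by
  rw [dd_apply (by simp)]
  simp only [d_cons, d_nil]
  ring

/-- connected sets: cocycles of index one are constant near the set -/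
theorem coc_one_on {N : Type} [MetricSpace N] {S : Set N} (hS : IsConnected S) {k : Ch N}
    (hk : (AS N).Coc S 1 k) :
    (∀ z ∈ S, k ∈ (AS N).N z 1) ∨ ∀ z ∈ S, k - one ∈ (AS N).N z 1 := by
  have hloc : ∀ z ∈ S, ∃ W : Set N, IsOpen W ∧ z ∈ W ∧ ∀ x ∈ W, k [x] = k [z] := by
    intro z hz
    obtain ⟨W, hW, hzW, h⟩ := exists_of_mem_Nz (by omega) (hk z hz)
    refine ⟨W, hW, hzW, fun x hx => ?_⟩
    have h2 := h [x, z] rfl (by
      intro y hy
      simp only [List.mem_cons, List.not_mem_nil, or_false] at hy
      rcases hy with rfl | rfl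
      · exact hx
      · exact hzW)
    rw [AS_D, dd_two] at h2
    have h3 := add_self2 (k [z])
    linear_combination h2 - h3
  have : PreconnectedSpace S := isPreconnected_iff_preconnectedSpace.1 hS.2
  have hlc : IsLocallyConstant (fun x : S => k [x.1]) := by
    rw [IsLocallyConstant.iff_eventually_eq]
    intro z
    obtain ⟨W, hW, hzW, h⟩ := hloc z.1 z.2
    filter_upwards [continuous_subtype_val.continuousAt.preimage_mem_nhds (hW.mem_nhds hzW)]
      with x hx
    exact h x.1 hx
  obtain ⟨z₀, hz₀⟩ := hS.1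
  have hc0 : ∀ x ∈ S, k [x] = k [z₀] := fun x hx =>
    hlc.apply_eq_of_isPreconnected (x := (⟨x, hx⟩ : S)) (y := ⟨z₀, hz₀⟩)
      isPreconnected_univ (mem_univ _) (mem_univ _)
  have hz2 : k [z₀] = 0 ∨ k [z₀] = 1 := by
    generalize k [z₀] = t
    revert t; decide
  rcases hz2 with h0 | h0
  · left
    intro w hw
    obtain ⟨W, hW, hzW, h⟩ := hloc w hw
    refine mem_Nz_of (hW.mem_nhds hzW) fun l hl hx => ?_
    match l, hl with
    | [x], _ => rw [h x (hx x (by simp)), hc0 w hw, h0]
  · right
    intro w hw
    obtain ⟨W, hW, hzW, h⟩ := hloc w hw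
    refine mem_Nz_of (hW.mem_nhds hzW) fun l hl hx => ?_
    match l, hl with
    | [x], _ => rw [Pi.sub_apply, h x (hx x (by simp)), hc0 w hw, h0]; simp [one]

theorem zaux : ∀ a b c d : ZMod 2, b - a - (d + c) = 0 → a + c = b + d := by decide

/-- it is a cocycle, and generates the cohomology of every circle on which it has an odd integral -/
theorem fibre_type {N : Type} [MetricSpace N] [CompactSpace N] {t : N → N → ZMod 6} (ht : LC t) :
    (AS N).Coc univ 2 (chn t) ∧
    ∀ S : Set N, IsClosed S → Nonempty (S ≃ₜ Metric.sphere (0 : EuclideanSpace ℝ (Fin 2)) 1) →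
      (∃ (σ : Sing N 1) (g : stdSimplex ℝ (Fin 2) → ZMod 6), range σ ⊆ S ∧
        σ (stdSimplex.vertex 0) = σ (stdSimplex.vertex 1) ∧ Pot t σ g ∧
        (g (stdSimplex.vertex 1) - g (stdSimplex.vertex 0) = 1 ∨
          g (stdSimplex.vertex 1) - g (stdSimplex.vertex 0) = -1)) →
      (AS N).AType one 1 (chn t) S := by
  have hcoc : (AS N).Coc univ 2 (chn t) := by
    intro z _
    obtain ⟨W, hW, h⟩ := ht z
    refine mem_Nz_of hW fun l hl hx => ?_
    match l, hl with
    | [x, y, w], _ =>
      have h1 := h x (hx x (by simp)) y (hx y (by simp)) w (hx w (by simp))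
      rw [AS_D, dd_three, chn_two, chn_two, chn_two, ← h1, map_add]
      generalize r2 (t x y) = a
      generalize r2 (t y w) = b
      revert a b; decide
  refine ⟨hcoc, fun S hS hSe hσ => ?_⟩
  obtain ⟨e⟩ := hSe
  have hSconn : IsConnected S := by
    have h1 : IsConnected (Metric.sphere (0 : EuclideanSpace ℝ (Fin 2)) 1) :=
      isConnected_sphere (by
        rw [← Module.finrank_eq_rank, finrank_euclideanSpace_fin]
        norm_num) 0 zero_le_one
    have : ConnectedSpace (Metric.sphere (0 : EuclideanSpace ℝ (Fin 2)) 1) :=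
      isConnected_iff_connectedSpace.1 h1
    have h2 : IsConnected (range fun y => ((e.symm y : S) : N)) :=
      isConnected_range (continuous_subtype_val.comp e.symm.continuous)
    have h3 : (range fun y => ((e.symm y : S) : N)) = S := by
      ext x
      constructor
      · rintro ⟨y, rfl⟩
        exact (e.symm y).2
      · intro hx
        exact ⟨e ⟨x, hx⟩, by simp⟩
    rwa [h3] at h2
  have h5 : ¬ (AS N).Cob S 2 (chn t) := by
    rintro ⟨k, hk⟩
    obtain ⟨σ, g, hr, h01, hp, hg⟩ := hσ
    have hlc : IsLocallyConstant (fun s => r2 (g s) + k [σ s]) := by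
      rw [IsLocallyConstant.iff_eventually_eq]
      intro s
      obtain ⟨W, hW, h⟩ := hp s
      obtain ⟨W', hW', hzW', h'⟩ := exists_of_mem_Nz (by omega) (hk (σ s) (hr ⟨s, rfl⟩))
      filter_upwards [hW, σ.continuous.continuousAt.preimage_mem_nhds (hW'.mem_nhds hzW')]
        with x hx hx'
      have e1 := h x hx s (mem_of_mem_nhds hW)
      have e2 := h' [σ x, σ s] rfl (by
        intro y hy
        simp only [List.mem_cons, List.not_mem_nil, or_false] at hy
        rcases hy with rfl | rfl
        · exact hx'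
        · exact hzW')
      rw [Pi.sub_apply, AS_D, dd_two, chn_two, e1, map_sub] at e2
      exact zaux _ _ _ _ e2
    have : PreconnectedSpace (stdSimplex ℝ (Fin (1 + 1))) :=
      isPreconnected_iff_preconnectedSpace.1 (convex_stdSimplex ℝ (Fin (1 + 1))).isPreconnected
    have h1 := hlc.apply_eq_of_isPreconnected (x := (stdSimplex.vertex 0 : stdSimplex ℝ (Fin (1 + 1))))
      (y := stdSimplex.vertex 1) isPreconnected_univ (mem_univ _) (mem_univ _)
    rw [h01] at h1
    have h2 := add_right_cancel h1
    rcases hg with h | h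
    · have h3 : g (stdSimplex.vertex 1) = g (stdSimplex.vertex 0) + 1 := by
        rw [← h]; ring
      rw [h3, map_add, map_one] at h2
      generalize r2 (g (stdSimplex.vertex 0)) = a at h2
      revert a; decide
    · have h3 : g (stdSimplex.vertex 1) = g (stdSimplex.vertex 0) - 1 := by
        have := sub_eq_iff_eq_add.1 h
        rw [this]; ring
      rw [h3, map_sub, map_one] at h2
      generalize r2 (g (stdSimplex.vertex 0)) = a at h2
      revert a; decide
  refine ⟨?_, fun k hk => coc_one_on hSconn hk, fun n hn hn2 => ?_, fun k hk => ?_, h5⟩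
  · intro h
    obtain ⟨z, hz⟩ := hSconn.1
    obtain ⟨W, hW, hzW, h'⟩ := exists_of_mem_Nz (by omega) (h z hz)
    have := h' [z] rfl (by simpa using hzW)
    exact one_ne_zero this
  · exact ex_sphere_image (d := 1) le_rfl S hS e n hn hn2
  · rcases rank_sphere_image (d := 1) le_rfl S hS e k (chn t) hk (hcoc.mono (subset_univ _))
      with h | h | h
    · exact Or.inl h
    · exact absurd h h5
    · exact Or.inr h

end Pool.Agent.TH619
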