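import Pool.Agent.TH619.R3

/-! The two ends of a tube without a disc: the relation in the tube. -/

set_option autoImplicit false

namespace Pool.Agent.TH619

open Set Topology
open Pool.Agent.Helper874.Odd

theorem tl_range {p : ℝ} (hp : p ∈ Icc (-1 : ℝ) 1) : 1 / 2 ≤ tl p ∧ tl p ≤ 9 / 16 :=
  ⟨(tu_range hp).1, (tu_range hp).2.1⟩

theorem tl_contOn : ContinuousOn tl (Icc (-1 : ℝ) 1) := tu_cont

theorem tl_half {p : ℝ} (hp : |p| ≤ 15 / 16) : tl p = 1 / 2 := by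
  have h : alp p + bet ((1 / 2 : ℝ) - 1 / 2) - 1 = 0 := by
    rw [alp_eq_zero_iff.2 hp, sub_self, bet_zero]; norm_num
  exact (tu_fwd (by norm_num) h).2.symm

/-- coordinates on the quadrant of the tube around the disc -/
noncomputable def zet (q : ℝ × ℝ) : ℝ × ℝ × ℝ := (tl q.2 / 2 - q.1, tl q.2 / 2 + q.1, q.2)

theorem S3_mk {x y p : ℝ} (hp : p ∈ Icc (-1 : ℝ) 1) (h : mm x + mm y = tl p)
    (h2 : x + y = 1 / 2 → 1 / 8 ≤ |y - x|) : ((x, y, p) : ℝ × ℝ × ℝ) ∈ S3 := by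
  refine ⟨abs_le.2 hp, h, ?_⟩
  rintro ⟨h3, h4⟩
  have h5 := h2 h3
  have h6 : |y - x| ≤ Real.sqrt ((y - x) ^ 2 + p ^ 2) := Real.abs_le_sqrt (by nlinarith [sq_nonneg p])
  simp only at h4
  linarith

theorem zet_mem {q : ℝ × ℝ} (hq : q ∈ TT) : zet q ∈ S3 := by
  obtain ⟨h1, h2, h3⟩ := hq
  have hp : q.2 ∈ Icc (-1 : ℝ) 1 := abs_le.1 h2
  have hr := tl_range hp
  have ha := abs_le.1 h1
  refine ⟨h2, ?_, ?_⟩
  · show mm (tl q.2 / 2 - q.1) + mm (tl q.2 / 2 + q.1) = tl q.2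
    rw [mm_eq_self (by linarith [hr.1]), mm_eq_self (by linarith [hr.1])]
    ring
  · rintro ⟨-, h4⟩
    have e : (tl q.2 / 2 + q.1 - (tl q.2 / 2 - q.1)) ^ 2 + q.2 ^ 2 = 4 * q.1 ^ 2 + q.2 ^ 2 := by
      ring
    have h5 : Real.sqrt ((tl q.2 / 2 + q.1 - (tl q.2 / 2 - q.1)) ^ 2 + q.2 ^ 2) < 1 / 16 := h4
    rw [e, Real.sqrt_lt' (by norm_num)] at h5
    norm_num at h5 h3
    linarith

theorem zet_cont : ContinuousOn zet TT := by
  have h : ContinuousOn (fun q : ℝ × ℝ => tl q.2) TT :=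
    tl_contOn.comp (f := fun q : ℝ × ℝ => q.2) (by fun_prop) fun q hq => abs_le.1 hq.2.1
  unfold zet
  exact ((h.div_const 2).sub (by fun_prop)).prodMk (((h.div_const 2).add (by fun_prop)).prodMk
    (by fun_prop))

theorem zet_CC (t : ℝ) : zet (CC t) = kap t := by
  have h : tl (1 / 16 * Real.sin (2 * Real.pi * t)) = 1 / 2 := by
    refine tl_half (abs_le.2 ?_)
    constructor <;> linarith [Real.neg_one_le_sin (2 * Real.pi * t), Real.sin_le_one (2 * Real.pi * t)]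
  unfold zet CC kap
  simp only [h]
  norm_num

section

variable {A : Type} [AddCommGroup A] (μ : PF S3 A)

/-- a strip of the tube -/
theorem strip {x y : ℝ × ℝ → ℝ} {a b : ℝ} (hab : a ≤ b)
    (hx : ContinuousOn x (Icc a b ×ˢ Icc (-1 : ℝ) 1)) (hy : ContinuousOn y (Icc a b ×ˢ Icc (-1 : ℝ) 1))
    (hm : ∀ w ∈ Icc a b, ∀ p ∈ Icc (-1 : ℝ) 1, mm (x (w, p)) + mm (y (w, p)) = tl p ∧
      (x (w, p) + y (w, p) = 1 / 2 → 1 / 8 ≤ |y (w, p) - x (w, p)|)) :
    μ.L (fun w => (x (w, -1), y (w, -1), -1)) a b + μ.L (fun p => (x (b, p), y (b, p), p)) (-1) 1 =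
      μ.L (fun p => (x (a, p), y (a, p), p)) (-1) 1 + μ.L (fun w => (x (w, 1), y (w, 1), 1)) a b :=
  μ.L_rect (G := fun w p => (x (w, p), y (w, p), p)) (I := Icc a b) (J := Icc (-1 : ℝ) 1)
    ordConnected_Icc ordConnected_Icc (hx.prodMk (hy.prodMk (by fun_prop)))
    (fun w hw p hp => S3_mk hp (hm w hw p hp).1 (hm w hw p hp).2) (left_mem_Icc.2 hab)
    (right_mem_Icc.2 hab) (by constructor <;> norm_num) (by constructor <;> norm_num)

theorem tl2_cont {a b : ℝ} : ContinuousOn (fun q : ℝ × ℝ => tl q.2) (Icc a b ×ˢ Icc (-1 : ℝ) 1) :=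
  tl_contOn.comp (f := fun q : ℝ × ℝ => q.2) (by fun_prop) fun q hq => hq.2

/-- value of `mm` of the complementary coordinate -/
theorem mm_cpl {s x : ℝ} (hs : 1 / 2 ≤ s) (hx : |x| ≤ s / 2) : mm (s - mm x) = s - mm x :=
  mm_compl (by linarith) (by linarith)

theorem mm_half {s : ℝ} (hs : 1 / 2 ≤ s) : mm (s / 2) = s / 2 := mm_eq_self (by linarith)

theorem mm_le_half {s x : ℝ} (hs : 1 / 2 ≤ s) (hx : |x| ≤ s / 2) : mm x ≤ s / 2 := by
  rw [← mm_abs x, ← mm_half hs]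
  exact mm_strictMonoOn.monotoneOn (abs_nonneg x) (by show (0 : ℝ) ≤ s / 2; linarith) hx

theorem mm_neg_half {s : ℝ} (hs : 1 / 2 ≤ s) : mm (-(s / 2)) = s / 2 := by
  rw [mm_neg, mm_half hs]

/-- the corners of the cross-sections -/
noncomputable def cV (c d a b : ℝ) (p : ℝ) : ℝ × ℝ × ℝ := (c * (tl p / 2) + a, d * (tl p / 2) + b, p)

theorem tl_m1 : tl (-1) = 9 / 16 := tu_one (by norm_num)

theorem tl_1 : tl 1 = 9 / 16 := tu_one (by norm_num)

theorem abs_half {s w : ℝ} (hs : 1 / 2 ≤ s) (hw : w ∈ Icc (-1 : ℝ) 1) : |s / 2 * w| ≤ s / 2 := by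
  rw [abs_le]
  constructor <;> nlinarith [hw.1, hw.2]

theorem abs_quad {s w : ℝ} (hs : 1 / 2 ≤ s) (hw : w ∈ Icc (0 : ℝ) 1) :
    |-(s / 2) + (s - 1 / 8) * w| ≤ s / 2 ∧ -(s / 2) + (s - 1 / 8) * w ≤ s / 2 - 1 / 8 := by
  rw [abs_le]
  refine ⟨⟨?_, ?_⟩, ?_⟩ <;> nlinarith [hw.1, hw.2]

theorem face_B : μ.L (fun x => (x, -(9 / 16 - mm x), (-1 : ℝ))) (-(9 / 16 / 2)) (9 / 16 / 2) -
    μ.L (fun x => (x, -(9 / 16 - mm x), (1 : ℝ))) (-(9 / 16 / 2)) (9 / 16 / 2) =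
    μ.L (cV (-1) (-1) 0 0) (-1) 1 - μ.L (cV 1 (-1) 0 0) (-1) 1 := by
  have hc : ContinuousOn (fun q : ℝ × ℝ => tl q.2 / 2 * q.1) (Icc (-1 : ℝ) 1 ×ˢ Icc (-1 : ℝ) 1) :=
    (tl2_cont.div_const 2).mul (by fun_prop)
  have h := strip μ (x := fun q => tl q.2 / 2 * q.1)
    (y := fun q => -(tl q.2 - mm (tl q.2 / 2 * q.1))) (a := -1) (b := 1) (by norm_num) hc
    ((tl2_cont.sub (mm_contDiff.continuous.comp_continuousOn hc)).neg) (by
      intro w hw p hp
      have hs := (tl_range hp).1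
      have hx := abs_half hs hw
      simp only
      rw [mm_neg, mm_cpl hs hx]
      refine ⟨by ring, fun h => ?_⟩
      have h1 := mm_le_half hs hx
      have h2 := (abs_le.1 hx).2
      linarith)
  simp only [tl_m1, tl_1] at h
  have e1 := μ.L_affine (fun x => (x, -(9 / 16 - mm x), (-1 : ℝ))) 0 (9 / 16 / 2) (-1) 1
  have e2 := μ.L_affine (fun x => (x, -(9 / 16 - mm x), (1 : ℝ))) 0 (9 / 16 / 2) (-1) 1
  simp only [zero_add, mul_one, mul_neg] at e1 e2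
  rw [e1, e2] at h
  have e3 : μ.L (fun p => (tl p / 2 * 1, -(tl p - mm (tl p / 2 * 1)), p)) (-1) 1 =
      μ.L (cV 1 (-1) 0 0) (-1) 1 := by
    refine μ.L_congr fun t ht => ?_
    rw [uIcc_of_le (by norm_num)] at ht
    have hs := (tl_range ht).1
    simp only [cV]
    rw [mul_one, mm_half hs]
    ext
    · simp only; ring
    · simp only; ring
    · rfl
  have e4 : μ.L (fun p => (tl p / 2 * -1, -(tl p - mm (tl p / 2 * -1)), p)) (-1) 1 =
      μ.L (cV (-1) (-1) 0 0) (-1) 1 := by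
    refine μ.L_congr fun t ht => ?_
    rw [uIcc_of_le (by norm_num)] at ht
    have hs := (tl_range ht).1
    simp only [cV]
    rw [mul_neg_one, mm_neg_half hs]
    ext
    · simp only; ring
    · simp only; ring
    · rfl
  rw [e3, e4] at h
  rw [sub_eq_sub_iff_add_eq_add]
  exact h

theorem face_L : μ.L (fun y => (-(9 / 16 - mm y), y, (-1 : ℝ))) (-(9 / 16 / 2)) (9 / 16 / 2) -
    μ.L (fun y => (-(9 / 16 - mm y), y, (1 : ℝ))) (-(9 / 16 / 2)) (9 / 16 / 2) =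
    μ.L (cV (-1) (-1) 0 0) (-1) 1 - μ.L (cV (-1) 1 0 0) (-1) 1 := by
  have hc : ContinuousOn (fun q : ℝ × ℝ => tl q.2 / 2 * q.1) (Icc (-1 : ℝ) 1 ×ˢ Icc (-1 : ℝ) 1) :=
    (tl2_cont.div_const 2).mul (by fun_prop)
  have h := strip μ (y := fun q => tl q.2 / 2 * q.1)
    (x := fun q => -(tl q.2 - mm (tl q.2 / 2 * q.1))) (a := -1) (b := 1) (by norm_num)
    ((tl2_cont.sub (mm_contDiff.continuous.comp_continuousOn hc)).neg) hc (by
      intro w hw p hp
      have hs := (tl_range hp).1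
      have hx := abs_half hs hw
      simp only
      rw [mm_neg, mm_cpl hs hx]
      refine ⟨by ring, fun h => ?_⟩
      have h1 := mm_le_half hs hx
      have h2 := (abs_le.1 hx).2
      linarith)
  simp only [tl_m1, tl_1] at h
  have e1 := μ.L_affine (fun y => (-(9 / 16 - mm y), y, (-1 : ℝ))) 0 (9 / 16 / 2) (-1) 1
  have e2 := μ.L_affine (fun y => (-(9 / 16 - mm y), y, (1 : ℝ))) 0 (9 / 16 / 2) (-1) 1
  simp only [zero_add, mul_one, mul_neg] at e1 e2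
  rw [e1, e2] at h
  have e3 : μ.L (fun p => (-(tl p - mm (tl p / 2 * 1)), tl p / 2 * 1, p)) (-1) 1 =
      μ.L (cV (-1) 1 0 0) (-1) 1 := by
    refine μ.L_congr fun t ht => ?_
    rw [uIcc_of_le (by norm_num)] at ht
    have hs := (tl_range ht).1
    simp only [cV]
    rw [mul_one, mm_half hs]
    ext
    · simp only; ring
    · simp only; ring
    · rfl
  have e4 : μ.L (fun p => (-(tl p - mm (tl p / 2 * -1)), tl p / 2 * -1, p)) (-1) 1 =
      μ.L (cV (-1) (-1) 0 0) (-1) 1 := by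
    refine μ.L_congr fun t ht => ?_
    rw [uIcc_of_le (by norm_num)] at ht
    have hs := (tl_range ht).1
    simp only [cV]
    rw [mul_neg_one, mm_neg_half hs]
    ext
    · simp only; ring
    · simp only; ring
    · rfl
  rw [e3, e4] at h
  rw [sub_eq_sub_iff_add_eq_add]
  exact h

theorem face_R : μ.L (fun y => (9 / 16 - mm y, y, (-1 : ℝ))) (-(9 / 16 / 2)) (9 / 16 / 2 - 1 / 8) -
    μ.L (fun y => (9 / 16 - mm y, y, (1 : ℝ))) (-(9 / 16 / 2)) (9 / 16 / 2 - 1 / 8) =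
    μ.L (cV 1 (-1) 0 0) (-1) 1 - μ.L (cV 1 1 (1 / 8) (-(1 / 8))) (-1) 1 := by
  have hc : ContinuousOn (fun q : ℝ × ℝ => -(tl q.2 / 2) + (tl q.2 - 1 / 8) * q.1)
      (Icc (0 : ℝ) 1 ×ˢ Icc (-1 : ℝ) 1) :=
    (tl2_cont.div_const 2).neg.add ((tl2_cont.sub continuousOn_const).mul (by fun_prop))
  have h := strip μ (y := fun q => -(tl q.2 / 2) + (tl q.2 - 1 / 8) * q.1)
    (x := fun q => tl q.2 - mm (-(tl q.2 / 2) + (tl q.2 - 1 / 8) * q.1)) (a := 0) (b := 1)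
    (by norm_num) (tl2_cont.sub (mm_contDiff.continuous.comp_continuousOn hc)) hc (by
      intro w hw p hp
      have hs := (tl_range hp).1
      obtain ⟨hx, hx2⟩ := abs_quad hs hw
      simp only
      rw [mm_cpl hs hx]
      refine ⟨by ring, fun _ => ?_⟩
      have h1 := mm_le_half hs hx
      rw [abs_sub_comm]
      refine le_trans ?_ (le_abs_self _)
      linarith)
  simp only [tl_m1, tl_1] at h
  have e1 := μ.L_affine (fun y => (9 / 16 - mm y, y, (-1 : ℝ))) (-(9 / 16 / 2)) (9 / 16 - 1 / 8) 0 1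
  have e2 := μ.L_affine (fun y => (9 / 16 - mm y, y, (1 : ℝ))) (-(9 / 16 / 2)) (9 / 16 - 1 / 8) 0 1
  have e0 : -(9 / 16 / 2) + (9 / 16 - 1 / 8) * (1 : ℝ) = 9 / 16 / 2 - 1 / 8 := by norm_num
  rw [mul_zero, add_zero, e0] at e1 e2
  rw [e1, e2] at h
  have e3 : μ.L (fun p => (tl p - mm (-(tl p / 2) + (tl p - 1 / 8) * 1),
      -(tl p / 2) + (tl p - 1 / 8) * 1, p)) (-1) 1 = μ.L (cV 1 1 (1 / 8) (-(1 / 8))) (-1) 1 := by
    refine μ.L_congr fun t ht => ?_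
    rw [uIcc_of_le (by norm_num)] at ht
    have hs := (tl_range ht).1
    simp only [cV]
    rw [mm_eq_self (by linarith)]
    ext
    · simp only; ring
    · simp only; ring
    · rfl
  have e4 : μ.L (fun p => (tl p - mm (-(tl p / 2) + (tl p - 1 / 8) * 0),
      -(tl p / 2) + (tl p - 1 / 8) * 0, p)) (-1) 1 = μ.L (cV 1 (-1) 0 0) (-1) 1 := by
    refine μ.L_congr fun t ht => ?_
    rw [uIcc_of_le (by norm_num)] at ht
    have hs := (tl_range ht).1
    simp only [cV]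
    rw [mul_zero, add_zero, mm_neg_half hs]
    ext
    · simp only; ring
    · simp only; ring
    · rfl
  rw [e3, e4] at h
  rw [sub_eq_sub_iff_add_eq_add]
  exact h

theorem face_T : μ.L (fun x => (x, 9 / 16 - mm x, (-1 : ℝ))) (-(9 / 16 / 2)) (9 / 16 / 2 - 1 / 8) -
    μ.L (fun x => (x, 9 / 16 - mm x, (1 : ℝ))) (-(9 / 16 / 2)) (9 / 16 / 2 - 1 / 8) =
    μ.L (cV (-1) 1 0 0) (-1) 1 - μ.L (cV 1 1 (-(1 / 8)) (1 / 8)) (-1) 1 := by
  have hc : ContinuousOn (fun q : ℝ × ℝ => -(tl q.2 / 2) + (tl q.2 - 1 / 8) * q.1)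
      (Icc (0 : ℝ) 1 ×ˢ Icc (-1 : ℝ) 1) :=
    (tl2_cont.div_const 2).neg.add ((tl2_cont.sub continuousOn_const).mul (by fun_prop))
  have h := strip μ (x := fun q => -(tl q.2 / 2) + (tl q.2 - 1 / 8) * q.1)
    (y := fun q => tl q.2 - mm (-(tl q.2 / 2) + (tl q.2 - 1 / 8) * q.1)) (a := 0) (b := 1)
    (by norm_num) hc (tl2_cont.sub (mm_contDiff.continuous.comp_continuousOn hc)) (by
      intro w hw p hp
      have hs := (tl_range hp).1
      obtain ⟨hx, hx2⟩ := abs_quad hs hw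
      simp only
      rw [mm_cpl hs hx]
      refine ⟨by ring, fun _ => ?_⟩
      have h1 := mm_le_half hs hx
      refine le_trans ?_ (le_abs_self _)
      linarith)
  simp only [tl_m1, tl_1] at h
  have e1 := μ.L_affine (fun x => (x, 9 / 16 - mm x, (-1 : ℝ))) (-(9 / 16 / 2)) (9 / 16 - 1 / 8) 0 1
  have e2 := μ.L_affine (fun x => (x, 9 / 16 - mm x, (1 : ℝ))) (-(9 / 16 / 2)) (9 / 16 - 1 / 8) 0 1
  have e0 : -(9 / 16 / 2) + (9 / 16 - 1 / 8) * (1 : ℝ) = 9 / 16 / 2 - 1 / 8 := by norm_num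
  rw [mul_zero, add_zero, e0] at e1 e2
  rw [e1, e2] at h
  have e3 : μ.L (fun p => (-(tl p / 2) + (tl p - 1 / 8) * 1,
      tl p - mm (-(tl p / 2) + (tl p - 1 / 8) * 1), p)) (-1) 1 =
      μ.L (cV 1 1 (-(1 / 8)) (1 / 8)) (-1) 1 := by
    refine μ.L_congr fun t ht => ?_
    rw [uIcc_of_le (by norm_num)] at ht
    have hs := (tl_range ht).1
    simp only [cV]
    rw [mm_eq_self (by linarith)]
    ext
    · simp only; ring
    · simp only; ring
    · rfl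
  have e4 : μ.L (fun p => (-(tl p / 2) + (tl p - 1 / 8) * 0,
      tl p - mm (-(tl p / 2) + (tl p - 1 / 8) * 0), p)) (-1) 1 = μ.L (cV (-1) 1 0 0) (-1) 1 := by
    refine μ.L_congr fun t ht => ?_
    rw [uIcc_of_le (by norm_num)] at ht
    have hs := (tl_range ht).1
    simp only [cV]
    rw [mul_zero, add_zero, mm_neg_half hs]
    ext
    · simp only; ring
    · simp only; ring
    · rfl
  rw [e3, e4] at h
  rw [sub_eq_sub_iff_add_eq_add]
  exact h

/-- the loop at an end of the tube -/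
theorem Gl_split {p : ℝ} (hp : |p| = 1) : μ.Gl (fun X Y => (X, Y, p)) (9 / 16) =
    μ.L (fun x => (x, -(9 / 16 - mm x), p)) (-(9 / 16 / 2)) (9 / 16 / 2) +
    μ.L (fun y => (9 / 16 - mm y, y, p)) (-(9 / 16 / 2)) (9 / 16 / 2 - 1 / 8) +
    μ.L (fun a => zet (a, p)) (-(1 / 8)) (1 / 8) -
    μ.L (fun x => (x, 9 / 16 - mm x, p)) (-(9 / 16 / 2)) (9 / 16 / 2 - 1 / 8) -
    μ.L (fun y => (-(9 / 16 - mm y), y, p)) (-(9 / 16 / 2)) (9 / 16 / 2) := by
  have htl : tl p = 9 / 16 := tu_one hp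
  have hpI : p ∈ Icc (-1 : ℝ) 1 := abs_le.1 hp.le
  have hmc : Continuous mm := mm_contDiff.continuous
  have hne : ¬ ((9 / 16 : ℝ) = 1 / 2) := by norm_num
  -- the right side
  have hR : ∀ t ∈ Icc (-(9 / 16 / 2)) (9 / 16 / 2 : ℝ), ((9 / 16 - mm t, t, p) : ℝ × ℝ × ℝ) ∈ S3 := by
    intro t ht
    have hs : (1 / 2 : ℝ) ≤ 9 / 16 := by norm_num
    refine ⟨hp.le, ?_, ?_⟩
    · show mm (9 / 16 - mm t) + mm t = tl p
      rw [htl, mm_cpl hs (abs_le.2 ht)]; ring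
    · rintro ⟨-, h4⟩
      have h5 : |p| ≤ Real.sqrt ((t - (9 / 16 - mm t)) ^ 2 + p ^ 2) :=
        Real.abs_le_sqrt (by nlinarith [sq_nonneg (t - (9 / 16 - mm t))])
      simp only at h4
      rw [hp] at h5
      linarith
  have hT : ∀ t ∈ Icc (-(9 / 16 / 2)) (9 / 16 / 2 : ℝ), ((t, 9 / 16 - mm t, p) : ℝ × ℝ × ℝ) ∈ S3 := by
    intro t ht
    have hs : (1 / 2 : ℝ) ≤ 9 / 16 := by norm_num
    refine ⟨hp.le, ?_, ?_⟩
    · show mm t + mm (9 / 16 - mm t) = tl p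
      rw [htl, mm_cpl hs (abs_le.2 ht)]; ring
    · rintro ⟨-, h4⟩
      have h5 : |p| ≤ Real.sqrt ((9 / 16 - mm t - t) ^ 2 + p ^ 2) :=
        Real.abs_le_sqrt (by nlinarith [sq_nonneg (9 / 16 - mm t - t)])
      simp only at h4
      rw [hp] at h5
      linarith
  have h1 := μ.L_add (g := fun y => ((9 / 16 - mm y, y, p) : ℝ × ℝ × ℝ))
    (I := Icc (-(9 / 16 / 2)) (9 / 16 / 2 : ℝ)) (a := -(9 / 16 / 2)) (b := 9 / 16 / 2 - 1 / 8)
    (c := 9 / 16 / 2) ordConnected_Icc (by fun_prop) hR (by constructor <;> norm_num)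
    (by constructor <;> norm_num) (by constructor <;> norm_num)
  have h2 := μ.L_add (g := fun x => ((x, 9 / 16 - mm x, p) : ℝ × ℝ × ℝ))
    (I := Icc (-(9 / 16 / 2)) (9 / 16 / 2 : ℝ)) (a := -(9 / 16 / 2)) (b := 9 / 16 / 2 - 1 / 8)
    (c := 9 / 16 / 2) ordConnected_Icc (by fun_prop) hT (by constructor <;> norm_num)
    (by constructor <;> norm_num) (by constructor <;> norm_num)
  have hz : ∀ t ∈ Icc (-(1 / 8)) (1 / 8 : ℝ), zet (t, p) ∈ S3 := by
    intro t ht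
    refine zet_mem ⟨abs_le.2 ht, hp.le, ?_⟩
    show 1 / 256 ≤ 4 * t ^ 2 + p ^ 2
    have : p ^ 2 = 1 := by rw [← sq_abs, hp]; norm_num
    nlinarith [sq_nonneg t]
  have hzc : Continuous fun a : ℝ => zet (a, p) := by
    unfold zet
    simp only [htl]
    fun_prop
  have h3 := μ.L_add (g := fun a => zet (a, p)) (I := Icc (-(1 / 8)) (1 / 8 : ℝ))
    (a := -(1 / 8)) (b := 0) (c := 1 / 8) ordConnected_Icc hzc.continuousOn hz
    (by constructor <;> norm_num) (by constructor <;> norm_num) (by constructor <;> norm_num)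
  have h4 := μ.L_symm (g := fun a => zet (a, p)) (I := Icc (-(1 / 8)) (1 / 8 : ℝ))
    (a := 0) (b := 1 / 8) ordConnected_Icc hzc.continuousOn hz
    (by constructor <;> norm_num) (by constructor <;> norm_num)
  have h5 : μ.L (fun y => ((9 / 16 - mm y, y, p) : ℝ × ℝ × ℝ)) (9 / 16 / 2 - 1 / 8) (9 / 16 / 2) =
      μ.L (fun a => zet (a, p)) (-(1 / 8)) 0 := by
    have e := μ.L_affine (fun y => ((9 / 16 - mm y, y, p) : ℝ × ℝ × ℝ)) (9 / 16 / 2) 1 (-(1 / 8)) 0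
    have e' : (9 / 16 / 2 : ℝ) + 1 * -(1 / 8) = 9 / 16 / 2 - 1 / 8 := by norm_num
    have e'' : (9 / 16 / 2 : ℝ) + 1 * 0 = 9 / 16 / 2 := by norm_num
    rw [e', e''] at e
    rw [← e]
    refine μ.L_congr fun t ht => ?_
    rw [uIcc_of_le (by norm_num)] at ht
    unfold zet
    simp only [htl]
    rw [mm_eq_self (by linarith [ht.1])]
    ext
    · simp only; ring
    · simp only; ring
    · rfl
  have h6 : μ.L (fun x => ((x, 9 / 16 - mm x, p) : ℝ × ℝ × ℝ)) (9 / 16 / 2 - 1 / 8) (9 / 16 / 2) =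
      μ.L (fun a => zet (a, p)) (1 / 8) 0 := by
    have e := μ.L_affine (fun x => ((x, 9 / 16 - mm x, p) : ℝ × ℝ × ℝ)) (9 / 16 / 2) (-1) (1 / 8) 0
    have e' : (9 / 16 / 2 : ℝ) + -1 * (1 / 8) = 9 / 16 / 2 - 1 / 8 := by norm_num
    have e'' : (9 / 16 / 2 : ℝ) + -1 * 0 = 9 / 16 / 2 := by norm_num
    rw [e', e''] at e
    rw [← e]
    refine μ.L_congr fun t ht => ?_
    rw [uIcc_of_ge (by norm_num)] at ht
    unfold zet
    simp only [htl]
    rw [mm_eq_self (by linarith [ht.2])]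
    ext
    · simp only; ring
    · simp only; ring
    · rfl
  unfold PF.Gl
  rw [← h1, ← h2, h5, h6, h4, ← h3]
  abel

/-- the two ends of a tube without a disc -/
theorem res_tube : μ.Gl (fun X Y => (X, Y, (-1 : ℝ))) (9 / 16) -
    μ.Gl (fun X Y => (X, Y, (1 : ℝ))) (9 / 16) = μ.L kap 0 1 := by
  have h := rect_circle (μ.comap zet zet_cont fun q hq => zet_mem hq)
  have e1 : (μ.comap zet zet_cont fun q hq => zet_mem hq).L CC 0 1 = μ.L kap 0 1 := by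
    have : (fun t : ℝ => zet (CC t)) = kap := funext zet_CC
    rw [← this]
    rfl
  have e2 : (μ.comap zet zet_cont fun q hq => zet_mem hq).L (fun a => (a, (-1 : ℝ))) (-(1 / 8))
      (1 / 8) = μ.L (fun a => zet (a, -1)) (-(1 / 8)) (1 / 8) := rfl
  have e3 : (μ.comap zet zet_cont fun q hq => zet_mem hq).L (fun a => (a, (1 : ℝ))) (-(1 / 8))
      (1 / 8) = μ.L (fun a => zet (a, 1)) (-(1 / 8)) (1 / 8) := rfl
  have e4 : (μ.comap zet zet_cont fun q hq => zet_mem hq).L (fun p => ((1 / 8 : ℝ), p)) (-1) 1 =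
      μ.L (cV 1 1 (-(1 / 8)) (1 / 8)) (-1) 1 := by
    have : (fun p : ℝ => zet ((1 / 8 : ℝ), p)) = cV 1 1 (-(1 / 8)) (1 / 8) := by
      funext p
      unfold zet cV
      ext
      · simp only; ring
      · simp only; ring
      · rfl
    rw [← this]
    rfl
  have e5 : (μ.comap zet zet_cont fun q hq => zet_mem hq).L (fun p => ((-(1 / 8) : ℝ), p)) (-1) 1 =
      μ.L (cV 1 1 (1 / 8) (-(1 / 8))) (-1) 1 := by
    have : (fun p : ℝ => zet ((-(1 / 8) : ℝ), p)) = cV 1 1 (1 / 8) (-(1 / 8)) := by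
      funext p
      unfold zet cV
      ext
      · simp only; ring
      · simp only; ring
      · rfl
    rw [← this]
    rfl
  rw [e1, e2, e3, e4, e5] at h
  rw [← h, Gl_split μ (by norm_num), Gl_split μ (by norm_num)]
  have hB := face_B μ
  have hL := face_L μ
  have hR := face_R μ
  have hT := face_T μ
  rw [sub_eq_iff_eq_add] at hB hL hR hT
  rw [hB, hL, hR, hT]
  abel

end

end Pool.Agent.TH619
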