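import Pool.Agent.TH619.Geo4
import Pool.Agent.TH73.ResHex
import Pool.Agent.TH553.J255
import Pool.Agent.TH619.R3b

/-! The residue theorem on the surface outside the necks. -/

set_option autoImplicit false

namespace Pool.Agent.TH619

open Set Topology Filter
open scoped InnerProductSpace Manifold ContDiff
open Pool.Agent.Helper874.Odd

/-- the boundary circle of the disc of the `j`-th tube A -/
noncomputable def kaA (j : Fin 3) (t : ℝ) : V × ℝ :=
  ((cc j - 1 / 32 * Real.cos (2 * Real.pi * t), 1 / 4 + 1 / 32 * Real.cos (2 * Real.pi * t),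
    1 / 16 * Real.sin (2 * Real.pi * t), 0), 0)

/-- the boundary circle of the disc of the `j`-th tube B -/
noncomputable def kaB (j : Fin 3) (t : ℝ) : V × ℝ :=
  ((cc j + 1 / 32 * Real.cos (2 * Real.pi * t), 1 / 4 + 1 / 32 * Real.cos (2 * Real.pi * t),
    0, -(1 / 16 * Real.sin (2 * Real.pi * t))), 0)

/-- the embedding of the model tube as tube A -/
noncomputable def eA (j : Fin 3) (w : ℝ × ℝ × ℝ) : V × ℝ :=
  ((cc j - 1 / 4 + w.1, w.2.1, w.2.2, 0), lab (-(1 / 4) + w.1, w.2.1, w.2.2, 0))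

/-- the embedding of the model tube as tube B -/
noncomputable def eB (j : Fin 3) (w : ℝ × ℝ × ℝ) : V × ℝ :=
  ((cc j + 1 / 4 - w.1, w.2.1, 0, w.2.2), 0)

theorem tl_facts {p : ℝ} (hp : |p| ≤ 1) : tl p ≤ 9 / 16 ∧ alp p + bet (tl p - 1 / 2) - 1 = 0 := by
  have h := tu_range (p := p) (abs_le.1 hp)
  exact ⟨h.2.1, h.2.2⟩

theorem eA_mem {j : Fin 3} {w : ℝ × ℝ × ℝ} (hw : w ∈ S3) : eA j w ∈ Zn (.tA j) := by
  obtain ⟨hp, hk, hd⟩ := hw
  obtain ⟨h1, h2⟩ := tl_facts hp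
  have hsh : sh j (eA j w).1 = (-(1 / 4) + w.1, w.2.1, w.2.2, 0) := by
    unfold sh eA
    simp only
    congr 1
    ring
  have hkA : kA (-(1 / 4) + w.1, w.2.1, w.2.2, 0) = tl w.2.2 := by
    rw [← hk]
    unfold kA
    simp only
    congr 2
    ring
  refine ⟨?_, ?_⟩
  · rw [hsh]; rfl
  · rw [hsh]
    refine ⟨⟨rfl, by rw [hkA]; exact h1, ?_⟩, ?_⟩
    · unfold PsA
      rw [hkA]
      exact h2
    · rintro ⟨h3, -, h4⟩
      apply hd
      unfold X1 at h3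
      unfold nz X2 at h4
      simp only at h3 h4
      refine ⟨by linarith, ?_⟩
      have : w.2.1 - (-(1 / 4) + w.1) - 1 / 4 = w.2.1 - w.1 := by ring
      rwa [this] at h4

theorem eB_mem {j : Fin 3} {w : ℝ × ℝ × ℝ} (hw : w ∈ S3) : eB j w ∈ Zn (.tB j) := by
  obtain ⟨hp, hk, hd⟩ := hw
  obtain ⟨h1, h2⟩ := tl_facts hp
  have hsh : sh j (eB j w).1 = (1 / 4 - w.1, w.2.1, 0, w.2.2) := by
    unfold sh eB
    simp only
    congr 1
    ring
  have hkB : kB (1 / 4 - w.1, w.2.1, 0, w.2.2) = tl w.2.2 := by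
    rw [← hk]
    unfold kB
    simp only
    have : 1 / 4 - w.1 - 1 / 4 = -w.1 := by ring
    rw [this, mm_neg]
  refine ⟨rfl, ?_⟩
  · rw [hsh]
    refine ⟨⟨rfl, by rw [hkB]; exact h1, ?_⟩, ?_⟩
    · unfold PsB
      rw [hkB]
      exact h2
    · rintro ⟨h3, -, h4⟩
      apply hd
      unfold X2 at h3
      unfold nw X1 at h4
      simp only at h3 h4
      refine ⟨by linarith, ?_⟩
      have : 1 / 4 - w.1 + w.2.1 - 1 / 4 = w.2.1 - w.1 := by ring
      rwa [this] at h4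

theorem eA_cont (j : Fin 3) : Continuous (eA j) := by
  have h := lab_contDiff.continuous
  unfold eA
  fun_prop

theorem eB_cont (j : Fin 3) : Continuous (eB j) := by
  unfold eB
  fun_prop

theorem lab_pos_y {v : V} (h : 0 ≤ v.2.1) : lab v = 0 := by
  unfold lab
  rw [expNegInvGlue.zero_of_nonpos (by linarith : -v.2.1 ≤ 0), zero_mul]

theorem eA_kap (j : Fin 3) (t : ℝ) : eA j (kap t) = kaA j t := by
  unfold eA kap kaA
  have hc := Real.cos_le_one (2 * Real.pi * t)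
  have hc' := Real.neg_one_le_cos (2 * Real.pi * t)
  rw [lab_pos_y (by simp only; linarith)]
  simp only
  congr 2
  ring

theorem eB_kap (j : Fin 3) (t : ℝ) : eB j (kap t) = kaB j (-t) := by
  unfold eB kap kaB
  have h1 : 2 * Real.pi * (-t) = -(2 * Real.pi * t) := by ring
  rw [h1, Real.cos_neg, Real.sin_neg]
  simp only
  congr 2
  · ring
  · congr 1
    ring

theorem Bf_vt {p r : ℝ} (h : (p, r) ∈ Vt) : Bf p r = 1 ∧ Rf p r = 1 := by
  have h1 := bet_eq_zero (d := 1) (by norm_num)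
  have h2 := bet_eq_zero (d := 2) (by norm_num)
  have h0 := bet_zero
  simp only [Vt, Set.mem_insert_iff, Set.mem_singleton_iff, Prod.mk.injEq] at h
  rcases h with h | h | h | h | h | h <;> obtain ⟨rfl, rfl⟩ := h <;>
    (unfold Bf Rf; norm_num [h0, h1, h2])

theorem flat_ML {x y : ℝ} {e : ℝ × ℝ} (hx : |x| ≤ 15 / 4) (hy : |y| ≤ 15 / 4) (he : e ∈ Vt) :
    ((x, y, e) : V) ∈ ML := by
  obtain ⟨h1, h2⟩ := Bf_vt (p := e.1) (r := e.2) he
  refine ⟨?_, ?_⟩
  · show alp (x / 4) + Bf e.1 e.2 - 1 = 0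
    rw [h1, alp_eq_zero_iff.2 (by
      rw [abs_div, abs_of_pos (by norm_num : (0 : ℝ) < 4)]; linarith)]
    ring
  · show alp (y / 4) + Rf e.1 e.2 - 1 = 0
    rw [h2, alp_eq_zero_iff.2 (by
      rw [abs_div, abs_of_pos (by norm_num : (0 : ℝ) < 4)]; linarith)]
    ring

theorem sqA_mem {w : ℝ × ℝ} (hw : w ∈ S2 (-(1 / 4))) {p : ℝ} (hp : p = 1 ∨ p = -1) :
    (((w.1, w.2, p, 0), 0) : V × ℝ) ∈ Zn .base := by
  obtain ⟨h1, h2, h3⟩ := hw
  refine ⟨rfl, flat_ML (e := (p, 0)) h1 h2 ?_, fun j => ?_⟩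
  · rcases hp with rfl | rfl <;> simp [Vt]
  · rintro (⟨-, -, hk⟩ | ⟨-, hr, -⟩)
    · have := h3 j
      unfold kA sh at hk
      simp only at hk
      have e : w.1 - (cc j + -(1 / 4)) = w.1 - cc j + 1 / 4 := by ring
      rw [e] at this
      linarith
    · have : |(0 : ℝ)| = 1 := hr
      norm_num at this

theorem sqB_mem {w : ℝ × ℝ} (hw : w ∈ S2 (1 / 4)) {p : ℝ} (hp : p = 1 ∨ p = -1) :
    (((w.1, w.2, 0, p), 0) : V × ℝ) ∈ Zn .base := by
  obtain ⟨h1, h2, h3⟩ := hw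
  refine ⟨rfl, flat_ML (e := (0, p)) h1 h2 ?_, fun j => ?_⟩
  · rcases hp with rfl | rfl <;> simp [Vt]
  · rintro (⟨-, hr, -⟩ | ⟨-, -, hk⟩)
    · have : |(0 : ℝ)| = 1 := hr
      norm_num at this
    · have := h3 j
      unfold kB sh at hk
      simp only at hk
      have e : w.1 - (cc j + 1 / 4) = w.1 - cc j - 1 / 4 := by ring
      rw [e] at this
      linarith

theorem sq0_mem {x y : ℝ} (hx : |x| ≤ 15 / 4) (hy : |y| ≤ 15 / 4) {p r : ℝ}
    (h : p = -1 ∧ r = 1 ∨ p = 1 ∧ r = -1) : (((x, y, p, r), 0) : V × ℝ) ∈ Zn .base := by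
  refine ⟨rfl, flat_ML (e := (p, r)) hx hy ?_, fun j => ?_⟩
  · rcases h with ⟨rfl, rfl⟩ | ⟨rfl, rfl⟩ <;> simp [Vt]
  · rintro (⟨hr, -, -⟩ | ⟨hp, -, -⟩)
    · change r = 0 at hr
      rcases h with ⟨rfl, rfl⟩ | ⟨rfl, rfl⟩ <;> norm_num at hr
    · change p = 0 at hp
      rcases h with ⟨rfl, rfl⟩ | ⟨rfl, rfl⟩ <;> norm_num at hp

theorem S1_mem {v : V} (hv : v ∈ S1) : ((v, 0) : V × ℝ) ∈ Zn .base := by
  obtain ⟨h1, h2⟩ := hv
  refine ⟨rfl, h1, fun j => ?_⟩
  rintro (⟨-, -, hk⟩ | ⟨-, -, hk⟩)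
  · obtain ⟨h3, h4⟩ := kA_bd hk
    have h5 := abs_x_lt h3
    have h6 : |v.2.1| < 9 / 16 := h4
    rcases h2 with h2 | h2 <;> linarith
  · obtain ⟨h3, h4⟩ := kB_bd hk
    have h5 := abs_x_lt h3
    have h6 : |v.2.1| < 9 / 16 := h4
    rcases h2 with h2 | h2 <;> linarith

section

variable {A : Type} [AddCommGroup A]

theorem Zn_MO {k : Pc} {m : V × ℝ} (h : m ∈ Zn k) : m ∈ MO := mem_iUnion.2 ⟨k, h⟩

/-- reflecting the loop -/
theorem Gl_neg {X : Type} [TopologicalSpace X] {S : Set X} (μ : PF S A) {ι : ℝ → ℝ → X} {s : ℝ}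
    (hι : Continuous fun q : ℝ × ℝ => ι q.1 q.2)
    (hS : ∀ a b : ℝ, mm a + mm b = s → ι a b ∈ S) (hs : s = 9 / 16) :
    μ.Gl (fun X Y => ι (-X) Y) s = - μ.Gl ι s := by
  have hmc : Continuous mm := mm_contDiff.continuous
  have hle : ∀ t ∈ Icc (-(s / 2)) (s / 2), mm t + mm (s - mm t) = s := by
    intro t ht
    have h1 : mm t ≤ s / 2 := by
      rcases le_or_gt |t| (1 / 16) with h | h
      · have := mm_le h; rw [hs]; linarith
      · rw [mm_eq_abs h.le]; exact abs_le.2 ht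
    have h2 : mm (s - mm t) = s - mm t := mm_eq_self (by rw [hs] at h1 ⊢; linarith)
    rw [h2]; ring
  unfold PF.Gl
  have e1 : μ.L (fun x => ι (-x) (-(s - mm x))) (-(s / 2)) (s / 2) =
      - μ.L (fun x => ι x (-(s - mm x))) (-(s / 2)) (s / 2) := by
    have h1 : (fun x => ι (-x) (-(s - mm x))) = fun x => (fun x => ι x (-(s - mm x))) (0 + (-1) * x) := by
      funext x
      simp only [zero_add, neg_mul, one_mul, mm_neg]
    have h1' := μ.L_affine (fun x => ι x (-(s - mm x))) 0 (-1) (-(s / 2)) (s / 2)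
    rw [h1, h1']
    have h2 : (0 : ℝ) + -1 * (-(s / 2)) = s / 2 := by ring
    have h3 : (0 : ℝ) + -1 * (s / 2) = -(s / 2) := by ring
    rw [h2, h3]
    refine μ.L_symm (I := Icc (-(s / 2)) (s / 2)) ordConnected_Icc ?_ ?_ ?_ ?_
    · have : Continuous fun x => ι x (-(s - mm x)) :=
        hι.comp (continuous_id.prodMk ((continuous_const.sub hmc).neg))
      exact this.continuousOn
    · intro t ht
      refine hS _ _ ?_
      rw [mm_neg]; exact hle t ht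
    · constructor <;> rw [hs] <;> norm_num
    · constructor <;> rw [hs] <;> norm_num
  have e2 : μ.L (fun x => ι (-x) (s - mm x)) (-(s / 2)) (s / 2) =
      - μ.L (fun x => ι x (s - mm x)) (-(s / 2)) (s / 2) := by
    have h1 : (fun x => ι (-x) (s - mm x)) = fun x => (fun x => ι x (s - mm x)) (0 + (-1) * x) := by
      funext x
      simp only [zero_add, neg_mul, one_mul, mm_neg]
    have h1' := μ.L_affine (fun x => ι x (s - mm x)) 0 (-1) (-(s / 2)) (s / 2)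
    rw [h1, h1']
    have h2 : (0 : ℝ) + -1 * (-(s / 2)) = s / 2 := by ring
    have h3 : (0 : ℝ) + -1 * (s / 2) = -(s / 2) := by ring
    rw [h2, h3]
    refine μ.L_symm (I := Icc (-(s / 2)) (s / 2)) ordConnected_Icc ?_ ?_ ?_ ?_
    · have : Continuous fun x => ι x (s - mm x) :=
        hι.comp (continuous_id.prodMk (continuous_const.sub hmc))
      exact this.continuousOn
    · intro t ht
      exact hS _ _ (hle t ht)
    · constructor <;> rw [hs] <;> norm_num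
    · constructor <;> rw [hs] <;> norm_num
  simp only [neg_neg]
  rw [e1, e2]
  abel

/-- the residue theorem on the tubes A -/
theorem res_A (μ : PF MO A) (j : Fin 3) :
    μ.Gl (fun X Y => (((cc j + -(1 / 4) + X, Y, -1, 0), 0) : V × ℝ)) (9 / 16) -
      μ.Gl (fun X Y => (((cc j + -(1 / 4) + X, Y, 1, 0), 0) : V × ℝ)) (9 / 16) =
      μ.L (kaA j) 0 1 := by
  have h := res_tube (μ.comap (eA j) (eA_cont j).continuousOn fun w hw => Zn_MO (eA_mem hw))
  have e : ∀ p : ℝ, |p| = 1 → (fun X Y : ℝ => eA j (X, Y, p)) =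
      fun X Y => (((cc j + -(1 / 4) + X, Y, p, 0), 0) : V × ℝ) := by
    intro p hp
    funext X Y
    unfold eA
    rw [lab_zero_of_abs (v := (-(1 / 4) + X, Y, p, 0)) hp]
    simp only
    congr 2
  have e1 := e (-1) (by norm_num)
  have e2 := e 1 (by norm_num)
  have e3 : (fun t => eA j (kap t)) = kaA j := funext (eA_kap j)
  change μ.Gl (fun X Y : ℝ => eA j (X, Y, -1)) (9 / 16) -
    μ.Gl (fun X Y : ℝ => eA j (X, Y, 1)) (9 / 16) = μ.L (fun t => eA j (kap t)) 0 1 at h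
  rw [e1, e2, e3] at h
  exact h

theorem kaB_cont (j : Fin 3) : Continuous (kaB j) := by
  unfold kaB
  fun_prop

theorem kaA_cont (j : Fin 3) : Continuous (kaA j) := by
  unfold kaA
  fun_prop

theorem kap_mem (t : ℝ) : kap t ∈ S3 := by
  have hc := Real.cos_le_one (2 * Real.pi * t)
  have hc' := Real.neg_one_le_cos (2 * Real.pi * t)
  have hs := Real.sin_le_one (2 * Real.pi * t)
  have hs' := Real.neg_one_le_sin (2 * Real.pi * t)
  have hcs := Real.sin_sq_add_cos_sq (2 * Real.pi * t)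
  unfold kap S3
  generalize Real.cos (2 * Real.pi * t) = c at *
  generalize Real.sin (2 * Real.pi * t) = s at *
  have hab : |1 / 16 * s| ≤ 1 / 16 := by
    rw [abs_le]; constructor <;> linarith
  refine ⟨by show |1 / 16 * s| ≤ 1; linarith, ?_, ?_⟩
  · show mm (1 / 4 - 1 / 32 * c) + mm (1 / 4 + 1 / 32 * c) = tl (1 / 16 * s)
    rw [mm_eq_self (by linarith), mm_eq_self (by linarith)]
    unfold tl
    rw [alp_eq_zero_iff.2 (by linarith), sub_zero, iot_one]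
    ring
  · rintro ⟨-, h⟩
    simp only at h
    have e : (1 / 4 + 1 / 32 * c - (1 / 4 - 1 / 32 * c)) ^ 2 + (1 / 16 * s) ^ 2 = (1 / 16) ^ 2 := by
      linear_combination (1 / 256) * hcs
    rw [e, Real.sqrt_sq (by norm_num)] at h
    exact lt_irrefl _ h

theorem kaA_mem (j : Fin 3) (t : ℝ) : kaA j t ∈ Zn (.tA j) := by
  rw [← eA_kap]; exact eA_mem (kap_mem t)

theorem kaB_mem (j : Fin 3) (t : ℝ) : kaB j t ∈ Zn (.tB j) := by
  have h := eB_kap j (-t)
  rw [neg_neg] at h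
  rw [← h]; exact eB_mem (kap_mem (-t))

theorem res_B (μ : PF MO A) (j : Fin 3) :
    μ.Gl (fun X Y => (((cc j + 1 / 4 + X, Y, 0, -1), 0) : V × ℝ)) (9 / 16) -
      μ.Gl (fun X Y => (((cc j + 1 / 4 + X, Y, 0, 1), 0) : V × ℝ)) (9 / 16) =
      μ.L (kaB j) 0 1 := by
  have h := res_tube (μ.comap (eB j) (eB_cont j).continuousOn fun w hw => Zn_MO (eB_mem hw))
  have e3 : (fun t => eB j (kap t)) = fun t => kaB j (0 + (-1) * t) := by
    funext t
    rw [eB_kap]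
    congr 1
    ring
  have e : ∀ p : ℝ, |p| = 1 → μ.Gl (fun X Y : ℝ => eB j (X, Y, p)) (9 / 16) =
      - μ.Gl (fun X Y => (((cc j + 1 / 4 + X, Y, 0, p), 0) : V × ℝ)) (9 / 16) := by
    intro p hp
    rw [← Gl_neg μ (by fun_prop) ?_ rfl]
    · congr 1
    · intro a b hab
      have hm : (((cc j + 1 / 4 + a, b, 0, p), 0) : V × ℝ) = eB j (-a, b, p) := by
        unfold eB; simp only; congr 2; ring
      rw [hm]
      refine Zn_MO (eB_mem ⟨by show |p| ≤ 1; rw [hp], ?_, ?_⟩)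
      · show mm (-a) + mm b = tl p
        rw [mm_neg, hab]
        exact (tu_one hp).symm
      · rintro ⟨-, h4⟩
        simp only at h4
        have h5 : |p| ≤ Real.sqrt ((b - -a) ^ 2 + p ^ 2) :=
          Real.abs_le_sqrt (by nlinarith [sq_nonneg (b - -a)])
        rw [hp] at h5
        linarith
  change μ.Gl (fun X Y : ℝ => eB j (X, Y, -1)) (9 / 16) -
    μ.Gl (fun X Y : ℝ => eB j (X, Y, 1)) (9 / 16) = μ.L (fun t => eB j (kap t)) 0 1 at h
  rw [e (-1) (by norm_num), e 1 (by norm_num), e3, μ.L_affine] at h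
  have h1 : (0 : ℝ) + -1 * 0 = 0 := by ring
  have h2 : (0 : ℝ) + -1 * 1 = -1 := by ring
  rw [h1, h2] at h
  have h3 : μ.L (kaB j) 0 (-1) = - μ.L (kaB j) (-1) 0 :=
    μ.L_symm (I := univ) ordConnected_univ (kaB_cont j).continuousOn
      (fun t _ => Zn_MO (kaB_mem j t)) (mem_univ _) (mem_univ _)
  have h4 : μ.L (kaB j) (-1) 0 = μ.L (kaB j) 0 1 := by
    have e4 : kaB j = fun t => kaB j (1 + 1 * t) := by
      funext t
      unfold kaB
      have : 2 * Real.pi * (1 + 1 * t) = 2 * Real.pi * t + 2 * Real.pi := by ring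
      rw [this, Real.cos_add_two_pi, Real.sin_add_two_pi]
    conv_lhs => rw [e4]
    rw [μ.L_affine]
    norm_num
  rw [h3, h4] at h
  have := congrArg Neg.neg h
  rw [neg_neg] at this
  rw [← this]
  abel

/-- the residue theorem -/
theorem residue (μ : PF MO A) :
    ∑ j : Fin 3, (μ.L (kaA j) 0 1 - μ.L (kaB j) 0 1) = 0 := by
  have hA : ∀ p : ℝ, p = 1 ∨ p = -1 →
      μ.Dr (fun x y => (((x, y, p, 0), 0) : V × ℝ)) (-(15 / 4)) (15 / 4) (-(15 / 4)) (15 / 4) =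
      ∑ j : Fin 3, μ.Gl (fun X Y => (((cc j + -(1 / 4) + X, Y, p, 0), 0) : V × ℝ)) (9 / 16) := by
    intro p hp
    exact Pool.Agent.TH553.J255.res_square (c := -(1 / 4)) (by norm_num) (μ.comap
      (fun w : ℝ × ℝ => (((w.1, w.2, p, 0), 0) : V × ℝ)) (by fun_prop)
      fun w hw => Zn_MO (sqA_mem hw hp))
  have hB : ∀ p : ℝ, p = 1 ∨ p = -1 →
      μ.Dr (fun x y => (((x, y, 0, p), 0) : V × ℝ)) (-(15 / 4)) (15 / 4) (-(15 / 4)) (15 / 4) =
      ∑ j : Fin 3, μ.Gl (fun X Y => (((cc j + 1 / 4 + X, Y, 0, p), 0) : V × ℝ)) (9 / 16) := by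
    intro p hp
    exact Pool.Agent.TH553.J255.res_square (c := 1 / 4) (by norm_num) (μ.comap
      (fun w : ℝ × ℝ => (((w.1, w.2, 0, p), 0) : V × ℝ)) (by fun_prop)
      fun w hw => Zn_MO (sqB_mem hw hp))
  have h0 : ∀ p r : ℝ, (p = -1 ∧ r = 1 ∨ p = 1 ∧ r = -1) →
      μ.Dr (fun x y => (((x, y, p, r), 0) : V × ℝ)) (-(15 / 4)) (15 / 4) (-(15 / 4)) (15 / 4) = 0 := by
    intro p r h
    have h1 := μ.L_rect (G := fun x y => (((x, y, p, r), 0) : V × ℝ)) (I := Icc (-(15 / 4)) (15 / 4))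
      (J := Icc (-(15 / 4)) (15 / 4)) (a := -(15 / 4)) (b := 15 / 4) (c := -(15 / 4)) (d := 15 / 4)
      ordConnected_Icc ordConnected_Icc (by fun_prop)
      (fun u hu v hv => Zn_MO (sq0_mem (abs_le.2 hu) (abs_le.2 hv) h))
      (by constructor <;> norm_num) (by constructor <;> norm_num) (by constructor <;> norm_num)
      (by constructor <;> norm_num)
    unfold PF.Dr
    rw [h1]
    abel
  have h1 := res_hex (μ.comap (fun v : V => ((v, 0) : V × ℝ)) (by fun_prop)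
    fun v hv => Zn_MO (S1_mem hv))
  change μ.Dr (fun x y => (((x, y, 1, 0), 0) : V × ℝ)) (-(15 / 4)) (15 / 4) (-(15 / 4)) (15 / 4)
    - μ.Dr (fun x y => (((x, y, 0, 1), 0) : V × ℝ)) (-(15 / 4)) (15 / 4) (-(15 / 4)) (15 / 4)
    + μ.Dr (fun x y => (((x, y, -1, 1), 0) : V × ℝ)) (-(15 / 4)) (15 / 4) (-(15 / 4)) (15 / 4)
    - μ.Dr (fun x y => (((x, y, -1, 0), 0) : V × ℝ)) (-(15 / 4)) (15 / 4) (-(15 / 4)) (15 / 4)
    + μ.Dr (fun x y => (((x, y, 0, -1), 0) : V × ℝ)) (-(15 / 4)) (15 / 4) (-(15 / 4)) (15 / 4)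
    - μ.Dr (fun x y => (((x, y, 1, -1), 0) : V × ℝ)) (-(15 / 4)) (15 / 4) (-(15 / 4)) (15 / 4) = 0
    at h1
  rw [hA 1 (Or.inl rfl), hA (-1) (Or.inr rfl), hB 1 (Or.inl rfl), hB (-1) (Or.inr rfl),
    h0 (-1) 1 (Or.inl ⟨rfl, rfl⟩), h0 1 (-1) (Or.inr ⟨rfl, rfl⟩)] at h1
  simp_rw [← res_A, ← res_B]
  simp only [Finset.sum_sub_distrib]
  rw [← neg_eq_zero, ← h1]
  abel

end

end Pool.Agent.TH619
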