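import Pool.Agent.TH619.Six2
import Pool.Agent.TH619.ResAsm

/-! The fibre class has order six. -/

set_option autoImplicit false

namespace Pool.Agent.TH619

open Set Topology Filter
open scoped InnerProductSpace Manifold ContDiff
open Pool.Agent.Helper874.Odd

section

variable {A : Type} [AddCommGroup A]

/-- loops over the circles of the necks -/
noncomputable def lp (j : Fin 3) (P Q : ℝ) (z : ℝ → ℂ) (θ : ℝ → ℝ) (v : ℝ) : (V × ℝ) × E 4 :=
  (nk j P Q (θ v), psi (Rv P Q (Real.cos (θ v)) (Real.sin (θ v)))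
    (Iv P Q (Real.cos (θ v)) (Real.sin (θ v))) (z v))

/-- the angle -/
noncomputable def an (v : ℝ) : ℝ := 2 * Real.pi * v

theorem an_cont : Continuous an := by unfold an; fun_prop

theorem an_one : Real.cos (an 1) = Real.cos (an 0) ∧ Real.sin (an 1) = Real.sin (an 0) := by
  unfold an
  constructor <;> simp

theorem kaA_eq (j : Fin 3) (t : ℝ) : kaA j t = nk j (1 / 16) 0 (an t) := by
  unfold kaA nk h400_pt an
  simp only
  refine Prod.ext (Prod.ext ?_ (Prod.ext ?_ (Prod.ext ?_ ?_))) rfl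
  · simp only; ring
  · simp only; ring
  · simp only
  · simp only; ring

theorem kaB_eq (j : Fin 3) (t : ℝ) : kaB j t = nk j 0 (1 / 16) (an t) := by
  unfold kaB nk h400_pt an
  simp only
  refine Prod.ext (Prod.ext ?_ (Prod.ext ?_ (Prod.ext ?_ ?_))) rfl
  · simp only; ring
  · simp only; ring
  · simp only; ring
  · simp only

theorem ne_of_cs {a b c s : ℝ} (ha : a ≠ 0) (hb : b ≠ 0) (h : c ^ 2 + s ^ 2 = 1) :
    (⟨a * s, b * c⟩ : ℂ) ≠ 0 := by
  intro h0
  have h1 := congrArg Complex.re h0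
  have h2 := congrArg Complex.im h0
  simp only [Complex.zero_re, Complex.zero_im] at h1 h2
  have h3 := (mul_eq_zero.1 h1).resolve_left ha
  have h4 := (mul_eq_zero.1 h2).resolve_left hb
  rw [h3, h4] at h
  norm_num at h

/-- homotopies of the loops with coefficients `(a sin, b cos)` -/
theorem lp_htpy (lam : PF NT A) (j : Fin 3) {P Q : ℝ → ℝ} {θ : ℝ → ℝ} {a b : ℝ → ℝ}
    (hP : ContinuousOn P (Icc 0 1)) (hQ : ContinuousOn Q (Icc 0 1))
    (hPQ : ∀ u ∈ Icc (0 : ℝ) 1, PQ (P u) (Q u)) (hθ : Continuous θ)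
    (hθ1 : Real.cos (θ 1) = Real.cos (θ 0) ∧ Real.sin (θ 1) = Real.sin (θ 0))
    (ha : Continuous a) (hb : Continuous b)
    (hab : ∀ u ∈ Icc (0 : ℝ) 1, a u ≠ 0 ∧ b u ≠ 0) :
    lam.L (lp j (P 0) (Q 0) (fun v => ⟨a 0 * Real.sin (an v), b 0 * Real.cos (an v)⟩) θ) 0 1 =
    lam.L (lp j (P 1) (Q 1) (fun v => ⟨a 1 * Real.sin (an v), b 1 * Real.cos (an v)⟩) θ) 0 1 := by
  refine neck_htpy lam j (z := fun u v => ⟨a u * Real.sin (an v), b u * Real.cos (an v)⟩) hP hQ hPQ
    hθ hθ1 ?_ ?_ ?_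
  · have := an_cont
    refine mk_cont (X := ℝ × ℝ) ?_ ?_
    · exact ((ha.comp continuous_fst).mul (Real.continuous_sin.comp
        (an_cont.comp continuous_snd))).continuousOn
    · exact ((hb.comp continuous_fst).mul (Real.continuous_cos.comp
        (an_cont.comp continuous_snd))).continuousOn
  · exact fun u hu v _ => ne_of_cs (hab u hu).1 (hab u hu).2 (Real.cos_sq_add_sin_sq _)
  · intro u _
    simp only [an_one.1, an_one.2]

theorem lin_ne {b u : ℝ} (hb : b < 0) (hu : u ∈ Icc (0 : ℝ) 1) : (1 - u) * b + u * (-1) ≠ 0 := by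
  intro h0
  have h1 : (1 - u) * b ≤ 0 := mul_nonpos_of_nonneg_of_nonpos (by linarith [hu.2]) hb.le
  have hu0 : u = 0 := by linarith [hu.1]
  rw [hu0] at h0
  linarith

theorem const_PQ {P Q : ℝ} (h : PQ P Q) : ContinuousOn (fun _ : ℝ => P) (Icc 0 1) ∧
    ContinuousOn (fun _ : ℝ => Q) (Icc 0 1) ∧ ∀ u ∈ Icc (0 : ℝ) 1, PQ P Q :=
  ⟨continuousOn_const, continuousOn_const, fun _ _ => h⟩

/-- the section over the upper circle -/
theorem sec_A_eq (lam : PF NT A) (j : Fin 3) : lam.L (fun t => sec (kaA j t)) 0 1 =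
    lam.L (lp j 0 (1 / 16) (fun v => ⟨(-1) * Real.sin (an v), (-1) * Real.cos (an v)⟩) an) 0 1 := by
  have hb := b0_neg
  have e : (fun t => sec (kaA j t)) =
      lp j (1 / 16) 0 (fun v => ⟨b0 * Real.sin (an v), (-(1 / 16)) * Real.cos (an v)⟩) an := by
    funext t
    rw [kaA_eq, sec_A]
    unfold lp
    congr 2
    apply Complex.ext
    · rfl
    · simp only; ring
  rw [e]
  obtain ⟨c1, c2, c3⟩ := const_PQ PQA
  have h1 := lp_htpy lam j (P := fun _ => 1 / 16) (Q := fun _ => 0) (θ := an)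
    (a := fun u => (1 - u) * b0 + u * (-1)) (b := fun u => (1 - u) * (-(1 / 16)) + u * (-1))
    c1 c2 c3 an_cont an_one (by fun_prop) (by fun_prop)
    (by
      intro u hu
      exact ⟨lin_ne hb hu, lin_ne (by norm_num) hu⟩)
  have h2 := lp_htpy lam j (P := pu) (Q := qu) (θ := an) (a := fun _ => -1) (b := fun _ => -1)
    pu_cont.continuousOn qu_cont (fun u hu => PQu hu) an_cont an_one (by fun_prop) (by fun_prop)
    (by intro u _; constructor <;> norm_num)
  rw [pu_zero, qu_zero, pu_one, qu_one] at h2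
  simp only [sub_zero, one_mul, zero_mul, add_zero, sub_self, zero_add] at h1
  rw [h1, h2]

/-- the section over the lower circle -/
theorem sec_B_eq (lam : PF NT A) (j : Fin 3) : lam.L (fun t => sec (kaB j t)) 0 1 =
    lam.L (lp j 0 (1 / 16) (fun v => ⟨1 * Real.sin (an v), (-1) * Real.cos (an v)⟩) an) 0 1 := by
  have hb := b0_neg
  have e : (fun t => sec (kaB j t)) =
      lp j 0 (1 / 16) (fun v => ⟨(-b0) * Real.sin (an v), (-(1 / 16)) * Real.cos (an v)⟩) an := by
    funext t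
    rw [kaB_eq, sec_B]
    unfold lp
    congr 2
    apply Complex.ext
    · simp only; ring
    · simp only; ring
  rw [e]
  obtain ⟨c1, c2, c3⟩ := const_PQ PQB
  have h1 := lp_htpy lam j (P := fun _ => 0) (Q := fun _ => 1 / 16) (θ := an)
    (a := fun u => (1 - u) * (-b0) + u * 1) (b := fun u => (1 - u) * (-(1 / 16)) + u * (-1))
    c1 c2 c3 an_cont an_one (by fun_prop) (by fun_prop)
    (by
      intro u hu
      refine ⟨?_, lin_ne (by norm_num) hu⟩
      have := lin_ne hb hu
      intro h0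
      apply this
      linarith)
  simp only [sub_zero, one_mul, zero_mul, add_zero, sub_self, zero_add] at h1 ⊢
  rw [h1]

/-- the torus over the lower circle -/
noncomputable def tor (j : Fin 3) (u v : ℝ) : (V × ℝ) × E 4 :=
  (nk j 0 (1 / 16) (an u), psi (Rv 0 (1 / 16) (Real.cos (an u)) (Real.sin (an u)))
    (Iv 0 (1 / 16) (Real.cos (an u)) (Real.sin (an u))) ⟨Real.sin (an v), -Real.cos (an v)⟩)

theorem tor_ne (v : ℝ) : (⟨Real.sin (an v), -Real.cos (an v)⟩ : ℂ) ≠ 0 := by
  have := ne_of_cs (a := 1) (b := -1) one_ne_zero (by norm_num) (Real.cos_sq_add_sin_sq (an v))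
  simpa only [one_mul, neg_mul] using this

theorem tor_mem (j : Fin 3) (u v : ℝ) : tor j u v ∈ NT :=
  psi_mem (NK_sub j (PQB.nk_mem j _)) (neck_nrm PQB j _)
    (neck_ind PQB (Real.cos_sq_add_sin_sq _)) (tor_ne v)

theorem tor_cont (j : Fin 3) : Continuous fun q : ℝ × ℝ => tor j q.1 q.2 := by
  have ha := an_cont
  refine Continuous.prodMk ?_ ?_
  · exact (nk_cont j).comp (f := fun q : ℝ × ℝ => (((0 : ℝ), (1 / 16 : ℝ)), an q.1)) (by fun_prop)
  · have h : ContinuousOn (fun q : ℝ × ℝ => psi (Rv 0 (1 / 16) (Real.cos (an q.1))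
        (Real.sin (an q.1))) (Iv 0 (1 / 16) (Real.cos (an q.1)) (Real.sin (an q.1)))
        ⟨Real.sin (an q.2), -Real.cos (an q.2)⟩) univ := by
      refine psi_cont.comp (f := fun q : ℝ × ℝ => ((Rv 0 (1 / 16) (Real.cos (an q.1))
        (Real.sin (an q.1)), Iv 0 (1 / 16) (Real.cos (an q.1)) (Real.sin (an q.1))),
        (⟨Real.sin (an q.2), -Real.cos (an q.2)⟩ : ℂ))) ?_ ?_
      · refine (ContinuousOn.prodMk ?_ ?_).prodMk ?_
        · exact (Rv_cont.comp (f := fun q : ℝ × ℝ => (((0 : ℝ), (1 / 16 : ℝ)),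
            (Real.cos (an q.1), Real.sin (an q.1)))) (by fun_prop)).continuousOn
        · exact (Iv_cont.comp (f := fun q : ℝ × ℝ => (((0 : ℝ), (1 / 16 : ℝ)),
            (Real.cos (an q.1), Real.sin (an q.1)))) (by fun_prop)).continuousOn
        · exact mk_cont (by fun_prop) (by fun_prop)
      · rintro ⟨u, v⟩ -
        exact ⟨neck_ind PQB (Real.cos_sq_add_sin_sq _), tor_ne v⟩
    exact continuousOn_univ.1 h

theorem tor_per1 (j : Fin 3) (v : ℝ) : tor j 1 v = tor j 0 v := by
  unfold tor nk h400_pt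
  simp only [an_one.1, an_one.2]

theorem tor_per2 (j : Fin 3) (u v : ℝ) : tor j u (1 + v) = tor j u v := by
  have h : an (1 + v) = an v + 2 * Real.pi := by unfold an; ring
  unfold tor
  rw [h, Real.cos_add_two_pi, Real.sin_add_two_pi]

theorem neck_diff (lam : PF NT A) (j : Fin 3) :
    lam.L (fun t => sec (kaA j t)) 0 1 - lam.L (fun t => sec (kaB j t)) 0 1 =
      -(2 • lam.L (fun v => tor j 0 v) 0 1) := by
  rw [sec_A_eq, sec_B_eq]
  have eB : lp j 0 (1 / 16) (fun v => ⟨1 * Real.sin (an v), (-1) * Real.cos (an v)⟩) an =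
      fun t => tor j t t := by
    funext t
    unfold lp tor
    simp only [one_mul, neg_mul]
  have eA : lp j 0 (1 / 16) (fun v => ⟨(-1) * Real.sin (an v), (-1) * Real.cos (an v)⟩) an =
      fun t => tor j t (-t) := by
    funext t
    have h : an (-t) = -an t := by unfold an; ring
    unfold lp tor
    rw [h, Real.sin_neg, Real.cos_neg]
    simp only [one_mul, neg_mul]
  rw [eA, eB]
  have h1 := lam.L_diag (tor_cont j) (tor_mem j) (tor_per1 j)
  have h2 := lam.L_diag (G := fun u v => tor j u (-v)) ((tor_cont j).comp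
    (f := fun q : ℝ × ℝ => (q.1, -q.2)) (by fun_prop)) (fun u v => tor_mem j u (-v))
    (fun v => tor_per1 j (-v))
  have h3 : lam.L (fun v => tor j 0 (-v)) 0 1 = - lam.L (fun v => tor j 0 v) 0 1 := by
    have h4 := lam.L_affine (fun v => tor j 0 v) 0 (-1) 0 1
    have e4 : (fun t : ℝ => tor j 0 (0 + -1 * t)) = fun v => tor j 0 (-v) := by
      funext t; congr 1; ring
    rw [e4] at h4
    rw [h4]
    have e5 : (0 : ℝ) + -1 * 0 = 0 := by ring
    have e6 : (0 : ℝ) + -1 * 1 = -1 := by ring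
    rw [e5, e6]
    have hc : Continuous fun v => tor j 0 v :=
      (tor_cont j).comp (f := fun v : ℝ => ((0 : ℝ), v)) (by fun_prop)
    have h5 : lam.L (fun v => tor j 0 v) 0 (-1) = - lam.L (fun v => tor j 0 v) (-1) 0 :=
      lam.L_symm (I := univ) ordConnected_univ hc.continuousOn (fun t _ => tor_mem j 0 t)
        (mem_univ _) (mem_univ _)
    have h6 : lam.L (fun v => tor j 0 v) (-1) 0 = lam.L (fun v => tor j 0 v) 0 1 := by
      have h7 := lam.L_affine (fun v => tor j 0 v) 1 1 (-1) 0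
      have e7 : (fun t : ℝ => tor j 0 (1 + 1 * t)) = fun v => tor j 0 v := by
        funext t; rw [one_mul, tor_per2]
      rw [e7] at h7
      rw [h7]
      norm_num
    rw [h5, h6]
  have e8 : (fun u : ℝ => tor j u (-0)) = fun u => tor j u 0 := by
    funext u; rw [neg_zero]
  simp only [e8] at h2
  rw [h1, h2, h3]
  abel

/-- the fibre class at the lower circle is that at the upper circle -/
theorem tor_fib (lam : PF NT A) (j : Fin 3) :
    lam.L (fun v => tor j 0 v) 0 1 = Phi lam (kaA j 0) := by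
  have e : (fun v => tor j 0 v) =
      lp j 0 (1 / 16) (fun v => ⟨1 * Real.sin (an v), (-1) * Real.cos (an v)⟩) (fun _ => an 0) := by
    funext t
    unfold lp tor
    simp only [one_mul, neg_mul]
  rw [e]
  have h2 := lp_htpy lam j (P := pu) (Q := qu) (θ := fun _ => an 0) (a := fun _ => 1)
    (b := fun _ => -1) pu_cont.continuousOn qu_cont (fun u hu => PQu hu) continuous_const
    ⟨rfl, rfl⟩ (by fun_prop) (by fun_prop) (by intro u _; constructor <;> norm_num)
  rw [pu_zero, qu_zero, pu_one, qu_one] at h2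
  rw [← h2]
  -- change of the frame
  have han : an 0 = 0 := by unfold an; ring
  have hk : kaA j 0 = nk j (1 / 16) 0 0 := by rw [kaA_eq, han]
  have hmem : nk j (1 / 16) 0 0 ∈ MO := mem_iUnion.2 ⟨.tA j, nk_tA⟩
  have hf := frm_A j 0
  have e3 : lp j (1 / 16) 0 (fun v => ⟨1 * Real.sin (an v), (-1) * Real.cos (an v)⟩)
      (fun _ => an 0) = fun v => (nk j (1 / 16) 0 0,
        psi (frm (nk j (1 / 16) 0 0)).1 (frm (nk j (1 / 16) 0 0)).2
          ⟨(-1) * Real.sin (an v), 16 * Real.cos (an v)⟩) := by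
    funext v
    unfold lp
    rw [han, hf]
    simp only
    congr 1
    rw [← psi_change (Rv (1 / 16) 0 (Real.cos 0) (Real.sin 0))
      (Iv (1 / 16) 0 (Real.cos 0) (Real.sin 0)) (a := -Real.cos 0) (b := -(16 * b0 * Real.sin 0))
      (c := Real.sin 0 / b0) (d := -(16 * Real.cos 0)) ?_ (1 * Real.sin (an v))
      ((-1) * Real.cos (an v))]
    · congr 1
      simp only [Real.cos_zero, Real.sin_zero]
      apply Complex.ext
      · simp only; ring
      · simp only; ring
    · simp only [Real.cos_zero, Real.sin_zero]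
      norm_num
  rw [e3]
  have h4 := nt_htpy lam (m := fun _ _ => nk j (1 / 16) 0 0)
    (n := fun _ _ => (frm (nk j (1 / 16) 0 0)).1) (n' := fun _ _ => (frm (nk j (1 / 16) 0 0)).2)
    (z := fun u v => ⟨(-1) * Real.sin (an v), ((1 - u) * 16 + u * 1) * Real.cos (an v)⟩)
    continuousOn_const continuousOn_const continuousOn_const
    (by
      have ha := an_cont
      exact mk_cont (X := ℝ × ℝ) (by fun_prop) (by fun_prop))
    (fun u hu v _ => ⟨MO_sub hmem, frm_nrm hmem, frm_ind hmem,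
      ne_of_cs (by norm_num) (by nlinarith [hu.1, hu.2]) (Real.cos_sq_add_sin_sq _)⟩)
    (fun u _ => ⟨rfl, rfl, rfl, by simp only [an_one.1, an_one.2]⟩)
  have h5 := nt_htpy lam (m := fun _ _ => nk j (1 / 16) 0 0)
    (n := fun _ _ => (frm (nk j (1 / 16) 0 0)).1) (n' := fun _ _ => (frm (nk j (1 / 16) 0 0)).2)
    (z := fun u v => cz (v + u / 4))
    continuousOn_const continuousOn_const continuousOn_const
    ((cz_cont.comp (f := fun q : ℝ × ℝ => q.2 + q.1 / 4) (by fun_prop)).continuousOn)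
    (fun u hu v _ => ⟨MO_sub hmem, frm_nrm hmem, frm_ind hmem, cz_ne _⟩)
    (fun u _ => ⟨rfl, rfl, rfl, by
      unfold cz
      have : 2 * Real.pi * (1 + u / 4) = 2 * Real.pi * (0 + u / 4) + 2 * Real.pi := by ring
      rw [this, Real.cos_add_two_pi, Real.sin_add_two_pi]⟩)
  have e6 : (fun v : ℝ => (nk j (1 / 16) 0 0, psi (frm (nk j (1 / 16) 0 0)).1
      (frm (nk j (1 / 16) 0 0)).2 ⟨(-1) * Real.sin (an v),
        ((1 - (1 : ℝ)) * 16 + 1 * 1) * Real.cos (an v)⟩)) =
      fun v => (nk j (1 / 16) 0 0, psi (frm (nk j (1 / 16) 0 0)).1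
      (frm (nk j (1 / 16) 0 0)).2 (cz (v + 1 / 4))) := by
    funext v
    congr 2
    unfold cz an
    have : 2 * Real.pi * (v + 1 / 4) = 2 * Real.pi * v + Real.pi / 2 := by ring
    rw [this, Real.cos_add_pi_div_two, Real.sin_add_pi_div_two]
    apply Complex.ext
    · simp only; ring
    · simp only; ring
  have e7 : (fun v : ℝ => (nk j (1 / 16) 0 0, psi (frm (nk j (1 / 16) 0 0)).1
      (frm (nk j (1 / 16) 0 0)).2 ⟨(-1) * Real.sin (an v),
        ((1 - (0 : ℝ)) * 16 + 0 * 1) * Real.cos (an v)⟩)) =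
      fun v => (nk j (1 / 16) 0 0, psi (frm (nk j (1 / 16) 0 0)).1
      (frm (nk j (1 / 16) 0 0)).2 ⟨(-1) * Real.sin (an v), 16 * Real.cos (an v)⟩) := by
    funext v
    congr 2
    apply Complex.ext
    · rfl
    · simp only; ring
  have e8 : (fun v : ℝ => (nk j (1 / 16) 0 0, psi (frm (nk j (1 / 16) 0 0)).1
      (frm (nk j (1 / 16) 0 0)).2 (cz (v + 0 / 4)))) =
      fl (nk j (1 / 16) 0 0) (frm (nk j (1 / 16) 0 0)).1 (frm (nk j (1 / 16) 0 0)).2 cz := by
    funext v
    unfold fl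
    congr 3
    ring
  simp only [e6, e7] at h4
  simp only [e8] at h5
  unfold Phi
  rw [hk, h5, ← h4]

end

/-! ### the paths between the necks -/

theorem tl_zero : tl 0 = 1 / 2 := by
  unfold tl
  rw [alp_eq_zero_iff.2 (by norm_num), sub_zero, iot_one]
  norm_num

theorem tl_one : tl 1 = 9 / 16 := by
  unfold tl
  rw [(alp_eq_one_iff (x := 1)).2 (by norm_num), sub_self, iot_zero]
  norm_num

theorem tl_cont : ContinuousOn tl (Icc 0 1) := by
  unfold tl
  refine continuousOn_const.add ?_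
  refine iot_continuousOn.comp (f := fun p => 1 - alp p)
    (continuous_const.sub alp_contDiff.continuous).continuousOn fun p hp => ?_
  have h1 := alp_nonneg p
  have h2 := (alp_le_one_iff (x := p)).2 (by rw [abs_le]; constructor <;> linarith [hp.1, hp.2])
  exact ⟨by linarith, by linarith⟩

theorem tl_ge {p : ℝ} (hp : p ∈ Icc (0 : ℝ) 1) : 1 / 2 ≤ tl p := by
  have h1 := alp_nonneg p
  have h2 := (alp_le_one_iff (x := p)).2 (by rw [abs_le]; constructor <;> linarith [hp.1, hp.2])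
  have h3 := (iot_mem (y := 1 - alp p) ⟨by linarith, by linarith⟩).1
  unfold tl
  linarith

theorem up_tube (j : Fin 3) : JoinedIn MO (kaA j 0) (((cc j - 1 / 32, 11 / 32, 1, 0), 0) : V × ℝ) := by
  refine JoinedIn.ofLine (f := fun u => eA j (7 / 32, tl u - 7 / 32, u)) ?_ ?_ ?_ ?_
  · exact (eA_cont j).comp_continuousOn
      (f := fun u : ℝ => ((7 / 32 : ℝ), (tl u - 7 / 32, u)))
      (continuousOn_const.prodMk ((tl_cont.sub continuousOn_const).prodMk continuousOn_id))
  · rw [tl_zero]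
    unfold eA kaA
    rw [lab_pos_y (by norm_num)]
    simp only [mul_zero, Real.cos_zero, Real.sin_zero]
    norm_num
    ring
  · rw [tl_one]
    unfold eA
    rw [lab_pos_y (by norm_num)]
    norm_num
    ring
  · rintro _ ⟨u, hu, rfl⟩
    refine Zn_MO (eA_mem (j := j) ⟨?_, ?_, ?_⟩)
    · show |u| ≤ 1
      rw [abs_le]; constructor <;> linarith [hu.1, hu.2]
    · show mm (7 / 32) + mm (tl u - 7 / 32) = tl u
      have h := tl_ge hu
      rw [mm_eq_self (by norm_num), mm_eq_self (by linarith)]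
      ring
    · rintro ⟨h1, h2⟩
      simp only at h1 h2
      have h3 : tl u = 1 / 2 := by linarith
      rw [h3] at h2
      have h4 : |(1 / 16 : ℝ)| ≤ Real.sqrt ((1 / 2 - 7 / 32 - 7 / 32) ^ 2 + u ^ 2) :=
        Real.abs_le_sqrt (by nlinarith [sq_nonneg u])
      rw [abs_of_pos (by norm_num : (0 : ℝ) < 1 / 16)] at h4
      linarith

theorem sq_path (j : Fin 3) : JoinedIn MO (((cc j - 1 / 32, 11 / 32, 1, 0), 0) : V × ℝ)
    (((cc j - 1 / 32, 1, 1, 0), 0) : V × ℝ) := by
  refine JoinedIn.ofLine (f := fun u : ℝ => (((cc j - 1 / 32, 11 / 32 + u * (21 / 32), 1, 0), 0)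
    : V × ℝ)) (by fun_prop) (by norm_num) (by norm_num) ?_
  rintro _ ⟨u, hu, rfl⟩
  refine Zn_MO (sqA_mem (w := (cc j - 1 / 32, 11 / 32 + u * (21 / 32))) ⟨?_, ?_, fun i => ?_⟩
    (Or.inl rfl))
  · simp only
    rcases cc_vals j with h | h | h <;> rw [h, abs_le] <;> constructor <;> norm_num
  · simp only
    rw [abs_le]; constructor <;> nlinarith [hu.1, hu.2]
  · simp only
    have h1 : mm (11 / 32 + u * (21 / 32)) = 11 / 32 + u * (21 / 32) :=
      mm_eq_self (by nlinarith [hu.1])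
    rw [h1]
    by_cases hij : i = j
    · subst hij
      have e : cc i - 1 / 32 - (cc i + -(1 / 4)) = 7 / 32 := by ring
      rw [e, mm_eq_self (by norm_num)]
      nlinarith [hu.1]
    · have h2 := cc_dist (Ne.symm hij)
      have h3 := abs_le_mm (cc j - 1 / 32 - (cc i + -(1 / 4)))
      have h4 : |cc j - cc i| - |(7 / 32 : ℝ)| ≤ |cc j - 1 / 32 - (cc i + -(1 / 4))| := by
        have := abs_sub_abs_le_abs_sub (cc j - cc i) (-(7 / 32))
        rw [abs_neg] at this
        have e : cc j - 1 / 32 - (cc i + -(1 / 4)) = cc j - cc i - -(7 / 32) := by ring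
        rw [e]
        exact this
      rw [abs_of_pos (by norm_num : (0 : ℝ) < 7 / 32)] at h4
      nlinarith [hu.1]

theorem sq_path' (i j : Fin 3) : JoinedIn MO (((cc i - 1 / 32, 1, 1, 0), 0) : V × ℝ)
    (((cc j - 1 / 32, 1, 1, 0), 0) : V × ℝ) := by
  refine JoinedIn.ofLine (f := fun u : ℝ => ((((1 - u) * (cc i - 1 / 32) + u * (cc j - 1 / 32),
    1, 1, 0), 0) : V × ℝ)) (by fun_prop) (by norm_num) (by norm_num) ?_
  rintro _ ⟨u, hu, rfl⟩
  refine Zn_MO (sqA_mem (w := ((1 - u) * (cc i - 1 / 32) + u * (cc j - 1 / 32), 1))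
    ⟨?_, ?_, fun k => ?_⟩ (Or.inl rfl))
  · simp only
    have h0 := hu.1
    have h1 := hu.2
    rcases cc_vals i with h | h | h <;> rcases cc_vals j with h' | h' | h' <;>
      rw [h, h', abs_le] <;> constructor <;> nlinarith
  · norm_num
  · simp only
    have h1 : mm 1 = 1 := mm_eq_self (by norm_num)
    have h2 := abs_le_mm ((1 - u) * (cc i - 1 / 32) + u * (cc j - 1 / 32) - (cc k + -(1 / 4)))
    have h3 := abs_nonneg ((1 - u) * (cc i - 1 / 32) + u * (cc j - 1 / 32) - (cc k + -(1 / 4)))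
    rw [h1]
    linarith

theorem kaA_joined (i j : Fin 3) : JoinedIn MO (kaA i 0) (kaA j 0) :=
  ((up_tube i).trans (sq_path i)).trans ((sq_path' i j).trans ((up_tube j).trans (sq_path j)).symm)

/-- six times the fibre class is zero -/
theorem six_phi {A : Type} [AddCommGroup A] (lam : PF NT A) : 6 • Phi lam (kaA 0 0) = 0 := by
  have h := residue (lam.comap sec sec_cont fun m hm => sec_mem hm)
  have h1 : ∀ j : Fin 3, (lam.comap sec sec_cont fun m hm => sec_mem hm).L (kaA j) 0 1 -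
      (lam.comap sec sec_cont fun m hm => sec_mem hm).L (kaB j) 0 1 =
      -(2 • Phi lam (kaA 0 0)) := by
    intro j
    rw [← Phi_joined lam (kaA_joined j 0), ← tor_fib, ← neck_diff]
    rfl
  rw [Finset.sum_congr rfl fun j _ => h1 j, Finset.sum_const, Finset.card_univ, Fintype.card_fin,
    smul_neg, neg_eq_zero, smul_smul] at h
  exact h

end Pool.Agent.TH619
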