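import Pool.Agent.TH619.Ovl
import Pool.Agent.TH429.J286
import Pool.Agent.TH429.J287

/-! The class mod 6 on the unit normal bundle. -/

set_option autoImplicit false

namespace Pool.Agent.TH619

open Set Topology Filter
open scoped InnerProductSpace Manifold ContDiff
open Pool.Agent.Helper874.Odd
open Pool.Agent.Helper775.Tight (Sing sface)

theorem co_psi {n n' : V} (h : Ind n n') {z : ℂ} (hz : z ≠ 0) :
    0 < gd n n' * ‖toE (wv n n' z)‖⁻¹ ∧
    co n n' (psi n n' z) = ((gd n n' * ‖toE (wv n n' z)‖⁻¹ : ℝ) : ℂ) * z := by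
  have hw := norm_pos_iff.2 (toE_ne (wv_ne h hz))
  have hg := gd_pos h
  refine ⟨by positivity, ?_⟩
  unfold co psi
  rw [inner_smul_right, inner_smul_right, inner_toE, inner_toE, hh_wv_left, hh_wv_right]
  apply Complex.ext
  · simp only [Complex.re_ofReal_mul]
    ring
  · simp only [Complex.im_ofReal_mul]
    ring

theorem round_shift (x : ℝ) : round (x - 1) = round x - 1 := by
  have := round_sub_intCast x 1
  rwa [Int.cast_one] at this

/-- potentials on the fibres -/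
theorem fibre_pot {t : NT → NT → ZMod 6} {O : Set NT} {u : NT → ℂ} {α : NT → ZMod 6}
    (h : CohOn O t (tt u) α) {m : V × ℝ} {n n' : V} (hi : Ind n n') {k : ℂ} (hk : k ≠ 0)
    (σ : Sing NT 1) (hσ : ∀ s : stdSimplex ℝ (Fin 2), (σ s : (V × ℝ) × E 4) =
      (m, psi n n' (Complex.exp (2 * Real.pi * ((s.1 1 : ℝ) : ℂ) * Complex.I))))
    (hO : range σ ⊆ O)
    (hu : ∀ s, u (σ s) = co n n' (σ s).1.2 * k) :
    ∃ g : stdSimplex ℝ (Fin 2) → ZMod 6, Pot t σ g ∧
      (g (stdSimplex.vertex 1) - g (stdSimplex.vertex 0) = 1 ∨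
        g (stdSimplex.vertex 1) - g (stdSimplex.vertex 0) = -1) := by
  have hpi := Real.pi_pos
  set z : stdSimplex ℝ (Fin 2) → ℂ :=
    fun s => Complex.exp (2 * Real.pi * ((s.1 1 : ℝ) : ℂ) * Complex.I) with hzdef
  have hs1 : Continuous fun s : stdSimplex ℝ (Fin 2) => (s.1 1 : ℝ) :=
    (continuous_apply 1).comp continuous_subtype_val
  have hs1' : Continuous fun s : stdSimplex ℝ (Fin 2) => ((s.1 1 : ℝ) : ℂ) :=
    Complex.continuous_ofReal.comp hs1
  have hzc : Continuous z :=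
    Complex.continuous_exp.comp ((continuous_const.mul hs1').mul continuous_const)
  have hz : ∀ s, z s ≠ 0 := fun s => Complex.exp_ne_zero _
  have hrc : Continuous fun s => gd n n' * ‖toE (wv n n' (z s))‖⁻¹ := by
    refine continuous_const.mul (Continuous.inv₀ (Continuous.norm (toE.continuous.comp ?_)) ?_)
    · unfold wv
      have h1 : Continuous fun s => (z s).re := Complex.continuous_re.comp hzc
      have h2 : Continuous fun s => (z s).im := Complex.continuous_im.comp hzc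
      fun_prop
    · intro s
      exact norm_ne_zero_iff.2 (toE_ne (wv_ne hi (hz s)))
  have hpos : ∀ s, 0 < gd n n' * ‖toE (wv n n' (z s))‖⁻¹ := fun s => (co_psi hi (hz s)).1
  set F : stdSimplex ℝ (Fin 2) → ℂ := fun s =>
    ((Real.log (gd n n' * ‖toE (wv n n' (z s))‖⁻¹) : ℝ) : ℂ) +
      2 * Real.pi * ((s.1 1 : ℝ) : ℂ) * Complex.I + Complex.log k with hF
  have hFc : Continuous F := by
    have h1 : Continuous fun s => ((Real.log (gd n n' * ‖toE (wv n n' (z s))‖⁻¹) : ℝ) : ℂ) :=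
      Complex.continuous_ofReal.comp (hrc.log fun s => (hpos s).ne')
    exact (h1.add ((continuous_const.mul hs1').mul continuous_const)).add continuous_const
  have huF : ∀ s, u (σ s) = Complex.exp (F s) := by
    intro s
    rw [hu s, hσ s]
    show co n n' (psi n n' (z s)) * k = _
    rw [(co_psi hi (hz s)).2, hF]
    simp only
    rw [Complex.exp_add, Complex.exp_add, Complex.exp_log hk, ← Complex.ofReal_exp,
      Real.exp_log (hpos s)]
  have hp := pot_of_log h σ hO F hFc huF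
  refine ⟨_, hp, Or.inr ?_⟩
  have v1 : (Pi.single (1 : Fin 2) (1 : ℝ) : Fin 2 → ℝ) 1 = 1 := by simp
  have v0 : (Pi.single (0 : Fin 2) (1 : ℝ) : Fin 2 → ℝ) 1 = 0 := by simp
  have z1 : z (stdSimplex.vertex 1) = 1 := by
    rw [hzdef]
    simp only
    rw [v1, Complex.ofReal_one, mul_one, Complex.exp_two_pi_mul_I]
  have z0 : z (stdSimplex.vertex 0) = 1 := by
    rw [hzdef]
    simp only
    rw [v0, Complex.ofReal_zero, mul_zero, zero_mul, Complex.exp_zero]
  have hσ01 : σ (stdSimplex.vertex 1) = σ (stdSimplex.vertex 0) := by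
    apply Subtype.ext
    rw [hσ, hσ]
    show (m, psi n n' (z (stdSimplex.vertex 1))) = (m, psi n n' (z (stdSimplex.vertex 0)))
    rw [z1, z0]
  have hF1 : (F (stdSimplex.vertex 1)).im = (F (stdSimplex.vertex 0)).im + 2 * Real.pi := by
    rw [hF]
    simp only
    rw [v1, v0, z1, z0]
    simp
    ring
  have e1 : (Complex.arg (u (σ (stdSimplex.vertex 1))) - (F (stdSimplex.vertex 1)).im) /
      (2 * Real.pi) = (Complex.arg (u (σ (stdSimplex.vertex 0))) -
        (F (stdSimplex.vertex 0)).im) / (2 * Real.pi) - 1 := by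
    rw [hF1, hσ01]
    field_simp
    ring
  rw [e1, round_shift, hσ01]
  push_cast
  ring

/-- the class mod 6 on the unit normal bundle -/
theorem exists_theta (hco : ∀ q ∈ NT, ∀ n n' : V, Nrm q.1 n n' → Ind n n' → co n n' q.2 ≠ 0) :
    ∃ t : NT → NT → ZMod 6, LC t ∧ ∀ m ∈ MT, ∃ n n' : V, Nrm m n n' ∧ Ind n n' ∧
      (m ∈ MO → (n, n') = frm m) ∧
      ∀ σ : Sing NT 1, (∀ s : stdSimplex ℝ (Fin 2),
          (σ s : (V × ℝ) × E 4) =
            (m, psi n n' (Complex.exp (2 * Real.pi * ((s.1 1 : ℝ) : ℂ) * Complex.I)))) →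
        ∃ g : stdSimplex ℝ (Fin 2) → ZMod 6, Pot t σ g ∧
          (g (stdSimplex.vertex 1) - g (stdSimplex.vertex 0) = 1 ∨
            g (stdSimplex.vertex 1) - g (stdSimplex.vertex 0) = -1) := by
  obtain ⟨g, h, hg, hh', hgh⟩ := overlap hco
  have hfst : Continuous fun q : NT => q.1.1 := continuous_fst.comp continuous_subtype_val
  have hsnd : Continuous fun q : NT => q.1.2 := continuous_snd.comp continuous_subtype_val
  have hO1 : IsOpen {q : NT | q.1.1 ∉ K2} := (K2_closed.preimage hfst).isOpen_compl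
  have hO2 : IsOpen {q : NT | q.1.1 ∉ K1} := (K1_closed.preimage hfst).isOpen_compl
  have hU : {q : NT | q.1.1 ∉ K2} ∪ {q : NT | q.1.1 ∉ K1} = univ := by
    ext q
    simp only [mem_union, mem_ofPred_eq, mem_univ, iff_true]
    by_cases hq : q.1.1 ∈ K1
    · exact Or.inl (K12 hq)
    · exact Or.inr hq
  have cC : ContinuousOn (fun q : NT => frC q.1.1) {q : NT | q.1.1 ∉ K2} :=
    frC_cont.comp hfst.continuousOn fun q hq => ⟨q.2.1, hq⟩
  have cD : ContinuousOn (fun q : NT => frD q.1.1) {q : NT | q.1.1 ∉ K1} :=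
    frD_cont.comp hfst.continuousOn fun q hq => ⟨q.2.1, hq⟩
  have hvc : Continuous fun q : NT => (∏ j, vz j q.1.1.1) ^ 2 := by
    refine (continuous_finsetProd _ fun j _ => ?_).pow 2
    exact (vz_cont j).comp (continuous_fst.comp hfst)
  have hvn : ∀ q : NT, q.1.1 ∉ K2 → (∏ j, vz j q.1.1.1) ^ 2 ≠ 0 := fun q hq =>
    pow_ne_zero _ (Finset.prod_ne_zero_iff.2 fun j _ => vz_ne q.2.1 hq j)
  obtain ⟨t, α₁, α₂, ht, h1, h2⟩ := exists_glue (X := NT) hO1 hO2 hU
    (u₁ := fun q => co (frC q.1.1).1 (frC q.1.1).2 q.1.2 / (∏ j, vz j q.1.1.1) ^ 2)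
    (u₂ := fun q => co (frD q.1.1).1 (frD q.1.1).2 q.1.2)
    (g := fun q => g q.1) (h := fun q => h q.1)
    ((co_cont (continuous_fst.comp_continuousOn cC) (continuous_snd.comp_continuousOn cC)
      hsnd.continuousOn).div hvc.continuousOn fun q hq => hvn q hq)
    (co_cont (continuous_fst.comp_continuousOn cD) (continuous_snd.comp_continuousOn cD)
      hsnd.continuousOn)
    (fun q hq => div_ne_zero (hco q.1 q.2 _ _ (frC_nrm q.2.1 hq).1 (frC_nrm q.2.1 hq).2)
      (hvn q hq))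
    (fun q hq => hco q.1 q.2 _ _ (frD_nrm q.2.1 hq).1 (frD_nrm q.2.1 hq).2)
    (hg.comp continuous_subtype_val.continuousOn fun q hq => ⟨q.2, hq.2, hq.1⟩)
    (hh'.comp continuous_subtype_val.continuousOn fun q hq => ⟨q.2, hq.2, hq.1⟩)
    (fun q hq => (hgh q.1 q.2 hq.2 hq.1).1) (fun q hq => (hgh q.1 q.2 hq.2 hq.1).2)
  refine ⟨t, ht, fun m hm => ?_⟩
  by_cases hK : m ∈ K2
  · have hK1 : m ∉ K1 := fun h => K12 h hK
    obtain ⟨hn, hi⟩ := frD_nrm hm hK1
    refine ⟨(frD m).1, (frD m).2, hn, hi, fun hO => by rw [frD_MO hO], fun σ hσ => ?_⟩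
    refine fibre_pot h2 hi one_ne_zero σ hσ ?_ ?_
    · rintro _ ⟨s, rfl⟩
      show (σ s).1.1 ∉ K1
      rw [hσ s]
      exact hK1
    · intro s
      have e : (σ s).1.1 = m := by rw [hσ s]
      rw [e, mul_one]
  · obtain ⟨hn, hi⟩ := frC_nrm hm hK
    have hvm : (∏ j, vz j m.1) ^ 2 ≠ 0 :=
      pow_ne_zero _ (Finset.prod_ne_zero_iff.2 fun j _ => vz_ne hm hK j)
    refine ⟨(frC m).1, (frC m).2, hn, hi, fun hO => by rw [frC_MO hO], fun σ hσ => ?_⟩
    refine fibre_pot h1 hi (inv_ne_zero hvm) σ hσ ?_ ?_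
    · rintro _ ⟨s, rfl⟩
      show (σ s).1.1 ∉ K2
      rw [hσ s]
      exact hK
    · intro s
      have e : (σ s).1.1 = m := by rw [hσ s]
      rw [e, div_eq_mul_inv]

end Pool.Agent.TH619
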