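import Mathlib

/-! Path functionals: functions on paths in a set, with values in an abelian group, which vanish on
constant paths and satisfy the rectangle rule. -/

set_option autoImplicit false

namespace Pool.Agent.TH619

open Set Topology

/-- a path functional on the paths in `S`; paths are maps `ℝ → X` looked at on `[0,1]` -/
structure PF {X : Type} [TopologicalSpace X] (S : Set X) (A : Type) [AddCommGroup A] where
  /-- the value on a path -/
  val : (ℝ → X) → A
  congr' : ∀ g h : ℝ → X, (∀ t ∈ Icc (0 : ℝ) 1, g t = h t) → val g = val h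
  const' : ∀ x ∈ S, val (fun _ => x) = 0
  rect' : ∀ R : ℝ → ℝ → X,
    ContinuousOn (fun q : ℝ × ℝ => R q.1 q.2) (Icc (0 : ℝ) 1 ×ˢ Icc (0 : ℝ) 1) →
    (∀ u ∈ Icc (0 : ℝ) 1, ∀ v ∈ Icc (0 : ℝ) 1, R u v ∈ S) →
    val (fun t => R t 0) + val (fun t => R 1 t) = val (fun t => R 0 t) + val (fun t => R t 1)

namespace PF

variable {X : Type} [TopologicalSpace X] {S : Set X} {A : Type} [AddCommGroup A] (μ : PF S A)

/-- the value on the path `g` restricted to `[a, b]` (run backwards if `b < a`) -/
def L (g : ℝ → X) (a b : ℝ) : A := μ.val (fun t => g (a + (b - a) * t))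

theorem L_congr {g h : ℝ → X} {a b : ℝ} (e : ∀ t ∈ uIcc a b, g t = h t) : μ.L g a b = μ.L h a b := by
  refine μ.congr' _ _ fun t ht => e _ ?_
  rw [mem_uIcc]
  rcases le_total a b with hab | hab
  · left; constructor <;> nlinarith [ht.1, ht.2]
  · right; constructor <;> nlinarith [ht.1, ht.2]

theorem L_self {g : ℝ → X} {a : ℝ} (h : g a ∈ S) : μ.L g a a = 0 := by
  have : (fun t : ℝ => g (a + (a - a) * t)) = fun _ => g a := by
    funext t; simp
  unfold L
  rw [this]
  exact μ.const' _ h

/-- affine change of parameter -/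
theorem L_affine (g : ℝ → X) (c d a b : ℝ) :
    μ.L (fun t => g (c + d * t)) a b = μ.L g (c + d * a) (c + d * b) := by
  refine μ.congr' _ _ fun t _ => ?_
  show g (c + d * (a + (b - a) * t)) = g (c + d * a + (c + d * b - (c + d * a)) * t)
  congr 1
  ring

theorem L_add {g : ℝ → X} {a b c : ℝ} {I : Set ℝ} (hI : I.OrdConnected) (hg : ContinuousOn g I)
    (hS : ∀ t ∈ I, g t ∈ S) (ha : a ∈ I) (hb : b ∈ I) (hc : c ∈ I) :
    μ.L g a b + μ.L g b c = μ.L g a c := by
  have hconv : Convex ℝ I := hI.convex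
  have hmem : ∀ u ∈ Icc (0 : ℝ) 1, ∀ v ∈ Icc (0 : ℝ) 1,
      (1 - v) * (a + (b - a) * u) + v * (a + (c - a) * u) + v * u * 0 + (0 : ℝ) ∈ I := by
    intro u hu v hv
    have h1 : a + (b - a) * u ∈ I := by
      have := hconv ha hb (sub_nonneg.2 hu.2) hu.1 (by ring)
      simp only [smul_eq_mul] at this
      convert this using 1
      ring
    have h2 : a + (c - a) * u ∈ I := by
      have := hconv ha hc (sub_nonneg.2 hu.2) hu.1 (by ring)
      simp only [smul_eq_mul] at this
      convert this using 1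
      ring
    have := hconv h1 h2 (sub_nonneg.2 hv.2) hv.1 (by ring)
    simp only [smul_eq_mul] at this
    convert this using 1
    ring
  have hmem' : ∀ u ∈ Icc (0 : ℝ) 1, ∀ v ∈ Icc (0 : ℝ) 1,
      (1 - v) * (a + (b - a) * u) + v * (a + (c - a) * u) ∈ I := by
    intro u hu v hv
    have := hmem u hu v hv
    convert this using 1
    ring
  have h := μ.rect' (fun u v => g ((1 - v) * (a + (b - a) * u) + v * (a + (c - a) * u)))
    (by
      refine hg.comp (f := fun q : ℝ × ℝ => (1 - q.2) * (a + (b - a) * q.1) + q.2 * (a + (c - a) * q.1))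
        (by fun_prop) ?_
      rintro ⟨u, v⟩ ⟨hu, hv⟩
      exact hmem' u hu v hv)
    (fun u hu v hv => hS _ (hmem' u hu v hv))
  have e1 : (fun t : ℝ => g ((1 - (0 : ℝ)) * (a + (b - a) * t) + 0 * (a + (c - a) * t))) =
      fun t => g (a + (b - a) * t) := by funext t; congr 1; ring
  have e2 : (fun t : ℝ => g ((1 - t) * (a + (b - a) * 1) + t * (a + (c - a) * 1))) =
      fun t => g (b + (c - b) * t) := by funext t; congr 1; ring
  have e3 : (fun t : ℝ => g ((1 - t) * (a + (b - a) * 0) + t * (a + (c - a) * 0))) =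
      fun _ => g a := by funext t; congr 1; ring
  have e4 : (fun t : ℝ => g ((1 - (1 : ℝ)) * (a + (b - a) * t) + 1 * (a + (c - a) * t))) =
      fun t => g (a + (c - a) * t) := by funext t; congr 1; ring
  simp only [e1, e2, e3, e4] at h
  rw [μ.const' _ (hS a ha), zero_add] at h
  exact h

theorem L_symm {g : ℝ → X} {a b : ℝ} {I : Set ℝ} (hI : I.OrdConnected) (hg : ContinuousOn g I)
    (hS : ∀ t ∈ I, g t ∈ S) (ha : a ∈ I) (hb : b ∈ I) : μ.L g b a = - μ.L g a b := by
  have h := μ.L_add hI hg hS ha hb ha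
  rw [μ.L_self (hS a ha)] at h
  exact (neg_eq_of_add_eq_zero_right h).symm

/-- the rectangle rule on a general rectangle -/
theorem L_rect {G : ℝ → ℝ → X} {a b c d : ℝ} {I J : Set ℝ} (hI : I.OrdConnected)
    (hJ : J.OrdConnected) (hG : ContinuousOn (fun q : ℝ × ℝ => G q.1 q.2) (I ×ˢ J))
    (hS : ∀ u ∈ I, ∀ v ∈ J, G u v ∈ S) (ha : a ∈ I) (hb : b ∈ I) (hc : c ∈ J) (hd : d ∈ J) :
    μ.L (fun u => G u c) a b + μ.L (fun v => G b v) c d =
      μ.L (fun v => G a v) c d + μ.L (fun u => G u d) a b := by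
  have hmemI : ∀ u ∈ Icc (0 : ℝ) 1, a + (b - a) * u ∈ I := by
    intro u hu
    have := hI.convex ha hb (sub_nonneg.2 hu.2) hu.1 (by ring)
    simp only [smul_eq_mul] at this
    convert this using 1
    ring
  have hmemJ : ∀ u ∈ Icc (0 : ℝ) 1, c + (d - c) * u ∈ J := by
    intro u hu
    have := hJ.convex hc hd (sub_nonneg.2 hu.2) hu.1 (by ring)
    simp only [smul_eq_mul] at this
    convert this using 1
    ring
  have h := μ.rect' (fun u v => G (a + (b - a) * u) (c + (d - c) * v))
    (by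
      refine hG.comp (f := fun q : ℝ × ℝ => (a + (b - a) * q.1, c + (d - c) * q.2))
        (by fun_prop) ?_
      rintro ⟨u, v⟩ ⟨hu, hv⟩
      exact ⟨hmemI u hu, hmemJ v hv⟩)
    (fun u hu v hv => hS _ (hmemI u hu) _ (hmemJ v hv))
  have e1 : c + (d - c) * 0 = c := by ring
  have e2 : a + (b - a) * 1 = b := by ring
  have e3 : a + (b - a) * 0 = a := by ring
  have e4 : c + (d - c) * 1 = d := by ring
  simp only [e1, e2, e3, e4] at h
  exact h

/-- pulling back along a continuous map -/
def comap {Y : Type} [TopologicalSpace Y] {T : Set Y} (f : Y → X) (hf : ContinuousOn f T)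
    (hT : MapsTo f T S) : PF T A where
  val g := μ.val (fun t => f (g t))
  congr' g h e := μ.congr' _ _ fun t ht => by rw [e t ht]
  const' x hx := μ.const' _ (hT hx)
  rect' R hR hm := μ.rect' (fun u v => f (R u v))
    (hf.comp hR (fun q hq => hm _ hq.1 _ hq.2)) (fun u hu v hv => hT (hm u hu v hv))

end PF

end Pool.Agent.TH619
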