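import Pool.Agent.TH619.SingZ
import Pool.Agent.TH619.PF
import Pool.Agent.TH429.J286

/-! Path functionals from integral singular chains; torsion. -/

set_option autoImplicit false

namespace Pool.Agent.TH619

open Set Topology
open Pool.Agent.Helper775.Tight (Sing sface bdry)

theorem neg_one_two (k : ℕ) : (-1 : ZMod 2) ^ k = 1 := by
  have : (-1 : ZMod 2) = 1 := by decide
  rw [this, one_pow]

theorem sbd_two (X : Type) [TopologicalSpace X] (n : ℕ) : sbd (ZMod 2) X n = bdry X n := by
  unfold sbd bdry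
  congr 1
  funext σ
  exact Finset.sum_congr rfl fun i _ => by rw [neg_one_two]

/-- with coefficients in `ZMod 2` the signed boundary is the boundary of Helper775, so that the two
notions of injectivity agree -/
theorem sInj_two {X : Type} [TopologicalSpace X] {A : Set X}
    (h : Pool.Agent.Helper775.Tight.HomologyInjective A) : SInj (ZMod 2) A := by
  intro n c h1 h2 h3
  have h2' : Pool.Agent.Helper775.Tight.IsCycle n c := by
    cases n with
    | zero => trivial
    | succ n =>
      show bdry X n c = 0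
      rw [← sbd_two]
      exact h2
  rw [sbd_two] at h3 ⊢
  exact h n c h1 h2' h3

section

variable {X : Type} [TopologicalSpace X]

/-- the 1-chains modulo boundaries -/
abbrev QQ (X : Type) [TopologicalSpace X] : Type :=
  (Sing X 1 →₀ ℤ) ⧸ LinearMap.range (sbd ℤ X 1)

/-- the class of a simplex -/
noncomputable def cl (σ : Sing X 1) : QQ X := Submodule.Quotient.mk (Finsupp.single σ 1)

theorem coord_mem {n : ℕ} (s : stdSimplex ℝ (Fin n)) (i : Fin n) : s.1 i ∈ Icc (0 : ℝ) 1 :=
  ⟨s.2.1 i, stdSimplex.le_one s i⟩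

theorem coord_cont {n : ℕ} (i : Fin n) : Continuous fun s : stdSimplex ℝ (Fin n) => (s.1 i : ℝ) :=
  (continuous_apply i).comp continuous_subtype_val

/-- the singular simplex of a path -/
def seg (g : ℝ → X) (hg : ContinuousOn g (Icc 0 1)) : Sing X 1 :=
  ⟨fun s => g (s.1 1), hg.comp_continuous (coord_cont 1) fun s => coord_mem s 1⟩

theorem cl_face (τ : Sing X 2) : cl (sface 1 0 τ) - cl (sface 1 1 τ) + cl (sface 1 2 τ) = 0 := by
  have h : sbd ℤ X 1 (Finsupp.single τ 1) = Finsupp.single (sface 1 0 τ) 1 -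
      Finsupp.single (sface 1 1 τ) 1 + Finsupp.single (sface 1 2 τ) 1 := by
    unfold sbd
    rw [Finsupp.linearCombination_single, one_smul, Fin.sum_univ_three]
    simp only [Fin.val_zero, pow_zero, Fin.val_one, pow_one, Fin.val_two]
    rw [show ((-1 : ℤ)) ^ 2 = 1 by norm_num, Finsupp.single_neg]
    abel
  unfold cl
  rw [← Submodule.Quotient.mk_sub, ← Submodule.Quotient.mk_add, ← h,
    Submodule.Quotient.mk_eq_zero]
  exact ⟨_, rfl⟩

theorem sum3 (s : stdSimplex ℝ (Fin 3)) : s.1 1 + s.1 2 ∈ Icc (0 : ℝ) 1 := by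
  have h := s.2.2
  rw [Fin.sum_univ_three] at h
  have h0 := s.2.1 0
  have h1 := s.2.1 1
  have h2 := s.2.1 2
  constructor <;> linarith

theorem sum2 (s : stdSimplex ℝ (Fin 2)) : s.1 0 + s.1 1 = 1 := by
  have h := s.2.2
  rwa [Fin.sum_univ_two] at h

theorem face_coord (i : Fin 3) (k : Fin 3) (s : stdSimplex ℝ (Fin 2)) :
    (stdSimplex.map i.succAbove s).1 k =
      (if i.succAbove 0 = k then s.1 0 else 0) + (if i.succAbove 1 = k then s.1 1 else 0) := by
  show FunOnFinite.linearMap ℝ ℝ i.succAbove s.1 k = _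
  rw [FunOnFinite.linearMap_apply_apply, Finset.sum_filter, Fin.sum_univ_two]

/-- the two triangles of a square -/
theorem cl_square {R : ℝ → ℝ → X}
    (hR : ContinuousOn (fun q : ℝ × ℝ => R q.1 q.2) (Icc (0 : ℝ) 1 ×ˢ Icc (0 : ℝ) 1))
    (h0 : ContinuousOn (fun t => R t 0) (Icc 0 1)) (h1 : ContinuousOn (fun t => R 1 t) (Icc 0 1))
    (h2 : ContinuousOn (fun t => R 0 t) (Icc 0 1)) (h3 : ContinuousOn (fun t => R t 1) (Icc 0 1)) :
    cl (seg _ h0) + cl (seg _ h1) = cl (seg _ h2) + cl (seg _ h3) := by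
  have hd : ContinuousOn (fun t => R t t) (Icc (0 : ℝ) 1) :=
    hR.comp (f := fun t : ℝ => (t, t)) (by fun_prop) fun t ht => ⟨ht, ht⟩
  let τ₁ : Sing X 2 := ⟨fun s => R (s.1 1 + s.1 2) (s.1 2),
    hR.comp_continuous (((coord_cont 1).add (coord_cont 2)).prodMk (coord_cont 2))
      fun s => ⟨sum3 s, coord_mem s 2⟩⟩
  let τ₂ : Sing X 2 := ⟨fun s => R (s.1 2) (s.1 1 + s.1 2),
    hR.comp_continuous ((coord_cont 2).prodMk ((coord_cont 1).add (coord_cont 2)))
      fun s => ⟨coord_mem s 2, sum3 s⟩⟩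
  have k1 := cl_face τ₁
  have k2 := cl_face τ₂
  have e10 : sface 1 0 τ₁ = seg _ h1 := by
    ext s
    show R ((stdSimplex.map (Fin.succAbove 0) s).1 1 + (stdSimplex.map (Fin.succAbove 0) s).1 2)
      ((stdSimplex.map (Fin.succAbove 0) s).1 2) = R 1 (s.1 1)
    rw [face_coord, face_coord]
    have := sum2 s
    simp [Fin.succAbove]
    rw [this]
  have e11 : sface 1 1 τ₁ = seg _ hd := by
    ext s
    show R ((stdSimplex.map (Fin.succAbove 1) s).1 1 + (stdSimplex.map (Fin.succAbove 1) s).1 2)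
      ((stdSimplex.map (Fin.succAbove 1) s).1 2) = R (s.1 1) (s.1 1)
    rw [face_coord, face_coord]
    simp [Fin.succAbove]
  have e12 : sface 1 2 τ₁ = seg _ h0 := by
    ext s
    show R ((stdSimplex.map (Fin.succAbove 2) s).1 1 + (stdSimplex.map (Fin.succAbove 2) s).1 2)
      ((stdSimplex.map (Fin.succAbove 2) s).1 2) = R (s.1 1) 0
    rw [face_coord, face_coord]
    simp [Fin.succAbove]
  have e20 : sface 1 0 τ₂ = seg _ h3 := by
    ext s
    show R ((stdSimplex.map (Fin.succAbove 0) s).1 2)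
      ((stdSimplex.map (Fin.succAbove 0) s).1 1 + (stdSimplex.map (Fin.succAbove 0) s).1 2) =
        R (s.1 1) 1
    rw [face_coord, face_coord]
    have := sum2 s
    simp [Fin.succAbove]
    rw [this]
  have e21 : sface 1 1 τ₂ = seg _ hd := by
    ext s
    show R ((stdSimplex.map (Fin.succAbove 1) s).1 2)
      ((stdSimplex.map (Fin.succAbove 1) s).1 1 + (stdSimplex.map (Fin.succAbove 1) s).1 2) =
        R (s.1 1) (s.1 1)
    rw [face_coord, face_coord]
    simp [Fin.succAbove]
  have e22 : sface 1 2 τ₂ = seg _ h2 := by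
    ext s
    show R ((stdSimplex.map (Fin.succAbove 2) s).1 2)
      ((stdSimplex.map (Fin.succAbove 2) s).1 1 + (stdSimplex.map (Fin.succAbove 2) s).1 2) =
        R 0 (s.1 1)
    rw [face_coord, face_coord]
    simp [Fin.succAbove]
  rw [e10, e11, e12] at k1
  rw [e20, e21, e22] at k2
  have k3 : cl (seg _ h0) + cl (seg _ h1) = cl (seg _ hd) := by
    rw [← sub_eq_zero, ← k1]; abel
  have k4 : cl (seg _ h2) + cl (seg _ h3) = cl (seg _ hd) := by
    rw [← sub_eq_zero, ← k2]; abel
  rw [k3, k4]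

open Classical in
/-- the path functional of the 1-chains modulo boundaries -/
noncomputable def pfZ (X : Type) [TopologicalSpace X] : PF (univ : Set X) (QQ X) where
  val g := if hg : ContinuousOn g (Icc 0 1) then cl (seg g hg) else 0
  congr' g h e := by
    have hc : ContinuousOn g (Icc 0 1) ↔ ContinuousOn h (Icc 0 1) :=
      ⟨fun k => k.congr fun t ht => (e t ht).symm, fun k => k.congr fun t ht => e t ht⟩
    by_cases hg : ContinuousOn g (Icc 0 1)
    · rw [dif_pos hg, dif_pos (hc.1 hg)]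
      congr 1
      ext s
      exact e _ (coord_mem s 1)
    · rw [dif_neg hg, dif_neg fun k => hg (hc.2 k)]
  const' x _ := by
    rw [dif_pos continuousOn_const]
    let τ : Sing X 2 := ⟨fun _ => x, continuous_const⟩
    have h := cl_face τ
    have e : ∀ i, sface 1 i τ = seg (fun _ => x) continuousOn_const := fun i => rfl
    rw [e, e, e] at h
    simpa using h
  rect' R hR _ := by
    have h0 : ContinuousOn (fun t => R t 0) (Icc 0 1) :=
      hR.comp (f := fun t : ℝ => (t, 0)) (by fun_prop) fun t ht => ⟨ht, by simp⟩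
    have h1 : ContinuousOn (fun t => R 1 t) (Icc 0 1) :=
      hR.comp (f := fun t : ℝ => (1, t)) (by fun_prop) fun t ht => ⟨by simp, ht⟩
    have h2 : ContinuousOn (fun t => R 0 t) (Icc 0 1) :=
      hR.comp (f := fun t : ℝ => (0, t)) (by fun_prop) fun t ht => ⟨by simp, ht⟩
    have h3 : ContinuousOn (fun t => R t 1) (Icc 0 1) :=
      hR.comp (f := fun t : ℝ => (t, 1)) (by fun_prop) fun t ht => ⟨ht, by simp⟩
    rw [dif_pos h0, dif_pos h1, dif_pos h2, dif_pos h3]
    exact cl_square hR h0 h1 h2 h3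

theorem sbd_zero (σ : Sing X 1) (h : σ (stdSimplex.vertex 0) = σ (stdSimplex.vertex 1)) (k : ℤ) :
    sbd ℤ X 0 (Finsupp.single σ k) = 0 := by
  have e : sface 0 0 σ = sface 0 1 σ := by
    ext s
    have h1 : ∀ i : Fin 2, stdSimplex.map i.succAbove s = stdSimplex.vertex (i.succAbove 0) := by
      intro i
      have hs : s = stdSimplex.vertex 0 := by
        apply Subtype.ext
        funext j
        have := s.2.2
        rw [Fin.sum_univ_one] at this
        rw [Fin.fin_one_eq_zero j, this]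
        simp
      rw [hs, stdSimplex.map_vertex]
    show σ (stdSimplex.map (Fin.succAbove 0) s) = σ (stdSimplex.map (Fin.succAbove 1) s)
    rw [h1, h1]
    exact h.symm
  unfold sbd
  rw [Finsupp.linearCombination_single, Fin.sum_univ_two, e]
  simp only [Fin.val_zero, pow_zero, Fin.val_one, pow_one]
  rw [Finsupp.single_neg, add_neg_cancel, smul_zero]

/-- a loop which is of order 6 for all path functionals and has integral `1` or `-1` over a local
cocycle mod 6 gives 3-torsion -/
theorem sTor_three {t : X → X → ZMod 6} (ht : LC t) {γ : ℝ → X}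
    (hγ : Continuous γ) (h01 : γ 0 = γ 1)
    (h6 : ∀ (A : Type) [AddCommGroup A] (μ : PF (univ : Set X) A), 6 • μ.L γ 0 1 = 0)
    (hg : ∀ σ : Sing X 1, (∀ s : stdSimplex ℝ (Fin 2), σ s = γ (s.1 1)) →
      ∃ g : stdSimplex ℝ (Fin 2) → ZMod 6, Pot t σ g ∧
        (g (stdSimplex.vertex 1) - g (stdSimplex.vertex 0) = 1 ∨
          g (stdSimplex.vertex 1) - g (stdSimplex.vertex 0) = -1)) : STor 3 X := by
  set σ : Sing X 1 := seg γ hγ.continuousOn with hσ
  have hσ' : ∀ s : stdSimplex ℝ (Fin 2), σ s = γ (s.1 1) := fun s => rfl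
  have h := h6 (QQ X) (pfZ X)
  have hv : (pfZ X).L γ 0 1 = cl σ := by
    have e : (fun t : ℝ => γ (0 + (1 - 0) * t)) = γ := by
      funext t; congr 1; ring
    show (pfZ X).val (fun t : ℝ => γ (0 + (1 - 0) * t)) = cl σ
    rw [e]
    exact dif_pos hγ.continuousOn
  rw [hv] at h
  refine ⟨1, Finsupp.single σ 2, ?_, ?_, ?_⟩
  · refine sbd_zero σ ?_ 2
    rw [hσ', hσ']
    have v1 : (Pi.single (1 : Fin 2) (1 : ℝ) : Fin 2 → ℝ) 1 = 1 := by simp
    have v0 : (Pi.single (0 : Fin 2) (1 : ℝ) : Fin 2 → ℝ) 1 = 0 := by simp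
    show γ ((Pi.single (0 : Fin 2) (1 : ℝ) : Fin 2 → ℝ) 1) =
      γ ((Pi.single (1 : Fin 2) (1 : ℝ) : Fin 2 → ℝ) 1)
    rw [v0, v1]
    exact h01
  · have e : (Submodule.Quotient.mk (6 • Finsupp.single σ (1 : ℤ)) : QQ X) = 6 • cl σ := rfl
    rw [h] at e
    obtain ⟨b, hb⟩ := (Submodule.Quotient.mk_eq_zero _).1 e
    refine ⟨b, ?_⟩
    rw [hb]
    simp only [Finsupp.smul_single]
    norm_num
  · rintro ⟨b, hb⟩
    obtain ⟨I, hI, hI'⟩ := exists_integral ht
    obtain ⟨g, hg1, hg2⟩ := hg σ hσ'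
    have hIσ := hI' σ g hg1
    let Φ : (Sing X 1 →₀ ℤ) →+ ZMod 6 :=
      Finsupp.liftAddHom fun σ => (AddMonoidHom.mulRight (I σ)).comp (Int.castAddHom (ZMod 6))
    have hΦ : ∀ (τ : Sing X 1) (k : ℤ), Φ (Finsupp.single τ k) = (k : ZMod 6) * I τ := by
      intro τ k
      simp [Φ]
    have hbd : ∀ b : Sing X 2 →₀ ℤ, Φ (sbd ℤ X 1 b) = 0 := by
      intro b
      induction b using Finsupp.induction_linear with
      | zero => simp
      | add x y hx hy => rw [map_add, map_add, hx, hy, add_zero]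
      | single τ k =>
        unfold sbd
        rw [Finsupp.linearCombination_single, Fin.sum_univ_three, smul_add, smul_add, map_add,
          map_add]
        simp only [Finsupp.smul_single, hΦ, Fin.val_zero, pow_zero, Fin.val_one, pow_one,
          Fin.val_two, smul_eq_mul, mul_one]
        push_cast
        have := hI τ
        linear_combination (k : ZMod 6) * this
    have h1 := hbd b
    rw [hb, hΦ, hIσ] at h1
    rcases hg2 with h2 | h2
    · rw [h2] at h1
      exact absurd h1 (by decide)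
    · rw [h2] at h1
      exact absurd h1 (by decide)

end

end Pool.Agent.TH619
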