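import Pool.Agent.TH619.Fin1
import Pool.Agent.TH619.Fib
import Pool.Agent.TH619.Tor
import Pool.Agent.TH619.Theta
import Pool.Agent.TH619.Six3
import Pool.Agent.TH429.J285
import Pool.Agent.TH429.J317
import Pool.Agent.TH369.J168
import Pool.Agent.TH902.J219
import Pool.Agent.TH902.J220

/-! Assembly: the tube around the surface with three necks. -/

set_option autoImplicit false

namespace Pool.Agent.TH619

open Set Topology Filter
open scoped InnerProductSpace Manifold ContDiff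
open Pool.Agent.Helper874.Odd
open Pool.Agent.Helper775.Tight (Sing sface Ch AS one HomologyInjective)
open Pool.Agent.Helper775.Tight.SoftCx

/-- the vector with the coordinates of `z` -/
def ofE (z : E 4) : V := (z 0, z 1, z 2, z 3)

theorem toE_ofE (z : E 4) : toE (ofE z) = z := by
  rw [toE_apply]
  ext i
  fin_cases i <;> rfl

theorem fM_cont : Continuous fM := toE.continuous.comp (continuous_fst.comp continuous_subtype_val)

theorem fM_tight : Tight0 fM := by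
  intro z c
  have h := MT_conn (ofE z) c
  have e : (Subtype.val : MT → V × ℝ) '' {x : MT | c ≤ ⟪z, fM x⟫_ℝ} =
      {m : V × ℝ | m ∈ MT ∧ c ≤ hh (ofE z) m.1} := by
    ext m
    constructor
    · rintro ⟨x, hx, rfl⟩
      refine ⟨x.2, ?_⟩
      rw [← inner_toE, toE_ofE]
      exact hx
    · rintro ⟨hm, hc⟩
      refine ⟨⟨m, hm⟩, ?_, rfl⟩
      show c ≤ ⟪z, toE m.1⟫_ℝ
      rw [← toE_ofE z, inner_toE]
      exact hc
  rw [← e] at h
  exact Topology.IsInducing.subtypeVal.isPreconnected_image.1 h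

instance MT_cs : CompactSpace MT := isCompact_iff_compactSpace.1 MT_compact

instance MT_con : ConnectedSpace MT := by
  have h := MT_conn 0 0
  have e : {m : V × ℝ | m ∈ MT ∧ 0 ≤ hh 0 m.1} = MT := by
    ext m
    constructor
    · exact fun h => h.1
    · intro h
      refine ⟨h, ?_⟩
      unfold hh
      simp
  rw [e] at h
  exact isConnected_iff_connectedSpace.1 ⟨MT_nonempty, h⟩

theorem cz_exp (s : ℝ) : cz s = Complex.exp (2 * Real.pi * (s : ℂ) * Complex.I) := by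
  have e : (2 * Real.pi * (s : ℂ)) = ((2 * Real.pi * s : ℝ) : ℂ) := by push_cast; ring
  rw [e, Complex.exp_mul_I, ← Complex.ofReal_cos, ← Complex.ofReal_sin]
  unfold cz
  generalize Real.cos (2 * Real.pi * s) = c
  generalize Real.sin (2 * Real.pi * s) = d
  apply Complex.ext <;> simp

/-- the fibre loop is continuous -/
theorem fl_cont {m : V × ℝ} {n n' : V} (hi : Ind n n') : Continuous (fl m n n' cz) := by
  refine continuous_const.prodMk ?_
  have h : ContinuousOn (fun t : ℝ => psi n n' (cz t)) univ :=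
    psi_cont.comp (f := fun t : ℝ => ((n, n'), cz t))
      (continuousOn_const.prodMk cz_cont.continuousOn) fun t _ => ⟨hi, cz_ne t⟩
  exact continuousOn_univ.1 h

section

variable [ChartedSpace (E 2) MT]

/-- description of the tangent planes -/
def TPd : Prop := ∀ (i : Option (Fin 3 × Kd)) (m : MT), m.1 ∈ Wd i → ∀ u : E 4, u ∈ TP fM m ↔
      ∃ a : V, toE a = u ∧ fderiv ℝ (D1 i) m.1.1 a = 0 ∧ fderiv ℝ (D2 i) m.1.1 a = 0

theorem mem_NT (hT : TPd) {m : MT} {ν : E 4} : (m, ν) ∈ NB fM ↔ ((m.1, ν) : (V × ℝ) × E 4) ∈ NT := by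
  constructor
  · rintro ⟨h1, h2⟩
    obtain ⟨i, hi⟩ := Wd_cover m.2
    exact ⟨m.2, h1, i, hi, fun a ha hb => h2 _ ((hT i m hi _).2 ⟨a, rfl, ha, hb⟩)⟩
  · rintro ⟨-, h1, i, hi, h2⟩
    refine ⟨h1, fun w hw => ?_⟩
    obtain ⟨a, rfl, ha, hb⟩ := (hT i m hi _).1 hw
    exact h2 a ha hb

theorem TP_nrm (hT : TPd) {m : MT} {n n' : V} (hn : Nrm m.1 n n') :
    (∀ w ∈ TP fM m, ⟪w, toE n⟫_ℝ = 0) ∧ ∀ w ∈ TP fM m, ⟪w, toE n'⟫_ℝ = 0 := by
  obtain ⟨i, hi, h⟩ := hn
  constructor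
  · intro w hw
    obtain ⟨a, rfl, ha, hb⟩ := (hT i m hi _).1 hw
    rw [inner_toE, hh_comm]
    exact (h a ha hb).1
  · intro w hw
    obtain ⟨a, rfl, ha, hb⟩ := (hT i m hi _).1 hw
    rw [inner_toE, hh_comm]
    exact (h a ha hb).2

theorem hco_of (hI : Imm fM) (hT : TPd) :
    ∀ q ∈ NT, ∀ n n' : V, Nrm q.1 n n' → Ind n n' → co n n' q.2 ≠ 0 := by
  rintro ⟨m, ν⟩ hq n n' hn hi h0
  have hq' : ((⟨m, hq.1⟩ : MT), ν) ∈ NB fM := (mem_NT hT).2 hq
  obtain ⟨h1, h2⟩ := TP_nrm hT (m := ⟨m, hq.1⟩) hn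
  refine normal_span hI hq' h1 h2 ?_ (congrArg Complex.re h0) (congrArg Complex.im h0)
  rw [LinearIndependent.pair_iff]
  intro a b hab
  rw [← map_smul, ← map_smul, ← map_add] at hab
  exact hi a b (toE_injective (by rw [hab, map_zero]))

/-- the map to the unit normal bundle in the fixed space -/
def eN (hT : TPd) (q : NB fM) : NT := ⟨(q.1.1.1, q.1.2), (mem_NT hT).1 q.2⟩

theorem eN_cont (hT : TPd) : Continuous (eN hT) := by
  refine Continuous.subtype_mk (Continuous.prodMk ?_ ?_) _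
  · exact continuous_subtype_val.comp (continuous_fst.comp continuous_subtype_val)
  · exact continuous_snd.comp continuous_subtype_val

open Classical in
/-- the inverse map, extended to the whole space -/
noncomputable def rN (hT : TPd) (x0 : NB fM) (q : (V × ℝ) × E 4) : NB fM :=
  if h : q ∈ NT then ⟨(⟨q.1, h.1⟩, q.2), (mem_NT hT).2 h⟩ else x0

theorem rN_eq (hT : TPd) (x0 : NB fM) {q : (V × ℝ) × E 4} (h : q ∈ NT) :
    rN hT x0 q = ⟨(⟨q.1, h.1⟩, q.2), (mem_NT hT).2 h⟩ := dif_pos h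

theorem rN_cont (hT : TPd) (x0 : NB fM) : ContinuousOn (rN hT x0) NT := by
  rw [continuousOn_iff_continuous_domRestrict]
  have e : NT.domRestrict (rN hT x0) = fun q : NT => ⟨(⟨q.1.1, q.2.1⟩, q.1.2), (mem_NT hT).2 q.2⟩ := by
    funext q
    exact rN_eq hT x0 q.2
  rw [e]
  refine Continuous.subtype_mk (Continuous.prodMk ?_ ?_) _
  · exact Continuous.subtype_mk (continuous_fst.comp continuous_subtype_val) _
  · exact continuous_snd.comp continuous_subtype_val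

theorem eN_rN (hT : TPd) (x0 : NB fM) {q : (V × ℝ) × E 4} (h : q ∈ NT) :
    (eN hT (rN hT x0 q) : (V × ℝ) × E 4) = q := by
  rw [rN_eq hT x0 h]
  rfl

/-- everything about the unit normal bundle of the surface -/
theorem tube_all (hI : Imm fM) (hT : TPd) :
    (∃ a : Ch (NB fM), (AS (NB fM)).Coc univ 2 a ∧
      ∀ x : MT, (AS (NB fM)).AType one 1 a {q : NB fM | q.1.1 = x}) ∧ STor 3 (NB fM) := by
  have := NB_compact hI
  obtain ⟨t, ht, hfib⟩ := exists_theta (hco_of hI hT)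
  have hc := eN_cont hT
  -- the pulled back cocycle
  have ht' : LC fun a b : NB fM => t (eN hT a) (eN hT b) := by
    intro x
    obtain ⟨W, hW, h⟩ := ht (eN hT x)
    exact ⟨_, hc.continuousAt.preimage_mem_nhds hW, fun a ha b hb c hc => h _ ha _ hb _ hc⟩
  -- potentials along loops
  have hpot : ∀ (m : V × ℝ) (hm : m ∈ MT), ∃ n n' : V, Nrm m n n' ∧ Ind n n' ∧
      (m ∈ MO → (n, n') = frm m) ∧ ∀ (x0 : NB fM) (σ : Sing (NB fM) 1),
      (∀ s : stdSimplex ℝ (Fin 2), σ s = rN hT x0 (fl m n n' cz (s.1 1))) →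
      ∃ g : stdSimplex ℝ (Fin 2) → ZMod 6, Pot (fun a b : NB fM => t (eN hT a) (eN hT b)) σ g ∧
        (g (stdSimplex.vertex 1) - g (stdSimplex.vertex 0) = 1 ∨
          g (stdSimplex.vertex 1) - g (stdSimplex.vertex 0) = -1) := by
    intro m hm
    obtain ⟨n, n', hn, hi, hO, h⟩ := hfib m hm
    refine ⟨n, n', hn, hi, hO, fun x0 σ hσ => ?_⟩
    obtain ⟨g, hg, hg'⟩ := h ((⟨eN hT, hc⟩ : C(NB fM, NT)).comp σ) (fun s => by
      have hm' : fl m n n' cz (s.1 1) ∈ NT := psi_mem hm hn hi (cz_ne _)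
      show (eN hT (σ s) : (V × ℝ) × E 4) = _
      rw [hσ s, eN_rN hT x0 hm', ← cz_exp]
      rfl)
    exact ⟨g, hg, hg'⟩
  obtain ⟨hcoc, htype⟩ := fibre_type ht'
  refine ⟨⟨_, hcoc, fun x => ?_⟩, ?_⟩
  · obtain ⟨n, n', hn, hi, -, h⟩ := hpot x.1 x.2
    have hx0 : ((x, psi n n' (cz 0)) : MT × E 4) ∈ NB fM :=
      (mem_NT hT).2 (psi_mem x.2 hn hi (cz_ne 0))
    have hmem : ∀ t, fl x.1 n n' cz t ∈ NT := fun t => psi_mem x.2 hn hi (cz_ne t)
    have hγ : Continuous fun t : ℝ => rN hT ⟨_, hx0⟩ (fl x.1 n n' cz t) :=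
      (rN_cont hT _).comp_continuous (fl_cont hi) hmem
    have hcl : IsClosed {q : NB fM | q.1.1 = x} :=
      isClosed_eq (continuous_fst.comp continuous_subtype_val) continuous_const
    refine htype _ hcl (fibre_circle hI x) ?_
    obtain ⟨g, hg, hg'⟩ := h ⟨_, hx0⟩ (seg _ hγ.continuousOn) fun s => rfl
    refine ⟨seg _ hγ.continuousOn, g, ?_, ?_, hg, hg'⟩
    · rintro _ ⟨s, rfl⟩
      show (rN hT ⟨_, hx0⟩ (fl x.1 n n' cz (s.1 1))).1.1 = x
      rw [rN_eq hT _ (hmem _)]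
      rfl
    · have v1 : (Pi.single (1 : Fin 2) (1 : ℝ) : Fin 2 → ℝ) 1 = 1 := by simp
      have v0 : (Pi.single (0 : Fin 2) (1 : ℝ) : Fin 2 → ℝ) 1 = 0 := by simp
      show rN hT ⟨_, hx0⟩ (fl x.1 n n' cz ((Pi.single (0 : Fin 2) (1 : ℝ) : Fin 2 → ℝ) 1)) =
        rN hT ⟨_, hx0⟩ (fl x.1 n n' cz ((Pi.single (1 : Fin 2) (1 : ℝ) : Fin 2 → ℝ) 1))
      rw [v0, v1]
      unfold fl
      rw [cz_one]
  · -- torsion
    have hmO : kaA 0 0 ∈ MO := Zn_MO (kaA_mem 0 0)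
    have hm : kaA 0 0 ∈ MT := MO_sub hmO
    obtain ⟨n, n', hn, hi, hO, h⟩ := hpot _ hm
    have hx0 : ((⟨_, hm⟩, psi n n' (cz 0)) : MT × E 4) ∈ NB fM :=
      (mem_NT hT).2 (psi_mem hm hn hi (cz_ne 0))
    have hmem : ∀ t, fl (kaA 0 0) n n' cz t ∈ NT := fun t => psi_mem hm hn hi (cz_ne t)
    have hγ : Continuous fun t : ℝ => rN hT ⟨_, hx0⟩ (fl (kaA 0 0) n n' cz t) :=
      (rN_cont hT _).comp_continuous (fl_cont hi) hmem
    refine sTor_three ht' hγ ?_ ?_ fun σ hσ => h ⟨_, hx0⟩ σ hσ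
    · unfold fl
      rw [cz_one]
    · intro A _ μ
      have h6 := six_phi (μ.comap (rN hT ⟨_, hx0⟩) (rN_cont hT _) fun _ _ => mem_univ _)
      unfold Phi at h6
      rw [← hO hmO] at h6
      exact h6

end

/-- the main theorem -/
theorem main_thm : ∃ (N : Type) (_ : TopologicalSpace N) (_ : T2Space N) (_ : CompactSpace N)
    (_ : ConnectedSpace N) (_ : ChartedSpace (E 3) N) (_ : IsManifold 𝓘(ℝ, E 3) ∞ N)
    (f : N → E 4), ContMDiff 𝓘(ℝ, E 3) 𝓘(ℝ, E 4) ∞ f ∧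
      (∀ q : N, Function.Injective (mfderiv 𝓘(ℝ, E 3) 𝓘(ℝ, E 4) f q)) ∧
      STight (ZMod 2) f ∧ STor 3 N := by
  obtain ⟨hC, hI, hT⟩ := MT_surface
  obtain ⟨⟨a, ha, hfib⟩, hTor⟩ := tube_all hI hT
  obtain ⟨ε₁, hε₁, h1⟩ := Pool.Agent.TH369.J167.tube_manifold fM_cont hI
  obtain ⟨ε₂, hε₂, h2⟩ := Pool.Agent.TH369.J169.tube_levels
    (fun g U hU hg hinj q₀ hq₀ => Pool.Agent.TH369.J168.local_max hU hg hinj hq₀) fM_cont hI fM_tight
  have hε : 0 < min ε₁ ε₂ / 2 := by positivity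
  have hε1 : min ε₁ ε₂ / 2 < ε₁ := by
    have := min_le_left ε₁ ε₂; linarith
  have hε2 : min ε₁ ε₂ / 2 < ε₂ := by
    have := min_le_right ε₁ ε₂; linarith
  obtain ⟨hch, hman, hsm, hinj⟩ := h1 _ hε hε1
  have hcomp := NB_compact hI
  have hconn := NB_connected hI
  refine ⟨NB fM, inferInstance, inferInstance, hcomp, hconn, hch, hman, _, hsm, hinj, ?_, hTor⟩
  intro z t _
  exact sInj_two (tube_tight fM_cont hI hε (h2 _ hε hε2) (not_ex_top (P := MT)) ha hfib z t)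

end Pool.Agent.TH619
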