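import Mathlib

/-! Immersed surfaces in four-space, in charts: tangent planes and the unit normal bundle. -/

set_option autoImplicit false

namespace Pool.Agent.TH619

open Set Topology Filter
open scoped InnerProductSpace Manifold ContDiff

/-- Euclidean space -/
abbrev E (n : ℕ) : Type := EuclideanSpace ℝ (Fin n)

section

variable {M : Type} [TopologicalSpace M] [ChartedSpace (E 2) M]

/-- `f` read in the preferred chart at `x` -/
noncomputable def rd (f : M → E 4) (x : M) : E 2 → E 4 := f ∘ (chartAt (E 2) x).symm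

/-- `f` is a smooth immersion (read in the preferred charts) -/
def Imm (f : M → E 4) : Prop :=
  ∀ x : M, ContDiffOn ℝ ∞ (rd f x) (chartAt (E 2) x).target ∧
    ∀ q ∈ (chartAt (E 2) x).target, Function.Injective (fderiv ℝ (rd f x) q)

/-- the tangent plane at `x` -/
noncomputable def TP (f : M → E 4) (x : M) : Submodule ℝ (E 4) :=
  LinearMap.range (fderiv ℝ (rd f x) (chartAt (E 2) x x)).toLinearMap

/-- the unit normal bundle -/
def NB (f : M → E 4) : Set (M × E 4) := {q | ‖q.2‖ = 1 ∧ ∀ w ∈ TP f q.1, ⟪w, q.2⟫_ℝ = 0}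

/-- the tube of radius `ε` -/
noncomputable def tube (f : M → E 4) (ε : ℝ) (q : M × E 4) : E 4 := f q.1 + ε • q.2

/-- the points over which some point of the tube lies in the half-space -/
def AA (f : M → E 4) (ε : ℝ) (z : E 4) (c : ℝ) : Set M :=
  {x | ∃ ν : E 4, (x, ν) ∈ NB f ∧ c ≤ ⟪z, tube f ε (x, ν)⟫_ℝ}

/-- the points over which the whole circle of the tube lies in the half-space -/
def BB (f : M → E 4) (ε : ℝ) (z : E 4) (c : ℝ) : Set M :=
  {x | ∀ ν : E 4, (x, ν) ∈ NB f → c ≤ ⟪z, tube f ε (x, ν)⟫_ℝ}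

/-- preimages of closed half-spaces are connected (or empty) -/
def Tight0 (f : M → E 4) : Prop := ∀ (z : E 4) (c : ℝ), IsPreconnected {x | c ≤ ⟪z, f x⟫_ℝ}

end

end Pool.Agent.TH619
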