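import Pool.Agent.TH369.J167

/-! The unit normal bundle of an immersed closed surface in four-space: compactness, connectedness,
fibres. -/

set_option autoImplicit false

namespace Pool.Agent.TH619

open Set Topology Filter
open scoped InnerProductSpace Manifold ContDiff
open Pool.Agent.TH369.J167 Pool.Agent.TH369.J169

section

variable {M : Type} [TopologicalSpace M] [ChartedSpace (E 2) M]

theorem NB_closed {f : M → E 4} (hI : Imm f) : IsClosed (NB f) := by
  rw [← isOpen_compl_iff, isOpen_iff_mem_nhds]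
  rintro ⟨x, ν⟩ hq
  by_cases hn : ‖ν‖ = 1
  · have hx := mem_chart_source (E 2) x
    have h1 : ¬ ∀ v, ⟪ν, fderiv ℝ (rd f x) (chartAt (E 2) x x) v⟫_ℝ = 0 := fun h =>
      hq ((mem_NB_iff hI hx ν).2 ⟨hn, h⟩)
    push Not at h1
    obtain ⟨v, hv⟩ := h1
    have hc : ContinuousAt (fun q : M × E 4 =>
        ⟪q.2, fderiv ℝ (rd f x) (chartAt (E 2) x q.1) v⟫_ℝ) (x, ν) := by
      refine ContinuousAt.inner continuousAt_snd ?_
      have h2 : ContinuousAt (fun q => fderiv ℝ (rd f x) q v) (chartAt (E 2) x x) := by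
        have h3 : ContDiffAt ℝ ∞ (fderiv ℝ (rd f x)) (chartAt (E 2) x x) :=
          (rd_contDiffAt hI x ((chartAt (E 2) x).map_source hx)).fderiv_right (by simp)
        exact (h3.clm_apply contDiffAt_const).continuousAt
      have h4 : ContinuousAt (chartAt (E 2) x) x := (chartAt (E 2) x).continuousAt hx
      exact ContinuousAt.comp (f := fun q : M × E 4 => chartAt (E 2) x q.1)
        (x := (x, ν)) h2 (ContinuousAt.comp (f := fun q : M × E 4 => q.1) h4 continuousAt_fst)
    have hc' := hc.eventually_ne hv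
    have hs : ∀ᶠ q : M × E 4 in 𝓝 (x, ν), q.1 ∈ (chartAt (E 2) x).source :=
      continuousAt_fst.preimage_mem_nhds ((chartAt (E 2) x).open_source.mem_nhds hx)
    filter_upwards [hc', hs] with q h5 h6 h7
    exact h5 (((mem_NB_iff hI h6 q.2).1 h7).2 v)
  · have : ∀ᶠ q : M × E 4 in 𝓝 (x, ν), ‖q.2‖ ≠ 1 :=
      (continuous_snd.norm.continuousAt (x := ((x, ν) : M × E 4))).eventually_ne hn
    filter_upwards [this] with q h1 h2
    exact h1 h2.1

theorem NB_compact [CompactSpace M] {f : M → E 4} (hI : Imm f) : CompactSpace (NB f) := by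
  rw [← isCompact_iff_compactSpace]
  refine IsCompact.of_isClosed_subset
    (isCompact_univ.prod (isCompact_closedBall (0 : E 4) 1)) (NB_closed hI) ?_
  rintro q hq
  refine ⟨mem_univ _, ?_⟩
  rw [mem_closedBall_zero_iff]
  exact hq.1.le

/-- the fibres are circles -/
theorem fibre_circle {f : M → E 4} (hI : Imm f) (x : M) :
    Nonempty ({q : NB f | q.1.1 = x} ≃ₜ Metric.sphere (0 : EuclideanSpace ℝ (Fin 2)) 1) := by
  have hfr : Module.finrank ℝ (TP f x)ᗮ = 2 := by
    have h1 := Submodule.finrank_add_finrank_orthogonal (TP f x)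
    rw [finrank_TP hI x] at h1
    simp at h1
    omega
  let L : (TP f x)ᗮ ≃ₗᵢ[ℝ] EuclideanSpace ℝ (Fin 2) :=
    ((stdOrthonormalBasis ℝ (TP f x)ᗮ).reindex (finCongr hfr)).repr
  have hmem : ∀ q : {q : NB f | q.1.1 = x}, q.1.1.2 ∈ (TP f x)ᗮ := by
    rintro ⟨⟨⟨y, ν⟩, h1, h2⟩, h3⟩
    simp only [mem_ofPred_eq] at h3
    subst h3
    rw [Submodule.mem_orthogonal]
    exact h2
  refine ⟨{
    toFun := fun q => ⟨L ⟨q.1.1.2, hmem q⟩, by
      rw [mem_sphere_zero_iff_norm, L.norm_map]
      exact q.1.2.1⟩
    invFun := fun y => ⟨⟨(x, ((L.symm y.1 : (TP f x)ᗮ) : E 4)), by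
      have h1 := y.2
      rw [mem_sphere_zero_iff_norm] at h1
      have h2 : ‖((L.symm y.1 : (TP f x)ᗮ) : E 4)‖ = ‖L.symm y.1‖ := rfl
      exact h2.trans ((L.symm.norm_map _).trans h1), fun w hw => by
        exact (Submodule.mem_orthogonal _ _).1 (L.symm y.1).2 w hw⟩, rfl⟩
    left_inv := fun q => by
      obtain ⟨⟨⟨y, ν⟩, h1, h2⟩, h3⟩ := q
      apply Subtype.ext
      apply Subtype.ext
      have h4 : y = x := h3
      refine Prod.ext h4.symm ?_
      simp only [LinearIsometryEquiv.symm_apply_apply]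
    right_inv := fun y => by
      apply Subtype.ext
      simp only [Subtype.coe_eta, LinearIsometryEquiv.apply_symm_apply]
    continuous_toFun := by
      refine Continuous.subtype_mk (L.continuous.comp (Continuous.subtype_mk ?_ _)) _
      exact continuous_snd.comp (continuous_subtype_val.comp continuous_subtype_val)
    continuous_invFun := by
      refine Continuous.subtype_mk (Continuous.subtype_mk (continuous_const.prodMk ?_) _) _
      exact continuous_subtype_val.comp (L.symm.continuous.comp continuous_subtype_val) }⟩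

theorem circle_connected :
    ConnectedSpace (Metric.sphere (0 : EuclideanSpace ℝ (Fin 2)) 1) :=
  isConnected_iff_connectedSpace.1 (isConnected_sphere (by
    rw [← Module.finrank_eq_rank, finrank_euclideanSpace_fin]
    norm_num) 0 zero_le_one)

/-- the unit normal bundle is connected -/
theorem NB_connected [CompactSpace M] [T2Space M] [ConnectedSpace M] {f : M → E 4} (hI : Imm f) :
    ConnectedSpace (NB f) := by
  have := NB_compact hI
  have hp : Continuous fun q : NB f => q.1.1 := continuous_fst.comp continuous_subtype_val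
  have hcl : IsClosedMap fun q : NB f => q.1.1 := hp.isClosedMap
  have hsurj : Function.Surjective fun q : NB f => q.1.1 := by
    intro x
    obtain ⟨ν, hν, -⟩ := exists_normal hI x 0
    exact ⟨⟨(x, ν), hν⟩, rfl⟩
  have hq : IsQuotientMap fun q : NB f => q.1.1 := hcl.isQuotientMap hp hsurj
  have hfib : ∀ t : M, IsConnected ((fun q : NB f => q.1.1) ⁻¹' {t}) := by
    intro t
    obtain ⟨e⟩ := fibre_circle hI t
    have := circle_connected
    have h2 : IsConnected (range fun y => ((e.symm y : {q : NB f | q.1.1 = t}) : NB f)) :=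
      isConnected_range (continuous_subtype_val.comp e.symm.continuous)
    have h3 : (range fun y => ((e.symm y : {q : NB f | q.1.1 = t}) : NB f)) =
        (fun q : NB f => q.1.1) ⁻¹' {t} := by
      ext q
      constructor
      · rintro ⟨y, rfl⟩
        exact (e.symm y).2
      · intro hq
        exact ⟨e ⟨q, hq⟩, by simp⟩
    rwa [h3] at h2
  have h := Topology.IsCoinducing.isConnected_preimage_of_isClosed hfib hq.isCoinducing
    isClosed_univ isConnected_univ
  rw [preimage_univ] at h
  exact { isPreconnected_univ := h.2, toNonempty := ⟨h.1.choose⟩ }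

/-- nonvanishing: a unit normal vector is not orthogonal to two independent normal vectors -/
theorem normal_span {f : M → E 4} (hI : Imm f) {x : M} {ν : E 4} (hν : (x, ν) ∈ NB f) {n n' : E 4}
    (hn : ∀ w ∈ TP f x, ⟪w, n⟫_ℝ = 0) (hn' : ∀ w ∈ TP f x, ⟪w, n'⟫_ℝ = 0)
    (hi : LinearIndependent ℝ ![n, n']) (h1 : ⟪n, ν⟫_ℝ = 0) (h2 : ⟪n', ν⟫_ℝ = 0) : False := by
  have hfr : Module.finrank ℝ (TP f x)ᗮ = 2 := by
    have h1 := Submodule.finrank_add_finrank_orthogonal (TP f x)
    rw [finrank_TP hI x] at h1
    simp at h1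
    omega
  have hle : Submodule.span ℝ (range ![n, n']) ≤ (TP f x)ᗮ := by
    rw [Submodule.span_le]
    rintro _ ⟨i, rfl⟩
    fin_cases i
    · exact (Submodule.mem_orthogonal _ _).2 hn
    · exact (Submodule.mem_orthogonal _ _).2 hn'
  have hfs : Module.finrank ℝ (Submodule.span ℝ (range ![n, n'])) = 2 := by
    rw [finrank_span_eq_card hi]; simp
  have heq := Submodule.eq_of_le_of_finrank_eq hle (by rw [hfs, hfr])
  have hνm : ν ∈ Submodule.span ℝ (range ![n, n']) := by
    rw [heq]
    exact (Submodule.mem_orthogonal _ _).2 hν.2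
  have key : ∀ w ∈ Submodule.span ℝ (range ![n, n']), ⟪w, ν⟫_ℝ = 0 := by
    intro w hw
    induction hw using Submodule.span_induction with
    | mem w hw =>
      obtain ⟨i, rfl⟩ := hw
      fin_cases i
      · exact h1
      · exact h2
    | zero => simp
    | add a b _ _ ha hb => rw [inner_add_left, ha, hb, add_zero]
    | smul c a _ ha => rw [inner_smul_left, ha, mul_zero]
  have h3 := key ν hνm
  rw [real_inner_self_eq_norm_sq, show ‖ν‖ = 1 from hν.1] at h3
  norm_num at h3

end

end Pool.Agent.TH619
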