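import Pool.Agent.TH619.Sur
import Pool.Agent.Helper874.Odd.Main

/-! Frames of the normal planes of the surface with three necks. -/

set_option autoImplicit false

namespace Pool.Agent.TH619

open Set Topology Filter
open scoped InnerProductSpace Manifold ContDiff
open Pool.Agent.Helper874.Odd

/-- the pieces of the surface outside the necks -/
inductive Pc | base | tA (j : Fin 3) | tB (j : Fin 3)

/-- the closed pieces -/
def Zn : Pc → Set (V × ℝ)
  | .base => {m | m.2 = 0 ∧ m.1 ∈ BL}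
  | .tA j => {m | m.2 = lab (sh j m.1) ∧ sh j m.1 ∈ SA \ DA}
  | .tB j => {m | m.2 = 0 ∧ sh j m.1 ∈ SB \ DB}

/-- the necks -/
def NK (j : Fin 3) : Set (V × ℝ) := {m | m.2 = 0 ∧ sh j m.1 ∈ SC}

theorem Zn_sub (k : Pc) : Zn k ⊆ MT := by
  intro m hm
  cases k with
  | base => exact Or.inl hm
  | tA j => exact Or.inr ⟨j, Or.inr hm⟩
  | tB j => exact Or.inr ⟨j, Or.inl ⟨hm.1, Or.inl hm.2⟩⟩

theorem NK_sub (j : Fin 3) : NK j ⊆ MT := fun _ hm => Or.inr ⟨j, Or.inl ⟨hm.1, Or.inr hm.2⟩⟩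

theorem MT_eq {m : V × ℝ} : m ∈ MT ↔ (∃ k, m ∈ Zn k) ∨ ∃ j, m ∈ NK j := by
  constructor
  · rintro (h | ⟨j, (⟨h1, h2 | h2⟩ | h)⟩)
    · exact Or.inl ⟨.base, h⟩
    · exact Or.inl ⟨.tB j, h1, h2⟩
    · exact Or.inr ⟨j, h1, h2⟩
    · exact Or.inl ⟨.tA j, h⟩
  · rintro (⟨k, h⟩ | ⟨j, h⟩)
    · exact Zn_sub k h
    · exact NK_sub j h

/-! ### small geometry -/

theorem cc_vals (j : Fin 3) : cc j = -2 ∨ cc j = 0 ∨ cc j = 2 := by
  unfold cc
  fin_cases j <;> norm_num

theorem cc_dist {j j' : Fin 3} (h : j ≠ j') : 2 ≤ |cc j - cc j'| := by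
  unfold cc
  fin_cases j <;> fin_cases j' <;> simp_all <;> norm_num

theorem kA_bd {v : V} {s : ℝ} (h : kA v < s) : |v.1| < s + 1 / 4 ∧ |v.2.1| < s := by
  unfold kA at h
  have h1 := abs_le_mm (v.1 + 1 / 4)
  have h2 := abs_le_mm v.2.1
  have h3 := abs_nonneg (v.1 + 1 / 4)
  have h4 := abs_nonneg v.2.1
  constructor
  · have h5 := abs_sub_abs_le_abs_sub v.1 (-(1 / 4))
    rw [sub_neg_eq_add, abs_neg, abs_of_pos (by norm_num : (0 : ℝ) < 1 / 4)] at h5
    linarith
  · linarith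

theorem kB_bd {v : V} {s : ℝ} (h : kB v < s) : |v.1| < s + 1 / 4 ∧ |v.2.1| < s := by
  unfold kB at h
  have h1 := abs_le_mm (v.1 - 1 / 4)
  have h2 := abs_le_mm v.2.1
  have h3 := abs_nonneg (v.1 - 1 / 4)
  have h4 := abs_nonneg v.2.1
  constructor
  · have h5 := abs_sub_abs_le_abs_sub v.1 (1 / 4)
    rw [abs_of_pos (by norm_num : (0 : ℝ) < 1 / 4)] at h5
    linarith
  · linarith

/-- the other copies are far away -/
theorem far {j j' : Fin 3} (h : j ≠ j') {v : V} (hv : |(sh j v).1| < 1) : 1 < |(sh j' v).1| := by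
  have h1 := cc_dist h
  unfold sh at hv ⊢
  simp only at hv ⊢
  have h2 := abs_sub_le (cc j) v.1 (cc j')
  rw [abs_sub_comm (cc j) v.1] at h2
  linarith

/-- the six vertices of the hexagon -/
def Vt : Set (ℝ × ℝ) := {(1, 0), (0, 1), (-1, 1), (-1, 0), (0, -1), (1, -1)}

theorem ML_flat {v : V} (hx : |v.1| < 15 / 4) (hy : |v.2.1| < 15 / 4) : v ∈ ML ↔ v.2.2 ∈ Vt := by
  have h := M0_flat (v := scl v) (by
    show |v.1 / 4| < 15 / 16
    rw [abs_div, abs_of_pos (by norm_num : (0 : ℝ) < 4)]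
    linarith) (by
    show |v.2.1 / 4| < 15 / 16
    rw [abs_div, abs_of_pos (by norm_num : (0 : ℝ) < 4)]
    linarith)
  exact h

theorem abs_x_lt {j : Fin 3} {v : V} {s : ℝ} (h : |(sh j v).1| < s) : |v.1| < s + 2 := by
  have h1 : |v.1| ≤ |v.1 - cc j| + |cc j| := by
    have := abs_add_le (v.1 - cc j) (cc j)
    rwa [sub_add_cancel] at this
  have h2 : |cc j| ≤ 2 := by
    rcases cc_vals j with h | h | h <;> rw [h] <;> norm_num
  have h3 : |(sh j v).1| = |v.1 - cc j| := rfl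
  linarith

/-! ### gradients -/

/-- `bet' 0` -/
noncomputable def b0 : ℝ := deriv bet 0

theorem b0_neg : b0 < 0 := bet0_neg'

noncomputable def er : V := (0, 0, 0, 1)
noncomputable def ep : V := (0, 0, 1, 0)

/-- gradient of `G1 ∘ scl` -/
noncomputable def g1 (v : V) : V := (deriv alp (v.1 / 4) / 4, 0,
  - deriv bet (1 - v.2.2.1) + deriv bet (1 + v.2.2.1 + v.2.2.2),
  - deriv bet (1 - v.2.2.2) + deriv bet (1 + v.2.2.1 + v.2.2.2))

/-- gradient of `G2 ∘ scl` -/
noncomputable def g2 (v : V) : V := (0, deriv alp (v.2.1 / 4) / 4,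
  deriv bet (1 + v.2.2.1) - deriv bet (1 - v.2.2.1 - v.2.2.2),
  deriv bet (1 + v.2.2.2) - deriv bet (1 - v.2.2.1 - v.2.2.2))

/-- gradient of `PsA` -/
noncomputable def gA (v : V) : V := (deriv bet (kA v - 1 / 2) * gg (v.1 + 1 / 4),
  deriv bet (kA v - 1 / 2) * gg v.2.1, deriv alp v.2.2.1, 0)

/-- gradient of `PsB` -/
noncomputable def gB (v : V) : V := (deriv bet (kB v - 1 / 2) * gg (v.1 - 1 / 4),
  deriv bet (kB v - 1 / 2) * gg v.2.1, 0, deriv alp v.2.2.2)

theorem hh_gA (v a : V) : fderiv ℝ PsA v a = hh (gA v) a := by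
  rw [fderiv_PsA, mm_deriv, mm_deriv]
  unfold hh gA
  ring

theorem hh_gB (v a : V) : fderiv ℝ PsB v a = hh (gB v) a := by
  rw [fderiv_PsB, mm_deriv, mm_deriv]
  unfold hh gB
  ring

theorem sh_hasFDerivAt (j : Fin 3) (v : V) :
    HasFDerivAt (sh j) (ContinuousLinearMap.id ℝ V) v := by
  have h : sh j = fun v => v - (cc j, 0) := by
    funext v
    unfold sh
    ext <;> simp
  rw [h]
  exact (hasFDerivAt_id v).sub_const _

theorem fderiv_comp_sh {F : V → ℝ} (j : Fin 3) {v : V} (hF : DifferentiableAt ℝ F (sh j v)) (a : V) :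
    fderiv ℝ (fun v => F (sh j v)) v a = fderiv ℝ F (sh j v) a := by
  have h := hF.hasFDerivAt.comp v (sh_hasFDerivAt j v)
  have h' : HasFDerivAt (fun v => F (sh j v))
    ((fderiv ℝ F (sh j v)).comp (ContinuousLinearMap.id ℝ V)) v := h
  rw [h'.fderiv]
  rfl

/-- `scl` as a linear map -/
noncomputable def sclL : V →L[ℝ] V :=
  ((1 / 4 : ℝ) • ContinuousLinearMap.fst ℝ ℝ (ℝ × ℝ × ℝ)).prod
    (((1 / 4 : ℝ) • (ContinuousLinearMap.fst ℝ ℝ (ℝ × ℝ)).comp
      (ContinuousLinearMap.snd ℝ ℝ (ℝ × ℝ × ℝ))).prod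
      ((ContinuousLinearMap.snd ℝ ℝ (ℝ × ℝ)).comp (ContinuousLinearMap.snd ℝ ℝ (ℝ × ℝ × ℝ))))

theorem sclL_apply (v : V) : sclL v = scl v := by
  unfold sclL scl
  ext <;> simp <;> ring

theorem fderiv_comp_scl {F : V → ℝ} {v : V} (hF : DifferentiableAt ℝ F (scl v)) (a : V) :
    fderiv ℝ (fun v => F (scl v)) v a = fderiv ℝ F (scl v) (scl a) := by
  have e : (fun v => F (scl v)) = fun v => F (sclL v) := by
    funext v; rw [sclL_apply]
  rw [← sclL_apply] at hF
  have h : HasFDerivAt (fun v => F (sclL v)) ((fderiv ℝ F (sclL v)).comp sclL) v :=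
    hF.hasFDerivAt.comp v sclL.hasFDerivAt
  rw [e, h.fderiv, ContinuousLinearMap.comp_apply, sclL_apply, sclL_apply]

theorem hh_g1 (v a : V) : fderiv ℝ (D1 none) v a = hh (g1 v) a := by
  show fderiv ℝ (fun v => G1 (scl v)) v a = _
  rw [fderiv_comp_scl (G1_contDiff.differentiable (by simp)).differentiableAt, fderiv_G1]
  unfold hh g1 scl
  ring

theorem hh_g2 (v a : V) : fderiv ℝ (D2 none) v a = hh (g2 v) a := by
  show fderiv ℝ (fun v => G2 (scl v)) v a = _
  rw [fderiv_comp_scl (G2_contDiff.differentiable (by simp)).differentiableAt, fderiv_G2]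
  unfold hh g2 scl
  ring

/-! ### the frames -/

/-- cutoff functions near the holes -/
noncomputable def wA (v : V) : ℝ :=
  max 0 (1 - 2 * |v.2.2.2|) * ∑ j : Fin 3, max 0 (16 * (5 / 8 - kA (sh j v)))
noncomputable def wB (v : V) : ℝ :=
  max 0 (1 - 2 * |v.2.2.1|) * ∑ j : Fin 3, max 0 (16 * (5 / 8 - kB (sh j v)))

/-- the frames -/
noncomputable def fr : Pc → V → V × V
  | .base => fun v =>
    ((1 - wA v - wB v) • g1 v + wA v • ((0, 0, deriv alp v.2.2.1, 0) : V) +
      wB v • ((0, 0, 0, deriv alp v.2.2.2) : V),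
     (1 - wA v - wB v) • g2 v + wA v • er + wB v • ep)
  | .tA j => fun v => (gA (sh j v), er)
  | .tB j => fun v => (gB (sh j v), ep)

theorem bet'_cont : Continuous (deriv bet) := bet_contDiff.continuous_deriv (by simp)
theorem alp'_cont : Continuous (deriv alp) := alp_contDiff.continuous_deriv (by simp)
theorem gg_cont : Continuous gg := gg_contDiff.continuous

theorem sh_cont (j : Fin 3) : Continuous (sh j) := by
  unfold sh
  fun_prop

theorem g1_cont : Continuous g1 := by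
  unfold g1
  have := bet'_cont
  have := alp'_cont
  fun_prop

theorem g2_cont : Continuous g2 := by
  unfold g2
  have := bet'_cont
  have := alp'_cont
  fun_prop

theorem gA_cont : Continuous gA := by
  unfold gA
  have := bet'_cont
  have := alp'_cont
  have := gg_cont
  have := kA_cont'
  fun_prop

theorem gB_cont : Continuous gB := by
  unfold gB
  have := bet'_cont
  have := alp'_cont
  have := gg_cont
  have := kB_cont'
  fun_prop

theorem wA_cont : Continuous wA := by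
  unfold wA
  have := kA_cont'
  have := sh_cont
  fun_prop

theorem wB_cont : Continuous wB := by
  unfold wB
  have := kB_cont'
  have := sh_cont
  fun_prop

theorem fr_cont (k : Pc) : Continuous (fr k) := by
  cases k with
  | base =>
    have := wA_cont
    have := wB_cont
    have := g1_cont
    have := g2_cont
    have := alp'_cont
    show Continuous fun v : V => (_, _)
    fun_prop
  | tA j => exact (gA_cont.comp (sh_cont j)).prodMk continuous_const
  | tB j => exact (gB_cont.comp (sh_cont j)).prodMk continuous_const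

end Pool.Agent.TH619
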