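import Pool.Agent.TH619.Geo1

/-! Frames of the normal planes: they are normal. -/

set_option autoImplicit false

namespace Pool.Agent.TH619

open Set Topology Filter
open scoped InnerProductSpace Manifold ContDiff
open Pool.Agent.Helper874.Odd

/-- the tangent plane at `m` annihilates `n` (in one of the local models) -/
def Nrm (m : V × ℝ) (n n' : V) : Prop :=
  ∃ i, m ∈ Wd i ∧ ∀ a, fderiv ℝ (D1 i) m.1 a = 0 → fderiv ℝ (D2 i) m.1 a = 0 →
    hh n a = 0 ∧ hh n' a = 0

theorem BL_M0 {j : Fin 3} {v : V} (hx : |(sh j v).1| < 15 / 16) (hy : |v.2.1| < 15 / 16)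
    (hv : v ∈ ML) : sh j v ∈ M0 ∧ v.2.2 ∈ Vt := by
  have h1 := abs_x_lt hx
  have h2 := (ML_flat (v := v) (by linarith) (by linarith)).1 hv
  exact ⟨(M0_flat hx hy).2 h2, h2⟩

theorem D1_some (j : Fin 3) (k : Kd) {v : V} (h : DifferentiableAt ℝ (F1 k) (sh j v)) (a : V) :
    fderiv ℝ (D1 (some (j, k))) v a = fderiv ℝ (F1 k) (sh j v) a := fderiv_comp_sh j h a
theorem D2_some (j : Fin 3) (k : Kd) {v : V} (h : DifferentiableAt ℝ (F2 k) (sh j v)) (a : V) :
    fderiv ℝ (D2 (some (j, k))) v a = fderiv ℝ (F2 k) (sh j v) a := fderiv_comp_sh j h a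

theorem DZ1 (j : Fin 3) (v a : V) : fderiv ℝ (D1 (some (j, .Z))) v a = fderiv ℝ G1 (sh j v) a :=
  D1_some j .Z ((G1_contDiff.differentiable (by simp)).differentiableAt) a
theorem DZ2 (j : Fin 3) (v a : V) : fderiv ℝ (D2 (some (j, .Z))) v a = fderiv ℝ G2 (sh j v) a :=
  D2_some j .Z ((G2_contDiff.differentiable (by simp)).differentiableAt) a
theorem DA1 (j : Fin 3) (v a : V) : fderiv ℝ (D1 (some (j, .A))) v a = hh (gA (sh j v)) a := by
  rw [D1_some j .A ((PsA_contDiff.differentiable (by simp)).differentiableAt) a]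
  exact hh_gA _ a
theorem DB1 (j : Fin 3) (v a : V) : fderiv ℝ (D1 (some (j, .B))) v a = hh (gB (sh j v)) a := by
  rw [D1_some j .B ((PsB_contDiff.differentiable (by simp)).differentiableAt) a]
  exact hh_gB _ a
theorem DA2 (j : Fin 3) (v a : V) : fderiv ℝ (D2 (some (j, .A))) v a = a.2.2.2 := by
  have h : DifferentiableAt ℝ (F2 .A) (sh j v) := by
    show DifferentiableAt ℝ (fun v : V => v.2.2.2) (sh j v)
    fun_prop
  rw [D2_some j .A h a]
  exact fderiv_r _ a
theorem DB2 (j : Fin 3) (v a : V) : fderiv ℝ (D2 (some (j, .B))) v a = a.2.2.1 := by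
  have h : DifferentiableAt ℝ (F2 .B) (sh j v) := by
    show DifferentiableAt ℝ (fun v : V => v.2.2.1) (sh j v)
    fun_prop
  rw [D2_some j .B h a]
  exact fderiv_p _ a

theorem hh_er (a : V) : hh er a = a.2.2.2 := by
  unfold hh er; simp
theorem hh_ep (a : V) : hh ep a = a.2.2.1 := by
  unfold hh ep; simp

theorem b1z : deriv bet 1 = 0 := bet_deriv_zero (by norm_num)
theorem b2z : deriv bet 2 = 0 := bet_deriv_zero (by norm_num)

theorem alp'_one : deriv alp 1 = - b0 := by
  rw [alp_deriv_aux]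
  norm_num [b2z, b0]

theorem alp'_neg_one : deriv alp (-1) = b0 := by
  rw [alp_deriv_aux]
  norm_num [b2z, b0]

/-- at the flat squares the gradients of the defining functions span the `(p,r)` plane -/
theorem flat_ker {p r a b : ℝ} (h : (p, r) ∈ Vt)
    (h1 : (- deriv bet (1 - p) + deriv bet (1 + p + r)) * a +
      (- deriv bet (1 - r) + deriv bet (1 + p + r)) * b = 0)
    (h2 : (deriv bet (1 + p) - deriv bet (1 - p - r)) * a +
      (deriv bet (1 + r) - deriv bet (1 - p - r)) * b = 0) : a = 0 ∧ b = 0 := by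
  have hb : deriv bet 0 ≠ 0 := bet0_neg'.ne
  have hb1 := b1z
  have hb2 := b2z
  simp only [Vt, Set.mem_insert_iff, Set.mem_singleton_iff, Prod.mk.injEq] at h
  rcases h with h | h | h | h | h | h <;> obtain ⟨rfl, rfl⟩ := h <;>
    norm_num [hb1, hb2, hb] at h1 h2
  · exact ⟨h1, by simpa [h1, hb] using h2⟩
  · exact ⟨by simpa [h1, hb] using h2, h1⟩
  · exact ⟨h2, h1⟩
  · exact ⟨h2, by simpa [h2, hb] using h1⟩
  · exact ⟨by simpa [h2, hb] using h1, h2⟩
  · exact ⟨h1, h2⟩

theorem base_ker {m : V × ℝ} (hm : m ∈ Zn .base) : ∃ i, m ∈ Wd i ∧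
    ∀ a, fderiv ℝ (D1 i) m.1 a = 0 → fderiv ℝ (D2 i) m.1 a = 0 →
      hh (g1 m.1) a = 0 ∧ hh (g2 m.1) a = 0 ∧
      (|m.1.1| < 15 / 4 → |m.1.2.1| < 15 / 4 → a.2.2.1 = 0 ∧ a.2.2.2 = 0) := by
  obtain ⟨v, s⟩ := m
  obtain ⟨hs, hML, hD⟩ := hm
  simp only at hs hML hD
  subst hs
  have key : ∀ a : V, hh (g1 v) a = 0 → hh (g2 v) a = 0 → |v.1| < 15 / 4 → |v.2.1| < 15 / 4 →
      a.2.2.1 = 0 ∧ a.2.2.2 = 0 := by
    intro a h1 h2 hx hy
    have hV := (ML_flat hx hy).1 hML
    have e1 : deriv alp (v.1 / 4) = 0 := alp_deriv_zero (by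
      rw [abs_div, abs_of_pos (by norm_num : (0 : ℝ) < 4)]; linarith)
    have e2 : deriv alp (v.2.1 / 4) = 0 := alp_deriv_zero (by
      rw [abs_div, abs_of_pos (by norm_num : (0 : ℝ) < 4)]; linarith)
    unfold hh g1 at h1
    unfold hh g2 at h2
    simp only [e1, e2, zero_div, zero_mul, zero_add, add_zero] at h1 h2
    exact flat_ker (p := v.2.2.1) (r := v.2.2.2) hV h1 h2
  by_cases hn : ((v, 0) : V × ℝ) ∈ Wd none
  · refine ⟨none, hn, fun a h1 h2 => ?_⟩
    rw [hh_g1] at h1
    rw [hh_g2] at h2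
    exact ⟨h1, h2, key a h1 h2⟩
  · have hn' : ∃ j, |v.1 - cc j| ≤ 7 / 8 ∧ |v.2.1| ≤ 7 / 8 := by
      by_contra hcon
      apply hn
      intro j hj
      exact hcon ⟨j, hj⟩
    obtain ⟨j, hjx, hjy⟩ := hn'
    have hx' : |(sh j v).1| < 15 / 16 := lt_of_le_of_lt hjx (by norm_num)
    have hy' : |v.2.1| < 15 / 16 := lt_of_le_of_lt hjy (by norm_num)
    obtain ⟨hM0, hV⟩ := BL_M0 hx' hy' hML
    have hx4 := abs_x_lt hx'
    have e1 : deriv alp (v.1 / 4) = 0 := alp_deriv_zero (by
      rw [abs_div, abs_of_pos (by norm_num : (0 : ℝ) < 4)]; linarith)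
    have e2 : deriv alp (v.2.1 / 4) = 0 := alp_deriv_zero (by
      rw [abs_div, abs_of_pos (by norm_num : (0 : ℝ) < 4)]; linarith)
    have hC : sh j v ∉ Cb := by
      rintro ⟨h1, h2⟩
      have := (near_facts (v := sh j v) (by linarith) (by linarith)).2.2.2.2.2.2.2.2.2.2.2.2.1
      exact this hM0
    have fin : ∀ a : V, (a.2.2.1 = 0 ∧ a.2.2.2 = 0) → hh (g1 v) a = 0 ∧ hh (g2 v) a = 0 ∧
        (|v.1| < 15 / 4 → |v.2.1| < 15 / 4 → a.2.2.1 = 0 ∧ a.2.2.2 = 0) := by
      rintro a ⟨ha, hb⟩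
      refine ⟨?_, ?_, fun _ _ => ⟨ha, hb⟩⟩
      · unfold hh g1
        simp [e1, ha, hb]
      · unfold hh g2
        simp [e2, ha, hb]
    by_cases hA : sh j v ∈ Abig
    · refine ⟨some (j, .A), ⟨⟨hx', hy'⟩, ?_, ?_, hC, ?_⟩, fun a h1 h2 => fin a ?_⟩
      · exact lt_of_le_of_lt hA.2.2 (by norm_num)
      · rw [hA.1]; norm_num
      · rintro ⟨-, h3⟩
        have h4 : v.2.2.1 = 0 := h3.1
        have h5 : v.2.2.2 = 0 := hA.1
        have h6 : v.2.2 = (0, 0) := Prod.ext h4 h5
        rw [h6] at hV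
        simp [Vt] at hV
      · rw [DA1] at h1
        rw [DA2] at h2
        refine ⟨?_, h2⟩
        have hr : v.2.2.2 = 0 := hA.1
        have hp : v.2.2.1 = 1 ∨ v.2.2.1 = -1 := by
          have h6 : v.2.2 = (v.2.2.1, 0) := Prod.ext rfl hr
          rw [h6] at hV
          simp only [Vt, Set.mem_insert_iff, Set.mem_singleton_iff, Prod.mk.injEq] at hV
          rcases hV with h | h | h | h | h | h
          · exact Or.inl h.1
          · exact absurd h.2 (by norm_num)
          · exact absurd h.2 (by norm_num)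
          · exact Or.inr h.1
          · exact absurd h.2 (by norm_num)
          · exact absurd h.2 (by norm_num)
        have hkA : 9 / 16 ≤ kA (sh j v) := by
          by_contra hcon
          push Not at hcon
          apply hD j
          left
          refine ⟨hr, ?_, hcon⟩
          show |v.2.2.1| = 1
          rcases hp with h | h <;> rw [h] <;> norm_num
        have hbz : deriv bet (kA (sh j v) - 1 / 2) = 0 := bet_deriv_zero (by linarith)
        unfold hh gA at h1
        simp only [hbz, zero_mul, zero_add, add_zero] at h1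
        have ha' : deriv alp v.2.2.1 ≠ 0 := by
          rcases hp with h | h
          · rw [h, alp'_one]; exact neg_ne_zero.2 b0_neg.ne
          · rw [h, alp'_neg_one]; exact b0_neg.ne
        exact (mul_eq_zero.1 h1).resolve_left ha'
    · by_cases hB : sh j v ∈ Bbig
      · refine ⟨some (j, .B), ⟨⟨hx', hy'⟩, ?_, ?_, hC, ?_⟩, fun a h1 h2 => fin a ?_⟩
        · exact lt_of_le_of_lt hB.2.2 (by norm_num)
        · rw [hB.1]; norm_num
        · rintro ⟨-, h3⟩
          have h4 : v.2.2.2 = 0 := h3.1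
          have h5 : v.2.2.1 = 0 := hB.1
          have h6 : v.2.2 = (0, 0) := Prod.ext h5 h4
          rw [h6] at hV
          simp [Vt] at hV
        · rw [DB1] at h1
          rw [DB2] at h2
          refine ⟨h2, ?_⟩
          have hr : v.2.2.1 = 0 := hB.1
          have hp : v.2.2.2 = 1 ∨ v.2.2.2 = -1 := by
            have h6 : v.2.2 = (0, v.2.2.2) := Prod.ext hr rfl
            rw [h6] at hV
            simp only [Vt, Set.mem_insert_iff, Set.mem_singleton_iff, Prod.mk.injEq] at hV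
            rcases hV with h | h | h | h | h | h
            · exact absurd h.1 (by norm_num)
            · exact Or.inl h.2
            · exact absurd h.1 (by norm_num)
            · exact absurd h.1 (by norm_num)
            · exact Or.inr h.2
            · exact absurd h.1 (by norm_num)
          have hkA : 9 / 16 ≤ kB (sh j v) := by
            by_contra hcon
            push Not at hcon
            apply hD j
            right
            refine ⟨hr, ?_, hcon⟩
            show |v.2.2.2| = 1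
            rcases hp with h | h <;> rw [h] <;> norm_num
          have hbz : deriv bet (kB (sh j v) - 1 / 2) = 0 := bet_deriv_zero (by linarith)
          unfold hh gB at h1
          simp only [hbz, zero_mul, zero_add, add_zero] at h1
          have ha' : deriv alp v.2.2.2 ≠ 0 := by
            rcases hp with h | h
            · rw [h, alp'_one]; exact neg_ne_zero.2 b0_neg.ne
            · rw [h, alp'_neg_one]; exact b0_neg.ne
          exact (mul_eq_zero.1 h1).resolve_left ha'
      · refine ⟨some (j, .Z), ⟨⟨hx', hy'⟩, hC, hA, hB⟩, fun a h1 h2 => fin a ?_⟩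
        rw [DZ1, fderiv_G1] at h1
        rw [DZ2, fderiv_G2] at h2
        rw [alp_deriv_zero (le_of_lt hx'), zero_mul, zero_add] at h1
        rw [alp_deriv_zero (show |(sh j v).2.1| ≤ 15 / 16 from le_of_lt hy'), zero_mul, zero_add] at h2
        exact flat_ker (p := v.2.2.1) (r := v.2.2.2) hV h1 h2

theorem qf_deriv_16 : deriv qf (1 / 16) = 0 := by
  apply IsLocalMin.deriv_eq_zero
  have h0 : qf (1 / 16) = 0 := qf_eq_zero le_rfl
  filter_upwards [Ioi_mem_nhds (show (0 : ℝ) < 1 / 16 by norm_num)] with x hx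
  rw [h0]
  exact qf_nonneg hx

theorem lab_ne {v : V} (hA : v ∈ SA) (hD : v ∉ DA) (hB : v ∈ SB) : lab v ≠ 0 := by
  rcases SA_SB hA hB with h | h
  · exfalso
    apply hD
    rw [h]
    refine ⟨by unfold X1; norm_num, rfl, ?_⟩
    rw [nz_pt]; norm_num
  · rw [h]; exact lab_pt

theorem tA_ker {j : Fin 3} {m : V × ℝ} (hm : m ∈ Zn (.tA j)) :
    Nrm m (gA (sh j m.1)) er := by
  obtain ⟨v, s⟩ := m
  obtain ⟨hs, hA, hDA⟩ := hm
  simp only at hs hA hDA
  have hk : kA (sh j v) < 5 / 8 := lt_of_le_of_lt hA.2.1 (by norm_num)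
  obtain ⟨hx, hy⟩ := abs_lt_of_kA hk
  by_cases hC : sh j v ∈ Cb
  · obtain ⟨hz, hw⟩ := hC
    have hn := near_facts (v := sh j v) (by linarith) (by linarith)
    obtain ⟨n1, n2, n3, n4, n5, n6, n7, n8, n9, n10, n11, n12, n13, n14, n15⟩ := hn
    obtain ⟨hX1, hr⟩ := n14.1 hA
    have hz' : nz (sh j v) = 1 / 16 := by
      apply le_antisymm hz
      by_contra hcon
      exact hDA ⟨hX1, hr, not_le.1 hcon⟩
    refine ⟨some (j, .C), ⟨⟨hx, hy⟩, ?_, ?_, ?_⟩, fun a h1 h2 => ?_⟩
    · show 0 < nz (sh j v)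
      rw [hz']; norm_num
    · show nz (sh j v) < 1 / 8
      linarith
    · show nw (sh j v) < 1 / 8
      linarith
    · obtain ⟨t, ht1, ht2⟩ := orAC_polar (X2 (sh j v)) (sh j v).2.2.1
      have hC := fderiv_C (v := sh j v) (P := nz (sh j v)) (t := t) (by rw [hz']; norm_num) ht1 ht2 a
      have hsm := FC_contDiffAt (v := sh j v) (by rw [hz']; norm_num)
      rw [D1_some j .C (hsm.1.differentiableAt (by simp)) a, hC.1, hz', qf_deriv_16,
        qf_eq_zero le_rfl] at h1
      rw [D2_some j .C (hsm.2.differentiableAt (by simp)) a, hC.2, hz', qf_deriv_16,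
        qf_eq_zero le_rfl] at h2
      simp only [zero_mul, zero_div, add_zero, sub_zero] at h1 h2
      refine ⟨?_, by rw [hh_er]; exact h1⟩
      have e5 := abs_lt.1 n5
      unfold hh gA
      rw [n8, hX1, alp_deriv_zero (by linarith), gg_one (by linarith), gg_one (by linarith)]
      simp only [zero_add, sub_self, mul_one, zero_mul, add_zero]
      linear_combination (deriv bet 0) * h2
  · refine ⟨some (j, .A), ⟨⟨hx, hy⟩, hk, ?_, hC, ?_⟩, fun a h1 h2 => ?_⟩
    · show |(sh j v).2.2.2| < 1 / 2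
      rw [hA.1]; norm_num
    · rintro ⟨h3, h4⟩
      simp only at h3
      exact lab_ne hA hDA h4 (hs ▸ h3)
    · rw [DA1] at h1
      rw [DA2] at h2
      exact ⟨h1, by rw [hh_er]; exact h2⟩

theorem tB_ker {j : Fin 3} {m : V × ℝ} (hm : m ∈ Zn (.tB j)) :
    Nrm m (gB (sh j m.1)) ep := by
  obtain ⟨v, s⟩ := m
  obtain ⟨hs, hB, hDB⟩ := hm
  simp only at hs hB hDB
  have hk : kB (sh j v) < 5 / 8 := lt_of_le_of_lt hB.2.1 (by norm_num)
  obtain ⟨hx, hy⟩ := abs_lt_of_kB hk
  by_cases hC : sh j v ∈ Cb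
  · obtain ⟨hz, hw⟩ := hC
    have hn := near_facts (v := sh j v) (by linarith) (by linarith)
    obtain ⟨n1, n2, n3, n4, n5, n6, n7, n8, n9, n10, n11, n12, n13, n14, n15⟩ := hn
    obtain ⟨hX2, hp⟩ := n15.1 hB
    have hw' : nw (sh j v) = 1 / 16 := by
      apply le_antisymm hw
      by_contra hcon
      exact hDB ⟨hX2, hp, not_le.1 hcon⟩
    refine ⟨some (j, .D), ⟨⟨hx, hy⟩, ?_, ?_, ?_⟩, fun a h1 h2 => ?_⟩
    · show 0 < nw (sh j v)
      rw [hw']; norm_num
    · show nz (sh j v) < 1 / 8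
      linarith
    · show nw (sh j v) < 1 / 8
      linarith
    · obtain ⟨t, ht1, ht2⟩ := orAC_polar (X1 (sh j v)) (-(sh j v).2.2.2)
      rw [neg_sq] at ht1 ht2
      have ht2' : (sh j v).2.2.2 = -(nw (sh j v) * Real.sin t) := by
        have : -(sh j v).2.2.2 = nw (sh j v) * Real.sin t := ht2
        linarith
      have hC := fderiv_D (v := sh j v) (Q := nw (sh j v)) (t := t) (by rw [hw']; norm_num) ht1 ht2' a
      have hsm := FD_contDiffAt (v := sh j v) (by rw [hw']; norm_num)
      rw [D1_some j .D (hsm.1.differentiableAt (by simp)) a, hC.1, hw', qf_deriv_16,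
        qf_eq_zero le_rfl] at h1
      rw [D2_some j .D (hsm.2.differentiableAt (by simp)) a, hC.2, hw', qf_deriv_16,
        qf_eq_zero le_rfl] at h2
      simp only [zero_mul, zero_div, add_zero, sub_zero] at h1 h2
      refine ⟨?_, by rw [hh_ep]; exact h1⟩
      have e5 := abs_lt.1 n5
      have e6 : gg ((sh j v).1 - 1 / 4) = -1 := by
        have : (sh j v).1 - 1 / 4 = -(1 / 4 - (sh j v).1) := by ring
        rw [this, gg_neg, gg_one (by linarith)]
      unfold hh gB
      rw [n9, hX2, alp_deriv_zero (by linarith), e6, gg_one (by linarith)]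
      simp only [zero_add, sub_self, mul_one, zero_mul, add_zero]
      linear_combination (deriv bet 0) * h2
  · refine ⟨some (j, .B), ⟨⟨hx, hy⟩, hk, ?_, hC, ?_⟩, fun a h1 h2 => ?_⟩
    · show |(sh j v).2.2.1| < 1 / 2
      rw [hB.1]; norm_num
    · rintro ⟨h3, h4⟩
      simp only at h3
      have hDA' : sh j v ∉ DA := fun h => hC (DA_facts h).2.1
      exact lab_ne h4 hDA' hB (by rw [← h3, hs])
    · rw [DB1] at h1
      rw [DB2] at h2
      exact ⟨h1, by rw [hh_ep]; exact h2⟩

end Pool.Agent.TH619
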