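import Pool.Agent.TH619.Geo2

/-! Frames of the normal planes: independence and agreement. -/

set_option autoImplicit false

namespace Pool.Agent.TH619

open Set Topology Filter
open scoped InnerProductSpace Manifold ContDiff
open Pool.Agent.Helper874.Odd

/-- linear independence -/
def Ind (n n' : V) : Prop := ∀ a b : ℝ, a • n + b • n' = 0 → a = 0 ∧ b = 0

theorem sumA_eq {j : Fin 3} {v : V} (h : kA (sh j v) < 5 / 8) :
    ∑ i : Fin 3, max 0 (16 * (5 / 8 - kA (sh i v))) = 16 * (5 / 8 - kA (sh j v)) := by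
  rw [Finset.sum_eq_single j]
  · rw [max_eq_right]; linarith
  · intro i _ hij
    rw [max_eq_left]
    by_contra hcon
    push Not at hcon
    have h1 : kA (sh i v) < 5 / 8 := by linarith
    have h2 := (kA_bd h).1
    have h3 := (kA_bd h1).1
    have h4 := far (Ne.symm hij) (v := v) (by linarith)
    linarith
  · intro h; exact absurd (Finset.mem_univ _) h

theorem sumB_eq {j : Fin 3} {v : V} (h : kB (sh j v) < 5 / 8) :
    ∑ i : Fin 3, max 0 (16 * (5 / 8 - kB (sh i v))) = 16 * (5 / 8 - kB (sh j v)) := by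
  rw [Finset.sum_eq_single j]
  · rw [max_eq_right]; linarith
  · intro i _ hij
    rw [max_eq_left]
    by_contra hcon
    push Not at hcon
    have h1 : kB (sh i v) < 5 / 8 := by linarith
    have h2 := (kB_bd h).1
    have h3 := (kB_bd h1).1
    have h4 := far (Ne.symm hij) (v := v) (by linarith)
    linarith
  · intro h; exact absurd (Finset.mem_univ _) h

theorem wA_zero {v : V} (h : ∀ j, 5 / 8 ≤ kA (sh j v)) : wA v = 0 := by
  unfold wA
  rw [Finset.sum_eq_zero, mul_zero]
  intro j _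
  rw [max_eq_left]
  have := h j
  linarith

theorem wB_zero {v : V} (h : ∀ j, 5 / 8 ≤ kB (sh j v)) : wB v = 0 := by
  unfold wB
  rw [Finset.sum_eq_zero, mul_zero]
  intro j _
  rw [max_eq_left]
  have := h j
  linarith

theorem wA_zero' {v : V} (h : 1 ≤ |v.2.2.2|) : wA v = 0 := by
  unfold wA
  rw [max_eq_left, zero_mul]
  linarith

theorem wB_zero' {v : V} (h : 1 ≤ |v.2.2.1|) : wB v = 0 := by
  unfold wB
  rw [max_eq_left, zero_mul]
  linarith

theorem wA_val {j : Fin 3} {v : V} (h : kA (sh j v) < 5 / 8) (hr : v.2.2.2 = 0) :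
    wA v = 16 * (5 / 8 - kA (sh j v)) := by
  unfold wA
  rw [sumA_eq h, hr]
  norm_num

theorem wB_val {j : Fin 3} {v : V} (h : kB (sh j v) < 5 / 8) (hr : v.2.2.1 = 0) :
    wB v = 16 * (5 / 8 - kB (sh j v)) := by
  unfold wB
  rw [sumB_eq h, hr]
  norm_num

/-- the cutoffs on the base piece -/
theorem w_cases {v : V} (hv : v ∈ BL) : (wA v = 0 ∧ wB v = 0) ∨
    ((v.2.2 = (1, 0) ∨ v.2.2 = (-1, 0)) ∧ 0 < wA v ∧ wA v ≤ 1 ∧ wB v = 0 ∧
      ∃ j, kA (sh j v) < 5 / 8) ∨
    ((v.2.2 = (0, 1) ∨ v.2.2 = (0, -1)) ∧ 0 < wB v ∧ wB v ≤ 1 ∧ wA v = 0 ∧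
      ∃ j, kB (sh j v) < 5 / 8) := by
  obtain ⟨hML, hD⟩ := hv
  have hVt : ∀ {x y : ℝ}, (x, y) ∈ Vt → (x = 1 ∧ y = 0 ∨ x = -1 ∧ y = 0) ∨
      (x = 0 ∧ y = 1 ∨ x = 0 ∧ y = -1) ∨ (1 ≤ |x| ∧ 1 ≤ |y|) := by
    intro x y h
    simp only [Vt, Set.mem_insert_iff, Set.mem_singleton_iff, Prod.mk.injEq] at h
    rcases h with h | h | h | h | h | h <;> obtain ⟨rfl, rfl⟩ := h <;> norm_num
  by_cases hA : ∃ j, kA (sh j v) < 5 / 8
  · obtain ⟨j, hj⟩ := hA
    obtain ⟨hx, hy⟩ := abs_lt_of_kA hj
    have hx4 := abs_x_lt hx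
    have hV := (ML_flat (v := v) (by linarith) (by
      have : |v.2.1| < 15 / 16 := hy
      linarith)).1 hML
    rcases hVt (x := v.2.2.1) (y := v.2.2.2) hV with h | h | h
    · right; left
      have hr : v.2.2.2 = 0 := by rcases h with h | h <;> exact h.2
      have hp : |v.2.2.1| = 1 := by rcases h with h | h <;> rw [h.1] <;> norm_num
      have hk : 9 / 16 ≤ kA (sh j v) := by
        by_contra hcon
        push Not at hcon
        exact hD j (Or.inl ⟨hr, hp, hcon⟩)
      rw [wA_val hj hr, wB_zero' hp.ge]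
      refine ⟨?_, by linarith, by linarith, rfl, j, hj⟩
      rcases h with h | h
      · left; exact Prod.ext h.1 h.2
      · right; exact Prod.ext h.1 h.2
    · -- `(0, ±1)`
      have hr : |v.2.2.2| = 1 := by rcases h with h | h <;> rw [h.2] <;> norm_num
      have hp : v.2.2.1 = 0 := by rcases h with h | h <;> exact h.1
      by_cases hB : ∃ j, kB (sh j v) < 5 / 8
      · obtain ⟨i, hi⟩ := hB
        right; right
        have hk : 9 / 16 ≤ kB (sh i v) := by
          by_contra hcon
          push Not at hcon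
          exact hD i (Or.inr ⟨hp, hr, hcon⟩)
        rw [wB_val hi hp, wA_zero' hr.ge]
        refine ⟨?_, by linarith, by linarith, rfl, i, hi⟩
        rcases h with h | h
        · left; exact Prod.ext h.1 h.2
        · right; exact Prod.ext h.1 h.2
      · push Not at hB
        exact Or.inl ⟨wA_zero' hr.ge, wB_zero hB⟩
    · exact Or.inl ⟨wA_zero' h.2, wB_zero' h.1⟩
  · push Not at hA
    by_cases hB : ∃ j, kB (sh j v) < 5 / 8
    · obtain ⟨j, hj⟩ := hB
      obtain ⟨hx, hy⟩ := abs_lt_of_kB hj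
      have hx4 := abs_x_lt hx
      have hV := (ML_flat (v := v) (by linarith) (by
        have : |v.2.1| < 15 / 16 := hy
        linarith)).1 hML
      rcases hVt (x := v.2.2.1) (y := v.2.2.2) hV with h | h | h
      · have hp : |v.2.2.1| = 1 := by rcases h with h | h <;> rw [h.1] <;> norm_num
        exact Or.inl ⟨wA_zero hA, wB_zero' hp.ge⟩
      · right; right
        have hr : |v.2.2.2| = 1 := by rcases h with h | h <;> rw [h.2] <;> norm_num
        have hp : v.2.2.1 = 0 := by rcases h with h | h <;> exact h.1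
        have hk : 9 / 16 ≤ kB (sh j v) := by
          by_contra hcon
          push Not at hcon
          exact hD j (Or.inr ⟨hp, hr, hcon⟩)
        rw [wB_val hj hp]
        refine ⟨?_, by linarith, by linarith, wA_zero hA, j, hj⟩
        rcases h with h | h
        · left; exact Prod.ext h.1 h.2
        · right; exact Prod.ext h.1 h.2
      · exact Or.inl ⟨wA_zero hA, wB_zero' h.1⟩
    · push Not at hB
      exact Or.inl ⟨wA_zero hA, wB_zero hB⟩

theorem hh_add_left (l l' v : V) : hh (l + l') v = hh l v + hh l' v := by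
  unfold hh
  simp only [Prod.fst_add, Prod.snd_add]
  ring

theorem hh_smul_left (c : ℝ) (l v : V) : hh (c • l) v = c * hh l v := by
  unfold hh
  simp only [Prod.smul_fst, Prod.smul_snd, smul_eq_mul]
  ring

/-- the frames are normal -/
theorem fr_nrm {k : Pc} {m : V × ℝ} (hm : m ∈ Zn k) : Nrm m (fr k m.1).1 (fr k m.1).2 := by
  cases k with
  | tA j => exact tA_ker hm
  | tB j => exact tB_ker hm
  | base =>
    obtain ⟨i, hi, h⟩ := base_ker hm
    refine ⟨i, hi, fun a h1 h2 => ?_⟩
    obtain ⟨e1, e2, e3⟩ := h a h1 h2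
    show hh ((1 - wA m.1 - wB m.1) • g1 m.1 + wA m.1 • ((0, 0, deriv alp m.1.2.2.1, 0) : V) +
      wB m.1 • ((0, 0, 0, deriv alp m.1.2.2.2) : V)) a = 0 ∧
      hh ((1 - wA m.1 - wB m.1) • g2 m.1 + wA m.1 • er + wB m.1 • ep) a = 0
    simp only [hh_add_left, hh_smul_left, e1, e2, hh_er, hh_ep]
    rcases w_cases hm.2 with ⟨ha, hb⟩ | ⟨-, -, -, hb, j, hj⟩ | ⟨-, -, -, ha, j, hj⟩
    · rw [ha, hb]; simp
    · obtain ⟨hx, hy⟩ := abs_lt_of_kA hj
      have hx4 := abs_x_lt hx
      obtain ⟨e4, e5⟩ := e3 (by linarith) (by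
        have : |m.1.2.1| < 15 / 16 := hy
        linarith)
      rw [hb, e4, e5]
      unfold hh
      simp [e4, e5]
    · obtain ⟨hx, hy⟩ := abs_lt_of_kB hj
      have hx4 := abs_x_lt hx
      obtain ⟨e4, e5⟩ := e3 (by linarith) (by
        have : |m.1.2.1| < 15 / 16 := hy
        linarith)
      rw [ha, e4, e5]
      unfold hh
      simp [e4, e5]

/-- the frames are frames -/
theorem fr_ind {k : Pc} {m : V × ℝ} (hm : m ∈ Zn k) : Ind (fr k m.1).1 (fr k m.1).2 := by
  cases k with
  | tA j =>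
    intro a b hab
    have hA := hm.2.1
    have hne : gA (sh j m.1) ≠ 0 := by
      intro h0
      have hf := SA_facts hA
      -- `reg_A`
      obtain ⟨a', c', hac⟩ := reg_A (v := sh j m.1) (lt_of_le_of_lt hA.2.1 (by norm_num)) hA.2.2 hA.1
      apply hac
      unfold Wedge
      have e : ∀ w, fderiv ℝ (F1 .A) (sh j m.1) w = 0 := by
        intro w
        have := hh_gA (sh j m.1) w
        rw [h0] at this
        show fderiv ℝ PsA (sh j m.1) w = 0
        rw [this]
        unfold hh
        simp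
      rw [e, e]
      ring
    change a • gA (sh j m.1) + b • er = 0 at hab
    have h1 : a * (gA (sh j m.1)).1 = 0 := by simpa [er] using congrArg (fun v : V => v.1) hab
    have h2 : a * (gA (sh j m.1)).2.1 = 0 := by simpa [er] using congrArg (fun v : V => v.2.1) hab
    have h3 : a * (gA (sh j m.1)).2.2.1 = 0 := by
      simpa [er] using congrArg (fun v : V => v.2.2.1) hab
    have h5 : (gA (sh j m.1)).2.2.2 = 0 := rfl
    have h4 : b = 0 := by
      have := congrArg (fun v : V => v.2.2.2) hab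
      simpa [er, h5] using this
    refine ⟨?_, h4⟩
    by_contra ha
    apply hne
    have e1 := (mul_eq_zero.1 h1).resolve_left ha
    have e2 := (mul_eq_zero.1 h2).resolve_left ha
    have e3 := (mul_eq_zero.1 h3).resolve_left ha
    exact Prod.ext e1 (Prod.ext e2 (Prod.ext e3 h5))
  | tB j =>
    intro a b hab
    have hA := hm.2.1
    have hne : gB (sh j m.1) ≠ 0 := by
      intro h0
      obtain ⟨a', c', hac⟩ := reg_B (v := sh j m.1) (lt_of_le_of_lt hA.2.1 (by norm_num)) hA.2.2 hA.1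
      apply hac
      unfold Wedge
      have e : ∀ w, fderiv ℝ (F1 .B) (sh j m.1) w = 0 := by
        intro w
        have := hh_gB (sh j m.1) w
        rw [h0] at this
        show fderiv ℝ PsB (sh j m.1) w = 0
        rw [this]
        unfold hh
        simp
      rw [e, e]
      ring
    change a • gB (sh j m.1) + b • ep = 0 at hab
    have h1 : a * (gB (sh j m.1)).1 = 0 := by simpa [ep] using congrArg (fun v : V => v.1) hab
    have h2 : a * (gB (sh j m.1)).2.1 = 0 := by simpa [ep] using congrArg (fun v : V => v.2.1) hab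
    have h3 : a * (gB (sh j m.1)).2.2.2 = 0 := by
      simpa [ep] using congrArg (fun v : V => v.2.2.2) hab
    have h5 : (gB (sh j m.1)).2.2.1 = 0 := rfl
    have h4 : b = 0 := by
      have := congrArg (fun v : V => v.2.2.1) hab
      simpa [ep, h5] using this
    refine ⟨?_, h4⟩
    by_contra ha
    apply hne
    have e1 := (mul_eq_zero.1 h1).resolve_left ha
    have e2 := (mul_eq_zero.1 h2).resolve_left ha
    have e3 := (mul_eq_zero.1 h3).resolve_left ha
    exact Prod.ext e1 (Prod.ext e2 (Prod.ext h5 e3))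
  | base =>
    obtain ⟨v, s⟩ := m
    intro a b hab
    change a • ((1 - wA v - wB v) • g1 v + wA v • ((0, 0, deriv alp v.2.2.1, 0) : V) +
      wB v • ((0, 0, 0, deriv alp v.2.2.2) : V)) +
      b • ((1 - wA v - wB v) • g2 v + wA v • er + wB v • ep) = 0 at hab
    rcases w_cases hm.2 with ⟨ha, hb⟩ | ⟨hv, ha0, ha1, hb, -⟩ | ⟨hv, hb0, hb1, ha, -⟩
    · simp only at ha hb
      rw [ha, hb] at hab
      simp only [sub_zero, one_smul, zero_smul, add_zero] at hab
      obtain ⟨a', c', hac⟩ := reg_Z (v := scl v) hm.2.1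
      have hG : ∀ w : V, fderiv ℝ G1 (scl v) w = hh (g1 v) (4 * w.1, 4 * w.2.1, w.2.2) := by
        intro w
        rw [← hh_g1]
        show _ = fderiv ℝ (fun v => G1 (scl v)) v _
        rw [fderiv_comp_scl (G1_contDiff.differentiable (by simp)).differentiableAt]
        congr 1
        unfold scl
        ext <;> simp
      have hG' : ∀ w : V, fderiv ℝ G2 (scl v) w = hh (g2 v) (4 * w.1, 4 * w.2.1, w.2.2) := by
        intro w
        rw [← hh_g2]
        show _ = fderiv ℝ (fun v => G2 (scl v)) v _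
        rw [fderiv_comp_scl (G2_contDiff.differentiable (by simp)).differentiableAt]
        congr 1
        unfold scl
        ext <;> simp
      have key : ∀ w : V, a * hh (g1 v) w + b * hh (g2 v) w = 0 := by
        intro w
        rw [← hh_smul_left, ← hh_smul_left, ← hh_add_left, hab]
        unfold hh
        simp
      change fderiv ℝ G1 (scl v) a' * fderiv ℝ G2 (scl v) c' -
        fderiv ℝ G1 (scl v) c' * fderiv ℝ G2 (scl v) a' ≠ 0 at hac
      rw [hG, hG, hG', hG'] at hac
      have k1 := key (4 * a'.1, 4 * a'.2.1, a'.2.2)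
      have k2 := key (4 * c'.1, 4 * c'.2.1, c'.2.2)
      set p1 := hh (g1 v) (4 * a'.1, 4 * a'.2.1, a'.2.2)
      set p2 := hh (g2 v) (4 * a'.1, 4 * a'.2.1, a'.2.2)
      set q1 := hh (g1 v) (4 * c'.1, 4 * c'.2.1, c'.2.2)
      set q2 := hh (g2 v) (4 * c'.1, 4 * c'.2.1, c'.2.2)
      constructor
      · have : a * (p1 * q2 - q1 * p2) = 0 := by linear_combination q2 * k1 - p2 * k2
        exact (mul_eq_zero.1 this).resolve_right hac
      · have : b * (p1 * q2 - q1 * p2) = 0 := by linear_combination p1 * k2 - q1 * k1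
        exact (mul_eq_zero.1 this).resolve_right hac
    · simp only at ha0 ha1 hb hv
      have hb0' := b0_neg
      have hp := congrArg (fun v : V => v.2.2.1) hab
      have hr := congrArg (fun v : V => v.2.2.2) hab
      rw [hb] at hp hr
      generalize wA v = w at hp hr ha0 ha1
      obtain ⟨x, y, p, r⟩ := v
      have e0 : deriv bet 0 = b0 := rfl
      rcases hv with hv | hv <;> obtain ⟨rfl, rfl⟩ := Prod.mk.inj hv
      · norm_num [g1, g2, er, ep, b1z, b2z, alp'_one, e0] at hp hr
        have hw : (1 - w) * (-b0) + w > 0 := by nlinarith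
        have hbz : b = 0 := by
          rcases hr with h | h
          · exact h
          · exfalso; linarith
        refine ⟨?_, hbz⟩
        rw [hbz] at hp
        have : a * b0 = 0 := by linear_combination -hp
        exact (mul_eq_zero.1 this).resolve_right hb0'.ne
      · norm_num [g1, g2, er, ep, b1z, b2z, alp'_neg_one, e0] at hp hr
        have hw : w - (1 - w) ^ 2 * b0 ≠ 0 := by nlinarith [sq_nonneg (1 - w)]
        have hbz : b * (w - (1 - w) ^ 2 * b0) = 0 := by linear_combination hr - (1 - w) * hp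
        have hbz := (mul_eq_zero.1 hbz).resolve_right hw
        refine ⟨?_, hbz⟩
        rw [hbz] at hp
        have : a * b0 = 0 := by linear_combination hp
        exact (mul_eq_zero.1 this).resolve_right hb0'.ne
    · simp only at hb0 hb1 ha hv
      have hb0' := b0_neg
      have hp := congrArg (fun v : V => v.2.2.1) hab
      have hr := congrArg (fun v : V => v.2.2.2) hab
      rw [ha] at hp hr
      generalize wB v = w at hp hr hb0 hb1
      obtain ⟨x, y, p, r⟩ := v
      have e0 : deriv bet 0 = b0 := rfl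
      rcases hv with hv | hv <;> obtain ⟨rfl, rfl⟩ := Prod.mk.inj hv
      · norm_num [g1, g2, er, ep, b1z, b2z, alp'_one, e0] at hp hr
        have hw : (1 - w) * (-b0) + w > 0 := by nlinarith
        have hbz : b = 0 := by
          rcases hp with h | h
          · exact h
          · exfalso; linarith
        refine ⟨?_, hbz⟩
        rw [hbz] at hr
        have : a * b0 = 0 := by linear_combination -hr
        exact (mul_eq_zero.1 this).resolve_right hb0'.ne
      · norm_num [g1, g2, er, ep, b1z, b2z, alp'_neg_one, e0] at hp hr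
        have hw : w - (1 - w) ^ 2 * b0 ≠ 0 := by nlinarith [sq_nonneg (1 - w)]
        have hbz : b * (w - (1 - w) ^ 2 * b0) = 0 := by linear_combination hp - (1 - w) * hr
        have hbz := (mul_eq_zero.1 hbz).resolve_right hw
        refine ⟨?_, hbz⟩
        rw [hbz] at hr
        have : a * b0 = 0 := by linear_combination hr
        exact (mul_eq_zero.1 this).resolve_right hb0'.ne

/-! ### agreement -/

theorem Zn_bA {j : Fin 3} {m : V × ℝ} (h1 : m ∈ Zn .base) (h2 : m ∈ Zn (.tA j)) :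
    kA (sh j m.1) = 9 / 16 ∧ |m.1.2.2.1| = 1 ∧ m.1.2.2.2 = 0 := by
  obtain ⟨v, s⟩ := m
  obtain ⟨-, hML, -⟩ := h1
  obtain ⟨-, hA, -⟩ := h2
  obtain ⟨hx, hy⟩ := abs_lt_of_kA (v := sh j v) (lt_of_le_of_lt hA.2.1 (by norm_num))
  obtain ⟨hM, -⟩ := BL_M0 hx hy hML
  obtain ⟨h3, h4⟩ := (SA_facts hA).2.2 hM
  exact ⟨h3, h4, hA.1⟩

theorem Zn_bB {j : Fin 3} {m : V × ℝ} (h1 : m ∈ Zn .base) (h2 : m ∈ Zn (.tB j)) :
    kB (sh j m.1) = 9 / 16 ∧ |m.1.2.2.2| = 1 ∧ m.1.2.2.1 = 0 := by
  obtain ⟨v, s⟩ := m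
  obtain ⟨-, hML, -⟩ := h1
  obtain ⟨-, hA, -⟩ := h2
  obtain ⟨hx, hy⟩ := abs_lt_of_kB (v := sh j v) (lt_of_le_of_lt hA.2.1 (by norm_num))
  obtain ⟨hM, -⟩ := BL_M0 hx hy hML
  obtain ⟨h3, h4⟩ := (SB_facts hA).2.2 hM
  exact ⟨h3, h4, hA.1⟩

theorem fr_bA {j : Fin 3} {m : V × ℝ} (h1 : m ∈ Zn .base) (h2 : m ∈ Zn (.tA j)) :
    fr .base m.1 = fr (.tA j) m.1 := by
  obtain ⟨hk, hp, hr⟩ := Zn_bA h1 h2
  have hw : wA m.1 = 1 := by rw [wA_val (j := j) (by rw [hk]; norm_num) hr, hk]; norm_num
  have hw' : wB m.1 = 0 := wB_zero' hp.ge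
  have hz : deriv bet (kA (sh j m.1) - 1 / 2) = 0 := bet_deriv_zero (by rw [hk]; norm_num)
  show ((1 - wA m.1 - wB m.1) • g1 m.1 + wA m.1 • ((0, 0, deriv alp m.1.2.2.1, 0) : V) +
      wB m.1 • ((0, 0, 0, deriv alp m.1.2.2.2) : V),
     (1 - wA m.1 - wB m.1) • g2 m.1 + wA m.1 • er + wB m.1 • ep) = (gA (sh j m.1), er)
  rw [hw, hw']
  unfold gA
  rw [hz]
  simp [sh]

theorem fr_bB {j : Fin 3} {m : V × ℝ} (h1 : m ∈ Zn .base) (h2 : m ∈ Zn (.tB j)) :
    fr .base m.1 = fr (.tB j) m.1 := by
  obtain ⟨hk, hp, hr⟩ := Zn_bB h1 h2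
  have hw : wB m.1 = 1 := by rw [wB_val (j := j) (by rw [hk]; norm_num) hr, hk]; norm_num
  have hw' : wA m.1 = 0 := wA_zero' hp.ge
  have hz : deriv bet (kB (sh j m.1) - 1 / 2) = 0 := bet_deriv_zero (by rw [hk]; norm_num)
  show ((1 - wA m.1 - wB m.1) • g1 m.1 + wA m.1 • ((0, 0, deriv alp m.1.2.2.1, 0) : V) +
      wB m.1 • ((0, 0, 0, deriv alp m.1.2.2.2) : V),
     (1 - wA m.1 - wB m.1) • g2 m.1 + wA m.1 • er + wB m.1 • ep) = (gB (sh j m.1), ep)
  rw [hw, hw']
  unfold gB
  rw [hz]
  simp [sh]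

theorem tA_x {j : Fin 3} {m : V × ℝ} (h : m ∈ Zn (.tA j)) : |(sh j m.1).1| < 1 := by
  have := (abs_lt_of_kA (v := sh j m.1) (lt_of_le_of_lt h.2.1.2.1 (by norm_num))).1
  linarith

theorem tB_x {j : Fin 3} {m : V × ℝ} (h : m ∈ Zn (.tB j)) : |(sh j m.1).1| < 1 := by
  have := (abs_lt_of_kB (v := sh j m.1) (lt_of_le_of_lt h.2.1.2.1 (by norm_num))).1
  linarith

/-- the frames agree where the pieces meet -/
theorem fr_agree {k k' : Pc} {m : V × ℝ} (h1 : m ∈ Zn k) (h2 : m ∈ Zn k') : fr k m.1 = fr k' m.1 := by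
  cases k with
  | base =>
    cases k' with
    | base => rfl
    | tA j => exact fr_bA h1 h2
    | tB j => exact fr_bB h1 h2
  | tA j =>
    cases k' with
    | base => exact (fr_bA h2 h1).symm
    | tA i =>
      by_cases h : j = i
      · rw [h]
      · exfalso
        have := far h (tA_x h1)
        linarith [tA_x h2]
    | tB i =>
      exfalso
      by_cases h : j = i
      · subst h
        have h3 : lab (sh j m.1) ≠ 0 := lab_ne h1.2.1 h1.2.2 h2.2.1
        exact h3 (by rw [← h1.1, h2.1])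
      · have := far h (tA_x h1)
        linarith [tB_x h2]
  | tB j =>
    cases k' with
    | base => exact (fr_bB h2 h1).symm
    | tA i =>
      exfalso
      by_cases h : j = i
      · subst h
        have h3 : lab (sh j m.1) ≠ 0 := lab_ne h2.2.1 h2.2.2 h1.2.1
        exact h3 (by rw [← h2.1, h1.1])
      · have := far h (tB_x h1)
        linarith [tA_x h2]
    | tB i =>
      by_cases h : j = i
      · rw [h]
      · exfalso
        have := far h (tB_x h1)
        linarith [tB_x h2]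

end Pool.Agent.TH619
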