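import Pool.Agent.TH619.Geo3

/-! The union of the pieces outside the necks; a continuous normal frame on it; the normal vector
with prescribed coordinates. -/

set_option autoImplicit false

namespace Pool.Agent.TH619

open Set Topology Filter
open scoped InnerProductSpace Manifold ContDiff
open Pool.Agent.Helper874.Odd

instance : Finite Pc := by
  refine Finite.of_injective (β := Option (Fin 3 ⊕ Fin 3)) (fun k => match k with
    | .base => none
    | .tA j => some (Sum.inl j)
    | .tB j => some (Sum.inr j)) ?_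
  intro a b h
  cases a <;> cases b <;> simp_all

theorem BL_iff {v : V} : v ∈ BL ↔ v ∈ ML ∧ ∀ j, (9 / 16 ≤ kA (sh j v) ∨ 1 / 2 ≤ |v.2.2.2|) ∧
    (9 / 16 ≤ kB (sh j v) ∨ 1 / 2 ≤ |v.2.2.1|) := by
  constructor
  · rintro ⟨hML, hD⟩
    refine ⟨hML, fun j => ⟨?_, ?_⟩⟩
    · by_contra hcon
      push Not at hcon
      obtain ⟨hk, hr⟩ := hcon
      obtain ⟨hx, hy⟩ := abs_lt_of_kA (v := sh j v) (by linarith)
      obtain ⟨-, hV⟩ := BL_M0 hx hy hML
      apply hD j
      left
      have hV' : (v.2.2.1, v.2.2.2) ∈ Vt := hV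
      simp only [Vt, Set.mem_insert_iff, Set.mem_singleton_iff, Prod.mk.injEq] at hV'
      rcases hV' with h | h | h | h | h | h
      · exact ⟨h.2, by show |v.2.2.1| = 1; rw [h.1]; norm_num, hk⟩
      · rw [h.2] at hr; norm_num at hr
      · rw [h.2] at hr; norm_num at hr
      · exact ⟨h.2, by show |v.2.2.1| = 1; rw [h.1]; norm_num, hk⟩
      · rw [h.2] at hr; norm_num at hr
      · rw [h.2] at hr; norm_num at hr
    · by_contra hcon
      push Not at hcon
      obtain ⟨hk, hr⟩ := hcon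
      obtain ⟨hx, hy⟩ := abs_lt_of_kB (v := sh j v) (by linarith)
      obtain ⟨-, hV⟩ := BL_M0 hx hy hML
      apply hD j
      right
      have hV' : (v.2.2.1, v.2.2.2) ∈ Vt := hV
      simp only [Vt, Set.mem_insert_iff, Set.mem_singleton_iff, Prod.mk.injEq] at hV'
      rcases hV' with h | h | h | h | h | h
      · rw [h.1] at hr; norm_num at hr
      · exact ⟨h.1, by show |v.2.2.2| = 1; rw [h.2]; norm_num, hk⟩
      · rw [h.1] at hr; norm_num at hr
      · rw [h.1] at hr; norm_num at hr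
      · exact ⟨h.1, by show |v.2.2.2| = 1; rw [h.2]; norm_num, hk⟩
      · rw [h.1] at hr; norm_num at hr
  · rintro ⟨hML, h⟩
    refine ⟨hML, fun j => ?_⟩
    rintro (⟨hr, hp, hk⟩ | ⟨hp, hr, hk⟩)
    · rcases (h j).1 with h1 | h1
      · linarith
      · have : v.2.2.2 = 0 := hr
        rw [this] at h1
        norm_num at h1
    · rcases (h j).2 with h1 | h1
      · linarith
      · have : v.2.2.1 = 0 := hp
        rw [this] at h1
        norm_num at h1

theorem scl_cont : Continuous scl := by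
  unfold scl
  fun_prop

theorem BL_closed : IsClosed BL := by
  have e : BL = ML ∩ ⋂ j, (({v : V | 9 / 16 ≤ kA (sh j v)} ∪ {v : V | 1 / 2 ≤ |v.2.2.2|}) ∩
      ({v : V | 9 / 16 ≤ kB (sh j v)} ∪ {v : V | 1 / 2 ≤ |v.2.2.1|})) := by
    ext v
    rw [BL_iff]
    simp only [mem_inter_iff, mem_iInter, mem_union, mem_ofPred_eq]
  rw [e]
  have h1 := kA_cont'
  have h2 := kB_cont'
  have h3 := sh_cont
  refine (M0_compact.isClosed.preimage scl_cont).inter (isClosed_iInter fun j => ?_)
  refine IsClosed.inter (IsClosed.union ?_ ?_) (IsClosed.union ?_ ?_)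
  · exact isClosed_le continuous_const (h1.comp (h3 j))
  · exact isClosed_le continuous_const (by fun_prop)
  · exact isClosed_le continuous_const (h2.comp (h3 j))
  · exact isClosed_le continuous_const (by fun_prop)

theorem SA_DA_eq : SA \ DA = SA ∩ ({v | 1 / 8 ≤ nw v} ∪ {v | 1 / 16 ≤ nz v}) := by
  ext v
  constructor
  · rintro ⟨hA, hD⟩
    refine ⟨hA, ?_⟩
    by_contra hcon
    simp only [mem_union, mem_ofPred_eq, not_or, not_le] at hcon
    obtain ⟨h1, h2⟩ := hcon
    have hn := near_facts (v := v) (by linarith) h1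
    obtain ⟨-, -, -, -, -, -, -, -, -, -, -, -, -, n14, -⟩ := hn
    obtain ⟨h3, h4⟩ := n14.1 hA
    exact hD ⟨h3, h4, h2⟩
  · rintro ⟨hA, h⟩
    refine ⟨hA, fun hD => ?_⟩
    rcases h with h | h
    · have := (DA_facts hD).2.2
      simp only [mem_ofPred_eq] at h
      rw [this] at h
      norm_num at h
    · have := hD.2.2
      simp only [mem_ofPred_eq] at h
      linarith

theorem SB_DB_eq : SB \ DB = SB ∩ ({v | 1 / 8 ≤ nz v} ∪ {v | 1 / 16 ≤ nw v}) := by
  ext v
  constructor
  · rintro ⟨hA, hD⟩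
    refine ⟨hA, ?_⟩
    by_contra hcon
    simp only [mem_union, mem_ofPred_eq, not_or, not_le] at hcon
    obtain ⟨h1, h2⟩ := hcon
    have hn := near_facts (v := v) h1 (by linarith)
    obtain ⟨-, -, -, -, -, -, -, -, -, -, -, -, -, -, n15⟩ := hn
    obtain ⟨h3, h4⟩ := n15.1 hA
    exact hD ⟨h3, h4, h2⟩
  · rintro ⟨hA, h⟩
    refine ⟨hA, fun hD => ?_⟩
    rcases h with h | h
    · have := (DB_facts hD).2.2
      simp only [mem_ofPred_eq] at h
      rw [this] at h
      norm_num at h
    · have := hD.2.2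
      simp only [mem_ofPred_eq] at h
      linarith

theorem Zn_closed (k : Pc) : IsClosed (Zn k) := by
  have hs := sh_cont
  have hf : Continuous fun m : V × ℝ => m.1 := continuous_fst
  cases k with
  | base =>
    exact (isClosed_eq continuous_snd continuous_const).inter (BL_closed.preimage continuous_fst)
  | tA j =>
    refine (isClosed_eq continuous_snd (lab_contDiff.continuous.comp ((hs j).comp hf))).inter ?_
    have h : IsClosed (SA \ DA) := by
      rw [SA_DA_eq]
      exact SA_compact.isClosed.inter ((isClosed_le continuous_const nw_cont').union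
        (isClosed_le continuous_const nz_cont'))
    exact h.preimage ((hs j).comp hf)
  | tB j =>
    refine (isClosed_eq continuous_snd continuous_const).inter ?_
    have h : IsClosed (SB \ DB) := by
      rw [SB_DB_eq]
      exact SB_compact.isClosed.inter ((isClosed_le continuous_const nz_cont').union
        (isClosed_le continuous_const nw_cont'))
    exact h.preimage ((hs j).comp hf)

theorem NK_closed (j : Fin 3) : IsClosed (NK j) :=
  (isClosed_eq continuous_snd continuous_const).inter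
    (SC_compact.isClosed.preimage ((sh_cont j).comp continuous_fst))

/-- the surface outside the necks -/
def MO : Set (V × ℝ) := ⋃ k, Zn k

open Classical in
/-- the frame on `MO` -/
noncomputable def frm (m : V × ℝ) : V × V :=
  if h : ∃ k, m ∈ Zn k then fr h.choose m.1 else 0

theorem frm_eq {k : Pc} {m : V × ℝ} (hm : m ∈ Zn k) : frm m = fr k m.1 := by
  have h : ∃ k, m ∈ Zn k := ⟨k, hm⟩
  unfold frm
  rw [dif_pos h]
  exact fr_agree h.choose_spec hm

theorem frm_cont : ContinuousOn frm MO := by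
  refine (locallyFinite_of_finite Zn).continuousOn_iUnion Zn_closed fun k => ?_
  exact (((fr_cont k).comp continuous_fst).continuousOn).congr fun m hm => frm_eq hm

theorem frm_nrm {m : V × ℝ} (hm : m ∈ MO) : Nrm m (frm m).1 (frm m).2 := by
  obtain ⟨k, hk⟩ := mem_iUnion.1 hm
  rw [frm_eq hk]
  exact fr_nrm hk

theorem frm_ind {m : V × ℝ} (hm : m ∈ MO) : Ind (frm m).1 (frm m).2 := by
  obtain ⟨k, hk⟩ := mem_iUnion.1 hm
  rw [frm_eq hk]
  exact fr_ind hk

/-! ### the vector with given coordinates -/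

/-- the Gram determinant -/
def gd (n n' : V) : ℝ := hh n n * hh n' n' - hh n n' ^ 2

/-- the (unnormalized) vector whose coordinates are proportional to `z` -/
def wv (n n' : V) (z : ℂ) : V :=
  (hh n' n' * z.re - hh n n' * z.im) • n + (hh n n * z.im - hh n n' * z.re) • n'

theorem hh_comm (a b : V) : hh a b = hh b a := by unfold hh; ring

theorem hh_self_nonneg (a : V) : 0 ≤ hh a a := by
  unfold hh; nlinarith [sq_nonneg a.1, sq_nonneg a.2.1, sq_nonneg a.2.2.1, sq_nonneg a.2.2.2]

theorem hh_self_eq {a : V} (h : hh a a = 0) : a = 0 := by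
  unfold hh at h
  have h1 : a.1 = 0 := by
    nlinarith [sq_nonneg a.1, sq_nonneg a.2.1, sq_nonneg a.2.2.1, sq_nonneg a.2.2.2]
  have h2 : a.2.1 = 0 := by
    nlinarith [sq_nonneg a.1, sq_nonneg a.2.1, sq_nonneg a.2.2.1, sq_nonneg a.2.2.2]
  have h3 : a.2.2.1 = 0 := by
    nlinarith [sq_nonneg a.1, sq_nonneg a.2.1, sq_nonneg a.2.2.1, sq_nonneg a.2.2.2]
  have h4 : a.2.2.2 = 0 := by
    nlinarith [sq_nonneg a.1, sq_nonneg a.2.1, sq_nonneg a.2.2.1, sq_nonneg a.2.2.2]
  exact Prod.ext h1 (Prod.ext h2 (Prod.ext h3 h4))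

theorem gd_pos {n n' : V} (h : Ind n n') : 0 < gd n n' := by
  have hn : n ≠ 0 := by
    rintro rfl
    have := (h 1 0 (by simp)).1
    exact one_ne_zero this
  have hnn : 0 < hh n n := lt_of_le_of_ne (hh_self_nonneg n) fun h0 => hn (hh_self_eq h0.symm)
  -- the vector `hh n n • n' - hh n n' • n`
  set w : V := (-hh n n') • n + hh n n • n' with hw
  have hw0 : w ≠ 0 := fun h0 => hnn.ne' (h _ _ h0).2
  have hww : 0 < hh w w := lt_of_le_of_ne (hh_self_nonneg w) fun h0 => hw0 (hh_self_eq h0.symm)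
  have e : hh w w = hh n n * gd n n' := by
    rw [hw]
    simp only [gd, hh, Prod.fst_add, Prod.snd_add, Prod.smul_fst, Prod.smul_snd, smul_eq_mul]
    ring
  rw [e] at hww
  exact (pos_iff_pos_of_mul_pos hww).1 hnn

theorem hh_wv_left (n n' : V) (z : ℂ) : hh n (wv n n' z) = gd n n' * z.re := by
  unfold wv gd
  rw [hh_comm n]
  simp only [hh_add_left, hh_smul_left]
  rw [hh_comm n' n]
  ring

theorem hh_wv_right (n n' : V) (z : ℂ) : hh n' (wv n n' z) = gd n n' * z.im := by
  unfold wv gd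
  rw [hh_comm n']
  simp only [hh_add_left, hh_smul_left]
  ring

theorem wv_ne {n n' : V} (h : Ind n n') {z : ℂ} (hz : z ≠ 0) : wv n n' z ≠ 0 := by
  intro h0
  have h1 := hh_wv_left n n' z
  have h2 := hh_wv_right n n' z
  rw [h0] at h1 h2
  have e : ∀ v : V, hh v 0 = 0 := by intro v; unfold hh; simp
  rw [e] at h1 h2
  have hg := gd_pos h
  apply hz
  apply Complex.ext
  · exact (mul_eq_zero.1 h1.symm).resolve_left hg.ne'
  · exact (mul_eq_zero.1 h2.symm).resolve_left hg.ne'

theorem inner_toE (a b : V) : ⟪toE a, toE b⟫_ℝ = hh a b := by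
  rw [toE_apply, toE_apply, PiLp.inner_apply]
  simp only [Fin.sum_univ_four]
  simp
  unfold hh
  ring

/-- the unit normal vector with coordinates proportional to `z` -/
noncomputable def psi (n n' : V) (z : ℂ) : E 4 := ‖toE (wv n n' z)‖⁻¹ • toE (wv n n' z)

theorem toE_ne {v : V} (h : v ≠ 0) : toE v ≠ 0 := fun h0 => h (toE_injective (by rw [h0, map_zero]))

theorem psi_norm {n n' : V} (h : Ind n n') {z : ℂ} (hz : z ≠ 0) : ‖psi n n' z‖ = 1 := by
  unfold psi
  have := norm_ne_zero_iff.2 (toE_ne (wv_ne h hz))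
  rw [norm_smul, norm_inv, norm_norm, inv_mul_cancel₀ this]

/-- the unit normal bundle of the surface, as a subset of a fixed space -/
def NT : Set ((V × ℝ) × E 4) := {q | q.1 ∈ MT ∧ ‖q.2‖ = 1 ∧ ∃ i, q.1 ∈ Wd i ∧
  ∀ a, fderiv ℝ (D1 i) q.1.1 a = 0 → fderiv ℝ (D2 i) q.1.1 a = 0 → ⟪toE a, q.2⟫_ℝ = 0}

theorem psi_mem {m : V × ℝ} (hm : m ∈ MT) {n n' : V} (hn : Nrm m n n') (hi : Ind n n') {z : ℂ}
    (hz : z ≠ 0) : (m, psi n n' z) ∈ NT := by
  obtain ⟨i, hi', h⟩ := hn
  refine ⟨hm, psi_norm hi hz, i, hi', fun a h1 h2 => ?_⟩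
  obtain ⟨e1, e2⟩ := h a h1 h2
  show ⟪toE a, ‖toE (wv n n' z)‖⁻¹ • toE (wv n n' z)⟫_ℝ = 0
  rw [inner_smul_right, inner_toE, hh_comm]
  unfold wv
  rw [hh_add_left, hh_smul_left, hh_smul_left, e1, e2]
  simp

theorem hh_cont : Continuous fun q : V × V => hh q.1 q.2 := by
  unfold hh
  fun_prop

theorem psi_cont : ContinuousOn (fun q : (V × V) × ℂ => psi q.1.1 q.1.2 q.2)
    {q | Ind q.1.1 q.1.2 ∧ q.2 ≠ 0} := by
  have hw : Continuous fun q : (V × V) × ℂ => wv q.1.1 q.1.2 q.2 := by
    unfold wv hh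
    fun_prop
  have ht : Continuous fun q : (V × V) × ℂ => toE (wv q.1.1 q.1.2 q.2) := toE.continuous.comp hw
  unfold psi
  exact (ContinuousOn.inv₀ ht.norm.continuousOn fun q hq =>
    norm_ne_zero_iff.2 (toE_ne (wv_ne hq.1 hq.2))).smul ht.continuousOn

end Pool.Agent.TH619
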