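import Pool.Agent.TH619.Geo4
import Pool.Agent.Helper874.Odd.Jneck1

/-! The normal frame on the necks. -/

set_option autoImplicit false

namespace Pool.Agent.TH619

open Set Topology Filter
open scoped InnerProductSpace Manifold ContDiff
open Pool.Agent.Helper874.Odd

/-- the points of the `j`-th neck -/
noncomputable def nk (j : Fin 3) (P Q t : ℝ) : V × ℝ :=
  (((h400_pt P Q t).1 + cc j, (h400_pt P Q t).2), 0)

/-- the range of the two radii -/
def PQ (P Q : ℝ) : Prop := 0 ≤ P ∧ 0 ≤ Q ∧ P ≤ 1 / 16 ∧ Q ≤ 1 / 16 ∧ bet P + bet Q = 1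

/-- first vector of the frame; `c`, `s` are cosine and sine of the angle -/
noncomputable def Rv (P Q c s : ℝ) : V :=
  (-deriv bet Q) • ((c, c, 0, -s) : V) + (-deriv bet P) • ((-c, c, s, 0) : V)

/-- second vector of the frame -/
def Iv (P Q c s : ℝ) : V := P • ((-s, -s, 0, -c) : V) - Q • ((s, -s, c, 0) : V)

theorem hh_Rv (P Q c s : ℝ) (a : V) : hh (Rv P Q c s) a =
    -deriv bet Q * (c * (a.1 + a.2.1) - s * a.2.2.2) -
      deriv bet P * (c * (a.2.1 - a.1) + s * a.2.2.1) := by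
  unfold hh Rv
  simp only [Prod.fst_add, Prod.snd_add, Prod.smul_fst, Prod.smul_snd, smul_eq_mul]
  ring

theorem hh_Iv (P Q c s : ℝ) (a : V) : hh (Iv P Q c s) a =
    -P * (s * (a.1 + a.2.1) + c * a.2.2.2) - Q * (c * a.2.2.1 - s * (a.2.1 - a.1)) := by
  unfold hh Iv
  simp only [Prod.fst_sub, Prod.snd_sub, Prod.smul_fst, Prod.smul_snd, smul_eq_mul]
  ring

theorem sh_nk (j : Fin 3) (P Q t : ℝ) : sh j (nk j P Q t).1 = h400_pt P Q t := by
  unfold sh nk
  simp

theorem PQ.pos {P Q : ℝ} (h : PQ P Q) : 0 < P ∨ 0 < Q := by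
  obtain ⟨h1, h2, -, -, h5⟩ := h
  by_contra hcon
  push Not at hcon
  have e1 : P = 0 := le_antisymm hcon.1 h1
  have e2 : Q = 0 := le_antisymm hcon.2 h2
  rw [e1, e2, bet_zero] at h5
  norm_num at h5

theorem PQ.q {P Q : ℝ} (h : PQ P Q) (hP : 0 < P) : qf P = Q := by
  obtain ⟨h1, h2, h3, h4, h5⟩ := h
  exact (qf_unique hP h2 h4 h5).symm

theorem PQ.symm {P Q : ℝ} (h : PQ P Q) : PQ Q P := by
  obtain ⟨h1, h2, h3, h4, h5⟩ := h
  exact ⟨h2, h1, h4, h3, by linarith⟩

theorem PQ.nk_mem {P Q : ℝ} (h : PQ P Q) (j : Fin 3) (t : ℝ) : nk j P Q t ∈ NK j := by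
  obtain ⟨h1, h2, h3, h4, h5⟩ := h
  refine ⟨rfl, ?_⟩
  rw [sh_nk]
  exact h400_mem P Q t h1 h2 h3 h4 h5

theorem PQ.exists_nk {j : Fin 3} {m : V × ℝ} (h : m ∈ NK j) : ∃ P Q t, PQ P Q ∧ m = nk j P Q t := by
  obtain ⟨v, s⟩ := m
  obtain ⟨hs, P, Q, t, h1, h2, h3, h4, h5, e1, e2, e3, e4⟩ := h
  refine ⟨P, Q, t, ⟨h1, h2, h3, h4, h5⟩, ?_⟩
  have h6 := h400_eq e1 e2 e3 e4
  simp only at hs
  unfold nk
  rw [← h6, hs]
  unfold sh
  simp

theorem bet'_qf {P : ℝ} (hP : 0 < P) : deriv bet (qf P) * deriv qf P = - deriv bet P := by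
  have hq : DifferentiableAt ℝ qf P := (qf_contDiffAt hP).differentiableAt (by simp)
  have hb : ∀ x, DifferentiableAt ℝ bet x := fun x =>
    (bet_contDiff.differentiable (by simp)).differentiableAt
  have h1 : HasDerivAt (fun x => bet (qf x)) (deriv bet (qf P) * deriv qf P) P :=
    (hb (qf P)).hasDerivAt.comp P hq.hasDerivAt
  have h2 : HasDerivAt (fun x => 1 - bet x) (- deriv bet P) P := (hb P).hasDerivAt.const_sub 1
  have h3 : (fun x => bet (qf x)) =ᶠ[𝓝 P] fun x => 1 - bet x := by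
    filter_upwards [Ioi_mem_nhds hP] with x hx
    exact bet_qf hx
  exact (h1.congr_of_eventuallyEq h3.symm).unique h2

theorem nk_box {P Q : ℝ} (h : PQ P Q) (j : Fin 3) (t : ℝ) : (nk j P Q t).1 ∈ Bx j (15 / 16) := by
  obtain ⟨h1, h2, h3, h4, h5⟩ := h
  have hz := h400_nz P Q t h1
  have hw := h400_nw P Q t h2
  obtain ⟨-, -, -, -, n5, n6, n7, -⟩ := near_facts (v := h400_pt P Q t) (by linarith) (by linarith)
  constructor
  · show |(h400_pt P Q t).1 + cc j - cc j| < 15 / 16
    rw [add_sub_cancel_right]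
    linarith
  · show |(h400_pt P Q t).2.1| < 15 / 16
    rw [abs_lt]
    constructor <;> linarith

theorem neck_nrm {P Q : ℝ} (h : PQ P Q) (j : Fin 3) (t : ℝ) :
    Nrm (nk j P Q t) (Rv P Q (Real.cos t) (Real.sin t)) (Iv P Q (Real.cos t) (Real.sin t)) := by
  have hcs := Real.cos_sq_add_sin_sq t
  have hz := h400_nz P Q t h.1
  have hw := h400_nw P Q t h.2.1
  have hbx := nk_box h j t
  have hP4 := h.2.2.1
  have hQ4 := h.2.2.2.1
  have hmem : ∀ k, ((h400_pt P Q t), (0 : ℝ)) ∈ Wk k → nk j P Q t ∈ Wd (some (j, k)) := by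
    intro k hk
    refine ⟨hbx, ?_⟩
    rw [sh_nk]
    exact hk
  rcases h.pos with hP | hQ
  · have hq := h.q hP
    have hd := bet'_qf hP
    rw [hq] at hd
    refine ⟨some (j, .C), hmem .C ⟨?_, ?_, ?_⟩, fun a h1 h2 => ?_⟩
    · show 0 < nz (h400_pt P Q t); linarith
    · show nz (h400_pt P Q t) < 1 / 8; linarith
    · show nw (h400_pt P Q t) < 1 / 8; linarith
    · have hsm := FC_contDiffAt (v := h400_pt P Q t) (by rw [hz]; exact hP)
      have hC := fderiv_C (v := h400_pt P Q t) hP (h400_X2 P Q t) rfl a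
      rw [D1_some j .C (by rw [sh_nk]; exact hsm.1.differentiableAt (by simp)) a, sh_nk, hC.1,
        hq] at h1
      rw [D2_some j .C (by rw [sh_nk]; exact hsm.2.differentiableAt (by simp)) a, sh_nk, hC.2,
        hq] at h2
      rw [hh_Rv, hh_Iv]
      generalize Real.cos t = c at *
      generalize Real.sin t = s at *
      have k1 : c * (a.1 + a.2.1) - s * a.2.2.2 =
          deriv qf P * (c * (a.2.1 - a.1) + s * a.2.2.1) := by
        linear_combination c * h2 - s * h1 +
          (deriv qf P * (c * (a.2.1 - a.1) + s * a.2.2.1)) * hcs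
      have k2 : s * (a.1 + a.2.1) + c * a.2.2.2 =
          - (Q / P) * (c * a.2.2.1 - s * (a.2.1 - a.1)) := by
        linear_combination s * h2 + c * h1 - (Q / P * (c * a.2.2.1 - s * (a.2.1 - a.1))) * hcs
      constructor
      · rw [k1]
        linear_combination (-(c * (a.2.1 - a.1) + s * a.2.2.1)) * hd
      · rw [k2]
        field_simp
        ring
  · have h' := h.symm
    have hq := h'.q hQ
    have hd := bet'_qf hQ
    rw [hq] at hd
    refine ⟨some (j, .D), hmem .D ⟨?_, ?_, ?_⟩, fun a h1 h2 => ?_⟩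
    · show 0 < nw (h400_pt P Q t); linarith
    · show nz (h400_pt P Q t) < 1 / 8; linarith
    · show nw (h400_pt P Q t) < 1 / 8; linarith
    · have hsm := FD_contDiffAt (v := h400_pt P Q t) (by rw [hw]; exact hQ)
      have hC := fderiv_D (v := h400_pt P Q t) hQ (h400_X1 P Q t) rfl a
      rw [D1_some j .D (by rw [sh_nk]; exact hsm.1.differentiableAt (by simp)) a, sh_nk, hC.1,
        hq] at h1
      rw [D2_some j .D (by rw [sh_nk]; exact hsm.2.differentiableAt (by simp)) a, sh_nk, hC.2,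
        hq] at h2
      rw [hh_Rv, hh_Iv]
      generalize Real.cos t = c at *
      generalize Real.sin t = s at *
      have k1 : c * (a.2.1 - a.1) + s * a.2.2.1 =
          deriv qf Q * (c * (a.1 + a.2.1) - s * a.2.2.2) := by
        linear_combination c * h2 + s * h1 +
          (deriv qf Q * (c * (a.1 + a.2.1) - s * a.2.2.2)) * hcs
      have k2 : c * a.2.2.1 - s * (a.2.1 - a.1) =
          - (P / Q) * (c * a.2.2.2 + s * (a.1 + a.2.1)) := by
        linear_combination c * h1 - s * h2 - (P / Q * (c * a.2.2.2 + s * (a.1 + a.2.1))) * hcs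
      constructor
      · rw [k1]
        linear_combination (-(c * (a.1 + a.2.1) - s * a.2.2.2)) * hd
      · rw [k2]
        field_simp
        ring

theorem PQ.bet' {P Q : ℝ} (h : PQ P Q) : deriv bet P < 0 ∨ deriv bet Q < 0 := by
  obtain ⟨h1, h2, h3, h4, h5⟩ := h
  rcases lt_or_eq_of_le h3 with h6 | h6
  · exact Or.inl (bet_deriv_neg h6)
  · rcases lt_or_eq_of_le h4 with h7 | h7
    · exact Or.inr (bet_deriv_neg h7)
    · rw [h6, h7, bet_eq_zero le_rfl] at h5
      norm_num at h5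

theorem neck_ind {P Q c s : ℝ} (h : PQ P Q) (hcs : c ^ 2 + s ^ 2 = 1) :
    Ind (Rv P Q c s) (Iv P Q c s) := by
  intro α β hab
  have key : ∀ w : V, α * hh (Rv P Q c s) w + β * hh (Iv P Q c s) w = 0 := by
    intro w
    rw [← hh_smul_left, ← hh_smul_left, ← hh_add_left, hab]
    unfold hh
    simp
  simp only [hh_Rv, hh_Iv] at key
  -- test vectors dual to the four covectors
  have k1 := key (c / 2, c / 2, 0, -s)
  have k2 := key (-c / 2, c / 2, s, 0)
  have k3 := key (s / 2, s / 2, 0, c)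
  have k4 := key (s / 2, -s / 2, c, 0)
  simp only at k1 k2 k3 k4
  have e1 : α * deriv bet Q = 0 := by
    linear_combination -k1 - (α * deriv bet Q) * hcs
  have e2 : α * deriv bet P = 0 := by
    linear_combination -k2 - (α * deriv bet P) * hcs
  have e3 : β * P = 0 := by
    linear_combination -k3 - (β * P) * hcs
  have e4 : β * Q = 0 := by
    linear_combination -k4 - (β * Q) * hcs
  constructor
  · rcases h.bet' with h6 | h6
    · exact (mul_eq_zero.1 e2).resolve_right h6.ne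
    · exact (mul_eq_zero.1 e1).resolve_right h6.ne
  · rcases h.pos with h6 | h6
    · exact (mul_eq_zero.1 e3).resolve_right h6.ne'
    · exact (mul_eq_zero.1 e4).resolve_right h6.ne'

end Pool.Agent.TH619
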