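import Pool.Agent.TH619.Geo5

/-! Two frames of the normal bundle: `frC` outside of `K2` and `frD` outside of `K1`. -/

set_option autoImplicit false

namespace Pool.Agent.TH619

open Set Topology Filter
open scoped InnerProductSpace Manifold ContDiff
open Pool.Agent.Helper874.Odd

/-- core of the first region: the square `(1, 0)` with three holes and the upper parts of the
tubes A -/
def K1 : Set (V × ℝ) := {m | (m ∈ Zn .base ∧ |m.1.1| ≤ 7 / 2 ∧ |m.1.2.1| ≤ 7 / 2 ∧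
    m.1.2.2 = (1, 0)) ∨ ∃ j, m ∈ Zn (.tA j) ∧ -(1 / 2) ≤ m.1.2.2.1}

/-- core of the second region: the rest of the base, the lower parts of the tubes A and the
tubes B -/
def K2 : Set (V × ℝ) := {m | (m ∈ Zn .base ∧ (15 / 4 ≤ |m.1.1| ∨ 15 / 4 ≤ |m.1.2.1| ∨
    m.1.2.2.1 + m.1.2.2.2 / 2 ≤ 3 / 4)) ∨ (∃ j, m ∈ Zn (.tA j) ∧ m.1.2.2.1 ≤ -(3 / 4)) ∨
    ∃ j, m ∈ Zn (.tB j)}

/-- frame on a neck away from the lower end; `c`, `s` are cosine and sine of the angle -/
noncomputable def fC (v : V) : V × V :=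
  ((-(X2 v / nz v)) • Rv (nz v) (nw v) (X2 v / nz v) (v.2.2.1 / nz v) -
    (16 * b0 * (v.2.2.1 / nz v)) • Iv (nz v) (nw v) (X2 v / nz v) (v.2.2.1 / nz v),
   (v.2.2.1 / nz v / b0) • Rv (nz v) (nw v) (X2 v / nz v) (v.2.2.1 / nz v) -
    (16 * (X2 v / nz v)) • Iv (nz v) (nw v) (X2 v / nz v) (v.2.2.1 / nz v))

/-- frame on a neck away from the upper end -/
noncomputable def fD (v : V) : V × V :=
  ((-(X1 v / nw v)) • Rv (nz v) (nw v) (X1 v / nw v) (-v.2.2.2 / nw v) +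
    (16 * b0 * (-v.2.2.2 / nw v)) • Iv (nz v) (nw v) (X1 v / nw v) (-v.2.2.2 / nw v),
   (-(-v.2.2.2 / nw v / b0)) • Rv (nz v) (nw v) (X1 v / nw v) (-v.2.2.2 / nw v) -
    (16 * (X1 v / nw v)) • Iv (nz v) (nw v) (X1 v / nw v) (-v.2.2.2 / nw v))

open Classical in
/-- the frame outside of `K2` -/
noncomputable def frC (m : V × ℝ) : V × V :=
  if m ∈ MO then frm m else if h : ∃ j, m ∈ NK j then fC (sh h.choose m.1) else 0

open Classical in
/-- the frame outside of `K1` -/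
noncomputable def frD (m : V × ℝ) : V × V :=
  if m ∈ MO then frm m else if h : ∃ j, m ∈ NK j then fD (sh h.choose m.1) else 0

/-- the coordinates of a vector in a frame -/
noncomputable def co (n n' : V) (ν : E 4) : ℂ := ⟨⟪toE n, ν⟫_ℝ, ⟪toE n', ν⟫_ℝ⟩

/-- functions with winding number one around the tubes A -/
noncomputable def vz (j : Fin 3) (v : V) : ℂ := ⟨X2 (sh j v), v.2.2.1 + 2 * X1 (sh j v)⟩

end Pool.Agent.TH619
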