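import Pool.Agent.TH619.Geo6

/-! Properties of the frames `frC`, `frD` and of the cores `K1`, `K2`. -/

set_option autoImplicit false

namespace Pool.Agent.TH619

open Set Topology Filter
open scoped InnerProductSpace Manifold ContDiff
open Pool.Agent.Helper874.Odd

/-- continuity on a set covered by finitely many closed sets -/
theorem cont_cover {X Y ι : Type} [TopologicalSpace X] [TopologicalSpace Y] [Finite ι]
    {C : ι → Set X} (hC : ∀ i, IsClosed (C i)) {s : Set X} (hs : s ⊆ ⋃ i, C i) {f : X → Y}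
    (h : ∀ i, ContinuousOn f (s ∩ C i)) : ContinuousOn f s := by
  rw [continuousOn_iff_continuous_domRestrict]
  refine (locallyFinite_of_finite fun i => ((↑) : s → X) ⁻¹' C i).continuous ?_
    (fun i => (hC i).preimage continuous_subtype_val) fun i => ?_
  · ext x
    obtain ⟨i, hi⟩ := mem_iUnion.1 (hs x.2)
    simp only [mem_iUnion, mem_preimage, mem_univ, iff_true]
    exact ⟨i, hi⟩
  · exact (h i).comp continuous_subtype_val.continuousOn fun x hx => ⟨x.2, hx⟩

theorem K1_closed : IsClosed K1 := by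
  have h1 : IsClosed {m : V × ℝ | m ∈ Zn .base ∧ |m.1.1| ≤ 7 / 2 ∧ |m.1.2.1| ≤ 7 / 2 ∧
      m.1.2.2 = (1, 0)} := by
    have a1 : IsClosed {m : V × ℝ | |m.1.1| ≤ 7 / 2} := isClosed_le (by fun_prop) continuous_const
    have a2 : IsClosed {m : V × ℝ | |m.1.2.1| ≤ 7 / 2} :=
      isClosed_le (by fun_prop) continuous_const
    have a3 : IsClosed {m : V × ℝ | m.1.2.2 = (1, 0)} := isClosed_eq (by fun_prop) continuous_const
    exact (Zn_closed .base).inter (a1.inter (a2.inter a3))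
  have h2 : IsClosed (⋃ j, {m : V × ℝ | m ∈ Zn (.tA j) ∧ -(1 / 2) ≤ m.1.2.2.1}) :=
    isClosed_iUnion_of_finite fun j => (Zn_closed (.tA j)).inter
      (isClosed_le (f := fun _ : V × ℝ => -(1 / 2 : ℝ)) (g := fun m : V × ℝ => m.1.2.2.1)
        continuous_const (by fun_prop))
  have e : K1 = {m : V × ℝ | m ∈ Zn .base ∧ |m.1.1| ≤ 7 / 2 ∧ |m.1.2.1| ≤ 7 / 2 ∧
      m.1.2.2 = (1, 0)} ∪ ⋃ j, {m : V × ℝ | m ∈ Zn (.tA j) ∧ -(1 / 2) ≤ m.1.2.2.1} := by
    ext m
    simp only [K1, mem_union, mem_iUnion, mem_ofPred_eq]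
  rw [e]
  exact h1.union h2

theorem K2_closed : IsClosed K2 := by
  have h1 : IsClosed {m : V × ℝ | m ∈ Zn .base ∧ (15 / 4 ≤ |m.1.1| ∨ 15 / 4 ≤ |m.1.2.1| ∨
      m.1.2.2.1 + m.1.2.2.2 / 2 ≤ 3 / 4)} := by
    have a1 : IsClosed {m : V × ℝ | 15 / 4 ≤ |m.1.1|} := isClosed_le continuous_const (by fun_prop)
    have a2 : IsClosed {m : V × ℝ | 15 / 4 ≤ |m.1.2.1|} :=
      isClosed_le continuous_const (by fun_prop)
    have a3 : IsClosed {m : V × ℝ | m.1.2.2.1 + m.1.2.2.2 / 2 ≤ 3 / 4} :=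
      isClosed_le (by fun_prop) continuous_const
    exact (Zn_closed .base).inter (a1.union (a2.union a3))
  have h2 : IsClosed (⋃ j, {m : V × ℝ | m ∈ Zn (.tA j) ∧ m.1.2.2.1 ≤ -(3 / 4)}) :=
    isClosed_iUnion_of_finite fun j => (Zn_closed (.tA j)).inter
      (isClosed_le (f := fun m : V × ℝ => m.1.2.2.1) (g := fun _ : V × ℝ => -(3 / 4 : ℝ))
        (by fun_prop) continuous_const)
  have h3 : IsClosed (⋃ j, Zn (.tB j)) := isClosed_iUnion_of_finite fun j => Zn_closed (.tB j)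
  have e : K2 = {m : V × ℝ | m ∈ Zn .base ∧ (15 / 4 ≤ |m.1.1| ∨ 15 / 4 ≤ |m.1.2.1| ∨
      m.1.2.2.1 + m.1.2.2.2 / 2 ≤ 3 / 4)} ∪
      ((⋃ j, {m : V × ℝ | m ∈ Zn (.tA j) ∧ m.1.2.2.1 ≤ -(3 / 4)}) ∪ ⋃ j, Zn (.tB j)) := by
    ext m
    simp only [K2, mem_union, mem_iUnion, mem_ofPred_eq]
  rw [e]
  exact h1.union (h2.union h3)

theorem tAB {i j : Fin 3} {m : V × ℝ} (h1 : m ∈ Zn (.tA i)) (h2 : m ∈ Zn (.tB j)) : False := by
  by_cases h : i = j
  · subst h
    have h3 : lab (sh i m.1) ≠ 0 := lab_ne h1.2.1 h1.2.2 h2.2.1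
    exact h3 (by rw [← h1.1, h2.1])
  · have := far h (tA_x h1)
    linarith [tB_x h2]

theorem K12 {m : V × ℝ} (h1 : m ∈ K1) : m ∉ K2 := by
  intro h2
  rcases h1 with ⟨hb, hx, hy, he⟩ | ⟨j, hA, hp⟩
  · have hp1 : m.1.2.2.1 = 1 := congrArg Prod.fst he
    have hr0 : m.1.2.2.2 = 0 := congrArg Prod.snd he
    rcases h2 with ⟨-, h | h | h⟩ | ⟨i, hi, hp⟩ | ⟨i, hi⟩
    · linarith
    · linarith
    · rw [hp1, hr0] at h; norm_num at h
    · rw [hp1] at hp; norm_num at hp
    · have := (Zn_bB hb hi).2.1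
      rw [hr0] at this; norm_num at this
  · rcases h2 with ⟨hb, h⟩ | ⟨i, hi, hp'⟩ | ⟨i, hi⟩
    · obtain ⟨hk, hpa, hr⟩ := Zn_bA hb hA
      obtain ⟨hx, hy⟩ := kA_bd (v := sh j m.1) (s := 5 / 8) (by rw [hk]; norm_num)
      have hx4 := abs_x_lt hx
      have hy4 : |m.1.2.1| < 5 / 8 := hy
      have hp1 : m.1.2.2.1 = 1 := by
        rcases (abs_eq (by norm_num : (0 : ℝ) ≤ 1)).1 hpa with h | h
        · exact h
        · rw [h] at hp; norm_num at hp
      rcases h with h | h | h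
      · linarith
      · linarith
      · rw [hp1, hr] at h; norm_num at h
    · linarith
    · exact tAB hA hi

/-- a neck meets the other pieces in its boundary circles only -/
theorem nk_Zn {j : Fin 3} {P Q t : ℝ} (h : PQ P Q) {k : Pc} (hk : nk j P Q t ∈ Zn k) :
    (k = .tA j ∧ P = 1 / 16 ∧ Q = 0) ∨ (k = .tB j ∧ P = 0 ∧ Q = 1 / 16) := by
  have h' := h
  obtain ⟨h1, h2, h3, h4, h5⟩ := h
  have hz := h400_nz P Q t h1
  have hw := h400_nw P Q t h2
  obtain ⟨-, -, -, -, n5, n6, n7, -, -, -, -, -, n13, n14, n15⟩ :=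
    near_facts (v := h400_pt P Q t) (by linarith) (by linarith)
  have hbx := nk_box h' j t
  have hsx : |(sh j (nk j P Q t).1).1| < 1 := by rw [sh_nk]; linarith
  cases k with
  | base =>
    exfalso
    obtain ⟨hM, -⟩ := BL_M0 (j := j) (v := (nk j P Q t).1) hbx.1 hbx.2 hk.2.1
    rw [sh_nk] at hM
    exact n13 hM
  | tA i =>
    left
    have hij : i = j := by
      by_contra hne
      have := far hne (tA_x hk)
      linarith
    subst hij
    obtain ⟨-, hA, -⟩ := hk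
    rw [sh_nk] at hA
    obtain ⟨e1, e2⟩ := n14.1 hA
    have hQ : Q = 0 := by
      rw [← hw]
      unfold nw
      rw [e1, e2]
      simp
    refine ⟨rfl, le_antisymm h3 ?_, hQ⟩
    by_contra hcon
    push Not at hcon
    have := bet_pos hcon
    rw [hQ, bet_zero] at h5
    linarith
  | tB i =>
    right
    have hij : i = j := by
      by_contra hne
      have := far hne (tB_x hk)
      linarith
    subst hij
    obtain ⟨-, hB, -⟩ := hk
    rw [sh_nk] at hB
    obtain ⟨e1, e2⟩ := n15.1 hB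
    have hP : P = 0 := by
      rw [← hz]
      unfold nz
      rw [e1, e2]
      simp
    refine ⟨rfl, hP, le_antisymm h4 ?_⟩
    by_contra hcon
    push Not at hcon
    have := bet_pos hcon
    rw [hP, bet_zero] at h5
    linarith

/-- the lower boundary circle lies in the tube B -/
theorem nk_tB {j : Fin 3} {t : ℝ} : nk j 0 (1 / 16) t ∈ Zn (.tB j) := by
  have hz := h400_nz 0 (1 / 16) t le_rfl
  have hw := h400_nw 0 (1 / 16) t (by norm_num)
  obtain ⟨-, -, -, -, n5, n6, n7, -, -, -, -, -, n13, n14, n15⟩ :=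
    near_facts (v := h400_pt 0 (1 / 16) t) (by rw [hz]; norm_num) (by rw [hw]; norm_num)
  have he := h400_end2 t
  refine ⟨rfl, ?_⟩
  rw [sh_nk]
  refine ⟨n15.2 ⟨he.1, he.2.1⟩, fun hD => ?_⟩
  have := hD.2.2
  rw [hw] at this
  exact lt_irrefl _ this

theorem nk_tA {j : Fin 3} {t : ℝ} : nk j (1 / 16) 0 t ∈ Zn (.tA j) := by
  have hz := h400_nz (1 / 16) 0 t (by norm_num)
  have hw := h400_nw (1 / 16) 0 t le_rfl
  obtain ⟨-, -, -, -, n5, n6, n7, -, -, -, -, n12, n13, n14, n15⟩ :=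
    near_facts (v := h400_pt (1 / 16) 0 t) (by rw [hz]; norm_num) (by rw [hw]; norm_num)
  have he := h400_end1 t
  refine ⟨?_, ?_⟩
  · show (0 : ℝ) = lab (sh j (nk j (1 / 16) 0 t).1)
    rw [sh_nk, n12]
  rw [sh_nk]
  refine ⟨n14.2 ⟨he.1, he.2.1⟩, fun hD => ?_⟩
  have := hD.2.2
  rw [hz] at this
  exact lt_irrefl _ this

theorem PQ.P_pos {P Q : ℝ} (h : PQ P Q) {j : Fin 3} {t : ℝ} (h2 : nk j P Q t ∉ K2) : 0 < P := by
  rcases lt_or_eq_of_le h.1 with h3 | h3
  · exact h3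
  · exfalso
    subst h3
    have hQ : Q = 1 / 16 := by
      obtain ⟨-, -, -, h4, h5⟩ := h
      refine le_antisymm h4 ?_
      by_contra hcon
      push Not at hcon
      have := bet_pos hcon
      rw [bet_zero] at h5
      linarith
    subst hQ
    exact h2 (Or.inr (Or.inr ⟨j, nk_tB⟩))

theorem PQ.Q_pos {P Q : ℝ} (h : PQ P Q) {j : Fin 3} {t : ℝ} (h2 : nk j P Q t ∉ K1) : 0 < Q := by
  rcases lt_or_eq_of_le h.2.1 with h3 | h3
  · exact h3
  · exfalso
    subst h3
    have hP : P = 1 / 16 := by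
      obtain ⟨-, -, h4, -, h5⟩ := h
      refine le_antisymm h4 ?_
      by_contra hcon
      push Not at hcon
      have := bet_pos hcon
      rw [bet_zero] at h5
      linarith
    subst hP
    refine h2 (Or.inr ⟨j, nk_tA, ?_⟩)
    show -(1 / 2) ≤ 1 / 16 * Real.sin t
    have := Real.neg_one_le_sin t
    linarith

/-! ### the frames on the necks -/

theorem Nrm.comb {m : V × ℝ} {n n' : V} (h : Nrm m n n') (a b c d : ℝ) :
    Nrm m (a • n + b • n') (c • n + d • n') := by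
  obtain ⟨i, hi, h⟩ := h
  refine ⟨i, hi, fun w h1 h2 => ?_⟩
  obtain ⟨e1, e2⟩ := h w h1 h2
  simp only [hh_add_left, hh_smul_left, e1, e2]
  simp

theorem Ind.comb {n n' : V} (h : Ind n n') {a b c d : ℝ} (hd : a * d - b * c ≠ 0) :
    Ind (a • n + b • n') (c • n + d • n') := by
  intro x y hxy
  have e : (x * a + y * c) • n + (x * b + y * d) • n' = 0 := by
    rw [← hxy]
    module
  obtain ⟨h1, h2⟩ := h _ _ e
  constructor
  · have : x * (a * d - b * c) = 0 := by linear_combination d * h1 - c * h2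
    exact (mul_eq_zero.1 this).resolve_right hd
  · have : y * (a * d - b * c) = 0 := by linear_combination a * h2 - b * h1
    exact (mul_eq_zero.1 this).resolve_right hd

/-- `fC` in coordinates of the neck -/
theorem fC_nk {P Q t : ℝ} (h : PQ P Q) (hP : 0 < P) : fC (h400_pt P Q t) =
    ((-Real.cos t) • Rv P Q (Real.cos t) (Real.sin t) +
      (-(16 * b0 * Real.sin t)) • Iv P Q (Real.cos t) (Real.sin t),
     (Real.sin t / b0) • Rv P Q (Real.cos t) (Real.sin t) +
      (-(16 * Real.cos t)) • Iv P Q (Real.cos t) (Real.sin t)) := by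
  have hz := h400_nz P Q t h.1
  have hw := h400_nw P Q t h.2.1
  have hx := h400_X2 P Q t
  have e1 : X2 (h400_pt P Q t) / nz (h400_pt P Q t) = Real.cos t := by
    rw [hz, hx]; field_simp
  have e2 : (h400_pt P Q t).2.2.1 / nz (h400_pt P Q t) = Real.sin t := by
    rw [hz]
    show P * Real.sin t / P = _
    field_simp
  unfold fC
  rw [e1, e2, hz, hw]
  simp only [neg_smul, sub_eq_add_neg]

theorem fD_nk {P Q t : ℝ} (h : PQ P Q) (hQ : 0 < Q) : fD (h400_pt P Q t) =
    ((-Real.cos t) • Rv P Q (Real.cos t) (Real.sin t) +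
      (16 * b0 * Real.sin t) • Iv P Q (Real.cos t) (Real.sin t),
     (-(Real.sin t / b0)) • Rv P Q (Real.cos t) (Real.sin t) +
      (-(16 * Real.cos t)) • Iv P Q (Real.cos t) (Real.sin t)) := by
  have hz := h400_nz P Q t h.1
  have hw := h400_nw P Q t h.2.1
  have hx := h400_X1 P Q t
  have e1 : X1 (h400_pt P Q t) / nw (h400_pt P Q t) = Real.cos t := by
    rw [hw, hx]; field_simp
  have e2 : -(h400_pt P Q t).2.2.2 / nw (h400_pt P Q t) = Real.sin t := by
    rw [hw]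
    show -(-(Q * Real.sin t)) / Q = _
    rw [neg_neg]
    field_simp
  unfold fD
  rw [e1, e2, hz, hw]
  simp only [neg_smul, sub_eq_add_neg]

theorem b0_ne : b0 ≠ 0 := b0_neg.ne

theorem b16z : deriv bet (1 / 16) = 0 := bet_deriv_zero le_rfl

/-- at the upper boundary circle the frame is that of the tube A -/
theorem fC_end (t : ℝ) : fC (h400_pt (1 / 16) 0 t) = (gA (h400_pt (1 / 16) 0 t), er) := by
  have hPQ : PQ (1 / 16) 0 := ⟨by norm_num, le_rfl, le_rfl, by norm_num, by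
    rw [bet_eq_zero le_rfl, bet_zero, zero_add]⟩
  rw [fC_nk hPQ (by norm_num)]
  have hz := h400_nz (1 / 16) 0 t (by norm_num)
  have hw := h400_nw (1 / 16) 0 t le_rfl
  obtain ⟨-, -, n3, n4, n5, n6, n7, n8, -⟩ :=
    near_facts (v := h400_pt (1 / 16) 0 t) (by rw [hz]; norm_num) (by rw [hw]; norm_num)
  have hX1 := (h400_end1 t).1
  have hk : kA (h400_pt (1 / 16) 0 t) - 1 / 2 = 0 := by rw [n8, hX1]; ring
  have n5' := abs_lt.1 n5
  have hg : gA (h400_pt (1 / 16) 0 t) = (b0, b0, 0, 0) := by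
    unfold gA
    rw [hk, gg_one (by linarith), gg_one (by linarith), alp_deriv_zero (by linarith)]
    simp [b0]
  rw [hg]
  have hcs := Real.cos_sq_add_sin_sq t
  have hb := b0_ne
  unfold Rv Iv
  rw [b16z]
  have e0 : deriv bet 0 = b0 := rfl
  rw [e0]
  generalize Real.cos t = c at *
  generalize Real.sin t = s at *
  unfold er
  refine Prod.ext (Prod.ext ?_ (Prod.ext ?_ (Prod.ext ?_ ?_)))
    (Prod.ext ?_ (Prod.ext ?_ (Prod.ext ?_ ?_)))
  · show -c * (-b0 * c + -0 * -c) + -(16 * b0 * s) * (1 / 16 * -s - 0 * s) = b0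
    linear_combination b0 * hcs
  · show -c * (-b0 * c + -0 * c) + -(16 * b0 * s) * (1 / 16 * -s - 0 * -s) = b0
    linear_combination b0 * hcs
  · show -c * (-b0 * 0 + -0 * s) + -(16 * b0 * s) * (1 / 16 * 0 - 0 * c) = 0
    ring
  · show -c * (-b0 * -s + -0 * 0) + -(16 * b0 * s) * (1 / 16 * -c - 0 * 0) = 0
    ring
  · show s / b0 * (-b0 * c + -0 * -c) + -(16 * c) * (1 / 16 * -s - 0 * s) = 0
    field_simp
    ring
  · show s / b0 * (-b0 * c + -0 * c) + -(16 * c) * (1 / 16 * -s - 0 * -s) = 0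
    field_simp
    ring
  · show s / b0 * (-b0 * 0 + -0 * s) + -(16 * c) * (1 / 16 * 0 - 0 * c) = 0
    ring
  · show s / b0 * (-b0 * -s + -0 * 0) + -(16 * c) * (1 / 16 * -c - 0 * 0) = 1
    field_simp
    linear_combination b0 * hcs

/-- at the lower boundary circle the frame is that of the tube B -/
theorem fD_end (t : ℝ) : fD (h400_pt 0 (1 / 16) t) = (gB (h400_pt 0 (1 / 16) t), ep) := by
  have hPQ : PQ 0 (1 / 16) := ⟨le_rfl, by norm_num, by norm_num, le_rfl, by
    rw [bet_eq_zero (d := 1 / 16) le_rfl, bet_zero, add_zero]⟩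
  rw [fD_nk hPQ (by norm_num)]
  have hz := h400_nz 0 (1 / 16) t le_rfl
  have hw := h400_nw 0 (1 / 16) t (by norm_num)
  obtain ⟨-, -, n3, n4, n5, n6, n7, -, n9, -⟩ :=
    near_facts (v := h400_pt 0 (1 / 16) t) (by rw [hz]; norm_num) (by rw [hw]; norm_num)
  have hX2 := (h400_end2 t).1
  have hk : kB (h400_pt 0 (1 / 16) t) - 1 / 2 = 0 := by rw [n9, hX2]; ring
  have n5' := abs_lt.1 n5
  have hg : gB (h400_pt 0 (1 / 16) t) = (-b0, b0, 0, 0) := by
    have e6 : gg ((h400_pt 0 (1 / 16) t).1 - 1 / 4) = -1 := by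
      have : (h400_pt 0 (1 / 16) t).1 - 1 / 4 = -(1 / 4 - (h400_pt 0 (1 / 16) t).1) := by ring
      rw [this, gg_neg, gg_one (by linarith)]
    unfold gB
    rw [hk, e6, gg_one (by linarith), alp_deriv_zero (by linarith)]
    simp [b0]
  rw [hg]
  have hcs := Real.cos_sq_add_sin_sq t
  have hb := b0_ne
  unfold Rv Iv
  rw [b16z]
  have e0 : deriv bet 0 = b0 := rfl
  rw [e0]
  generalize Real.cos t = c at *
  generalize Real.sin t = s at *
  unfold ep
  refine Prod.ext (Prod.ext ?_ (Prod.ext ?_ (Prod.ext ?_ ?_)))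
    (Prod.ext ?_ (Prod.ext ?_ (Prod.ext ?_ ?_)))
  · show -c * (-0 * c + -b0 * -c) + (16 * b0 * s) * (0 * -s - 1 / 16 * s) = -b0
    linear_combination (-b0) * hcs
  · show -c * (-0 * c + -b0 * c) + (16 * b0 * s) * (0 * -s - 1 / 16 * -s) = b0
    linear_combination b0 * hcs
  · show -c * (-0 * 0 + -b0 * s) + (16 * b0 * s) * (0 * 0 - 1 / 16 * c) = 0
    ring
  · show -c * (-0 * -s + -b0 * 0) + (16 * b0 * s) * (0 * -c - 1 / 16 * 0) = 0
    ring
  · show -(s / b0) * (-0 * c + -b0 * -c) + -(16 * c) * (0 * -s - 1 / 16 * s) = 0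
    field_simp
    ring
  · show -(s / b0) * (-0 * c + -b0 * c) + -(16 * c) * (0 * -s - 1 / 16 * -s) = 0
    field_simp
    ring
  · show -(s / b0) * (-0 * 0 + -b0 * s) + -(16 * c) * (0 * 0 - 1 / 16 * c) = 1
    field_simp
    linear_combination b0 * hcs
  · show -(s / b0) * (-0 * -s + -b0 * 0) + -(16 * c) * (0 * -c - 1 / 16 * 0) = 0
    ring

theorem NK_unique {i j : Fin 3} {m : V × ℝ} (h1 : m ∈ NK i) (h2 : m ∈ NK j) : i = j := by
  by_contra hne
  obtain ⟨P, Q, t, h, rfl⟩ := PQ.exists_nk h1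
  obtain ⟨P', Q', t', h', e⟩ := PQ.exists_nk h2
  have a1 : |(sh i (nk i P Q t).1).1| < 15 / 16 := (nk_box h i t).1
  have a2 : |(sh j (nk i P Q t).1).1| < 15 / 16 := by
    rw [e]; exact (nk_box h' j t').1
  have := far hne (v := (nk i P Q t).1) (by linarith)
  linarith

theorem frC_neck {j : Fin 3} {m : V × ℝ} (hm : m ∈ NK j) (h2 : m ∉ K2) :
    frC m = fC (sh j m.1) := by
  unfold frC
  by_cases hO : m ∈ MO
  · rw [if_pos hO]
    obtain ⟨k, hk⟩ := mem_iUnion.1 hO
    rw [frm_eq hk]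
    obtain ⟨P, Q, t, h, rfl⟩ := PQ.exists_nk hm
    rcases nk_Zn h hk with ⟨rfl, rfl, rfl⟩ | ⟨rfl, rfl, rfl⟩
    · show (gA (sh j (nk j (1 / 16) 0 t).1), er) = _
      rw [sh_nk, fC_end]
    · exact absurd (Or.inr (Or.inr ⟨j, hk⟩)) h2
  · have h : ∃ j, m ∈ NK j := ⟨j, hm⟩
    rw [if_neg hO, dif_pos h, NK_unique h.choose_spec hm]

theorem frD_neck {j : Fin 3} {m : V × ℝ} (hm : m ∈ NK j) (h2 : m ∉ K1) :
    frD m = fD (sh j m.1) := by
  unfold frD
  by_cases hO : m ∈ MO
  · rw [if_pos hO]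
    obtain ⟨k, hk⟩ := mem_iUnion.1 hO
    rw [frm_eq hk]
    obtain ⟨P, Q, t, h, rfl⟩ := PQ.exists_nk hm
    rcases nk_Zn h hk with ⟨rfl, rfl, rfl⟩ | ⟨rfl, rfl, rfl⟩
    · exfalso
      have := h.Q_pos h2
      exact lt_irrefl _ this
    · show (gB (sh j (nk j 0 (1 / 16) t).1), ep) = _
      rw [sh_nk, fD_end]
  · have h : ∃ j, m ∈ NK j := ⟨j, hm⟩
    rw [if_neg hO, dif_pos h, NK_unique h.choose_spec hm]

theorem frC_MO {m : V × ℝ} (hm : m ∈ MO) : frC m = frm m := if_pos hm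
theorem frD_MO {m : V × ℝ} (hm : m ∈ MO) : frD m = frm m := if_pos hm

theorem MO_or {m : V × ℝ} (hm : m ∈ MT) : m ∈ MO ∨ ∃ j, m ∈ NK j := by
  rcases MT_eq.1 hm with ⟨k, hk⟩ | h
  · exact Or.inl (mem_iUnion.2 ⟨k, hk⟩)
  · exact Or.inr h

theorem frC_nrm {m : V × ℝ} (hm : m ∈ MT) (h2 : m ∉ K2) :
    Nrm m (frC m).1 (frC m).2 ∧ Ind (frC m).1 (frC m).2 := by
  rcases MO_or hm with hO | ⟨j, hj⟩
  · rw [frC_MO hO]
    exact ⟨frm_nrm hO, frm_ind hO⟩
  · rw [frC_neck hj h2]
    obtain ⟨P, Q, t, h, rfl⟩ := PQ.exists_nk hj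
    rw [sh_nk, fC_nk h (h.P_pos h2)]
    have hcs := Real.cos_sq_add_sin_sq t
    refine ⟨(neck_nrm h j t).comb _ _ _ _, (neck_ind h hcs).comb ?_⟩
    have hb := b0_ne
    have e : -Real.cos t * -(16 * Real.cos t) - -(16 * b0 * Real.sin t) * (Real.sin t / b0) = 16 := by
      field_simp
      linear_combination hcs
    rw [e]; norm_num

theorem frD_nrm {m : V × ℝ} (hm : m ∈ MT) (h2 : m ∉ K1) :
    Nrm m (frD m).1 (frD m).2 ∧ Ind (frD m).1 (frD m).2 := by
  rcases MO_or hm with hO | ⟨j, hj⟩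
  · rw [frD_MO hO]
    exact ⟨frm_nrm hO, frm_ind hO⟩
  · rw [frD_neck hj h2]
    obtain ⟨P, Q, t, h, rfl⟩ := PQ.exists_nk hj
    rw [sh_nk, fD_nk h (h.Q_pos h2)]
    have hcs := Real.cos_sq_add_sin_sq t
    refine ⟨(neck_nrm h j t).comb _ _ _ _, (neck_ind h hcs).comb ?_⟩
    have hb := b0_ne
    have e : -Real.cos t * -(16 * Real.cos t) - 16 * b0 * Real.sin t * -(Real.sin t / b0) = 16 := by
      field_simp
      linear_combination hcs
    rw [e]; norm_num

theorem Rv_cont : Continuous fun q : (ℝ × ℝ) × ℝ × ℝ => Rv q.1.1 q.1.2 q.2.1 q.2.2 := by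
  have := bet'_cont
  unfold Rv
  fun_prop

theorem Iv_cont : Continuous fun q : (ℝ × ℝ) × ℝ × ℝ => Iv q.1.1 q.1.2 q.2.1 q.2.2 := by
  unfold Iv
  fun_prop

theorem fC_cont : ContinuousOn fC {v | nz v ≠ 0} := by
  have hz := nz_cont'
  have hw := nw_cont'
  have hx2 : Continuous X2 := by unfold X2; fun_prop
  have h1 : ContinuousOn (fun v => X2 v / nz v) {v | nz v ≠ 0} :=
    hx2.continuousOn.div hz.continuousOn fun v hv => hv
  have h2 : ContinuousOn (fun v : V => v.2.2.1 / nz v) {v | nz v ≠ 0} :=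
    ContinuousOn.div (by fun_prop) hz.continuousOn fun v hv => hv
  have hR : ContinuousOn (fun v : V => Rv (nz v) (nw v) (X2 v / nz v) (v.2.2.1 / nz v))
      {v | nz v ≠ 0} :=
    Rv_cont.comp_continuousOn (f := fun v : V => ((nz v, nw v), (X2 v / nz v, v.2.2.1 / nz v)))
      ((hz.continuousOn.prodMk hw.continuousOn).prodMk (h1.prodMk h2))
  have hI : ContinuousOn (fun v : V => Iv (nz v) (nw v) (X2 v / nz v) (v.2.2.1 / nz v))
      {v | nz v ≠ 0} :=
    Iv_cont.comp_continuousOn (f := fun v : V => ((nz v, nw v), (X2 v / nz v, v.2.2.1 / nz v)))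
      ((hz.continuousOn.prodMk hw.continuousOn).prodMk (h1.prodMk h2))
  unfold fC
  exact ((h1.neg.smul hR).sub ((continuousOn_const.mul h2).smul hI)).prodMk
    (((h2.div_const b0).smul hR).sub ((continuousOn_const.mul h1).smul hI))

theorem fD_cont : ContinuousOn fD {v | nw v ≠ 0} := by
  have hz := nz_cont'
  have hw := nw_cont'
  have hx1 : Continuous X1 := by unfold X1; fun_prop
  have h1 : ContinuousOn (fun v => X1 v / nw v) {v | nw v ≠ 0} :=
    hx1.continuousOn.div hw.continuousOn fun v hv => hv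
  have h2 : ContinuousOn (fun v : V => -v.2.2.2 / nw v) {v | nw v ≠ 0} :=
    ContinuousOn.div (by fun_prop) hw.continuousOn fun v hv => hv
  have hR : ContinuousOn (fun v : V => Rv (nz v) (nw v) (X1 v / nw v) (-v.2.2.2 / nw v))
      {v | nw v ≠ 0} :=
    Rv_cont.comp_continuousOn (f := fun v : V => ((nz v, nw v), (X1 v / nw v, -v.2.2.2 / nw v)))
      ((hz.continuousOn.prodMk hw.continuousOn).prodMk (h1.prodMk h2))
  have hI : ContinuousOn (fun v : V => Iv (nz v) (nw v) (X1 v / nw v) (-v.2.2.2 / nw v))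
      {v | nw v ≠ 0} :=
    Iv_cont.comp_continuousOn (f := fun v : V => ((nz v, nw v), (X1 v / nw v, -v.2.2.2 / nw v)))
      ((hz.continuousOn.prodMk hw.continuousOn).prodMk (h1.prodMk h2))
  unfold fD
  exact ((h1.neg.smul hR).add ((continuousOn_const.mul h2).smul hI)).prodMk
    (((h2.div_const b0).neg.smul hR).sub ((continuousOn_const.mul h1).smul hI))

theorem MO_closed : IsClosed MO := isClosed_iUnion_of_finite Zn_closed

theorem frC_cont : ContinuousOn frC (MT \ K2) := by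
  refine cont_cover (ι := Option (Fin 3)) (C := fun o => match o with
    | none => MO
    | some j => NK j) (fun o => ?_) (fun m hm => ?_) fun o => ?_
  · cases o with
    | none => exact MO_closed
    | some j => exact NK_closed j
  · rcases MO_or hm.1 with h | ⟨j, h⟩
    · exact mem_iUnion.2 ⟨none, h⟩
    · exact mem_iUnion.2 ⟨some j, h⟩
  · cases o with
    | none =>
      exact (frm_cont.mono inter_subset_right).congr fun m hm => frC_MO hm.2
    | some j =>
      have h : ContinuousOn (fun m : V × ℝ => fC (sh j m.1)) ((MT \ K2) ∩ NK j) := by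
        refine fC_cont.comp ((sh_cont j).comp continuous_fst).continuousOn fun m hm => ?_
        obtain ⟨P, Q, t, h, rfl⟩ := PQ.exists_nk hm.2
        show nz (sh j (nk j P Q t).1) ≠ 0
        rw [sh_nk, h400_nz P Q t h.1]
        exact (h.P_pos hm.1.2).ne'
      exact h.congr fun m hm => frC_neck hm.2 hm.1.2

theorem frD_cont : ContinuousOn frD (MT \ K1) := by
  refine cont_cover (ι := Option (Fin 3)) (C := fun o => match o with
    | none => MO
    | some j => NK j) (fun o => ?_) (fun m hm => ?_) fun o => ?_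
  · cases o with
    | none => exact MO_closed
    | some j => exact NK_closed j
  · rcases MO_or hm.1 with h | ⟨j, h⟩
    · exact mem_iUnion.2 ⟨none, h⟩
    · exact mem_iUnion.2 ⟨some j, h⟩
  · cases o with
    | none =>
      exact (frm_cont.mono inter_subset_right).congr fun m hm => frD_MO hm.2
    | some j =>
      have h : ContinuousOn (fun m : V × ℝ => fD (sh j m.1)) ((MT \ K1) ∩ NK j) := by
        refine fD_cont.comp ((sh_cont j).comp continuous_fst).continuousOn fun m hm => ?_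
        obtain ⟨P, Q, t, h, rfl⟩ := PQ.exists_nk hm.2
        show nw (sh j (nk j P Q t).1) ≠ 0
        rw [sh_nk, h400_nw P Q t h.2.1]
        exact (h.Q_pos hm.1.2).ne'
      exact h.congr fun m hm => frD_neck hm.2 hm.1.2

end Pool.Agent.TH619
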