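import Mathlib
import Pool.Agent.Helper775.Tight.SingDefs

/-! Local 1-cocycles with values in an abelian group, and their potentials. -/

set_option autoImplicit false

namespace Pool.Agent.TH619

open Set Topology
open Pool.Agent.Helper775.Tight (Sing sface)

/-- `t` is a local 1-cocycle: it is additive on triples of sufficiently close points -/
def LC {X G : Type} [TopologicalSpace X] [AddCommGroup G] (t : X → X → G) : Prop :=
  ∀ x : X, ∃ W ∈ 𝓝 x, ∀ a ∈ W, ∀ b ∈ W, ∀ c ∈ W, t a b + t b c = t a c

/-- `t` and `t'` are cohomologous on the open set `O` by means of `α` -/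
def CohOn {X G : Type} [TopologicalSpace X] [AddCommGroup G] (O : Set X) (t t' : X → X → G)
    (α : X → G) : Prop :=
  ∀ x ∈ O, ∃ W ∈ 𝓝 x, ∀ a ∈ W, ∀ b ∈ W, t a b = t' a b + α b - α a

/-- `g` is a potential of `t` along the singular simplex `σ` -/
def Pot {X G : Type} [TopologicalSpace X] [AddCommGroup G] (t : X → X → G) {n : ℕ} (σ : Sing X n)
    (g : stdSimplex ℝ (Fin (n + 1)) → G) : Prop :=
  ∀ s, ∃ W ∈ 𝓝 s, ∀ a ∈ W, ∀ b ∈ W, t (σ a) (σ b) = g b - g a

/-- the integer `(arg w - arg z - arg (w / z)) / 2π` (for nonzero `z`, `w`) -/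
noncomputable def wn (z w : ℂ) : ℤ :=
  round ((Complex.arg w - Complex.arg z - Complex.arg (w / z)) / (2 * Real.pi))

/-- the local 1-cocycle of a nowhere vanishing function -/
noncomputable def tt {X : Type} (u : X → ℂ) (a b : X) : ZMod 6 := (wn (u a) (u b) : ZMod 6)

end Pool.Agent.TH619
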