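import Pool.Agent.TH619.Ovl2

/-! The overlap: the necks, and the assembly. -/

set_option autoImplicit false

namespace Pool.Agent.TH619

open Set Topology Filter
open scoped InnerProductSpace Manifold ContDiff
open Pool.Agent.Helper874.Odd

/-- points of the neck pieces -/
theorem OO_nk {j : Fin 3} {q : (V × ℝ) × E 4} (hq : q ∈ OO ∩ {q | q.1 ∈ NK j}) :
    ∃ P Q t, PQ P Q ∧ 0 < P ∧ 0 < Q ∧ q.1 = nk j P Q t := by
  obtain ⟨⟨h1, h2, h3⟩, h4⟩ := hq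
  obtain ⟨P, Q, t, h, e⟩ := PQ.exists_nk h4
  rw [e] at h2 h3
  exact ⟨P, Q, t, h, h.P_pos h3, h.Q_pos h2, e⟩

theorem zt_ne (hco : ∀ q ∈ NT, ∀ n n' : V, Nrm q.1 n n' → Ind n n' → co n n' q.2 ≠ 0)
    {j : Fin 3} {P Q t : ℝ} (h : PQ P Q) (hP : 0 < P) {ν : E 4} (hq : (nk j P Q t, ν) ∈ NT) :
    zt (h400_pt P Q t) ν ≠ 0 := by
  have h1 := hco _ hq _ _ (neck_nrm h j t) (neck_ind h (Real.cos_sq_add_sin_sq t))
  rw [zt_nk h hP]
  intro h0
  apply h1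
  have e1 : ⟪toE (Rv P Q (Real.cos t) (Real.sin t)), ν⟫_ℝ / (-b0) = 0 := congrArg Complex.re h0
  have e2 : 16 * ⟪toE (Iv P Q (Real.cos t) (Real.sin t)), ν⟫_ℝ = 0 := congrArg Complex.im h0
  have hb : -b0 ≠ 0 := neg_ne_zero.2 b0_ne
  apply Complex.ext
  · exact (div_eq_zero_iff.1 e1).resolve_right hb
  · exact (mul_eq_zero.1 e2).resolve_left (by norm_num)

theorem fst_cont' : Continuous fun q : (V × ℝ) × E 4 => q.1.1 := continuous_fst.comp continuous_fst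

/-- the value functions on the neck piece -/
theorem nk_vals {j : Fin 3} {q : (V × ℝ) × E 4} (hq : q ∈ OO ∩ {q | q.1 ∈ NK j}) :
    nz (sh j q.1.1) ≠ 0 ∧ nw (sh j q.1.1) ≠ 0 := by
  obtain ⟨P, Q, t, h, hP, hQ, e⟩ := OO_nk hq
  rw [e, sh_nk, h400_nz P Q t h.1, h400_nw P Q t h.2.1]
  exact ⟨hP.ne', hQ.ne'⟩

theorem piece_NK (hco : ∀ q ∈ NT, ∀ n n' : V, Nrm q.1 n n' → Ind n n' → co n n' q.2 ≠ 0)
    (j : Fin 3) : Piece (OO ∩ {q | q.1 ∈ NK j}) (fun _ => 1) := by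
  refine ⟨continuousOn_const, fun _ _ => one_ne_zero, ?_⟩
  set s : Set ((V × ℝ) × E 4) := OO ∩ {q | q.1 ∈ NK j} with hs
  have hsh : Continuous fun q : (V × ℝ) × E 4 => sh j q.1.1 := (sh_cont j).comp fst_cont'
  have hz : Continuous fun q : (V × ℝ) × E 4 => nz (sh j q.1.1) := nz_cont'.comp hsh
  have hw : Continuous fun q : (V × ℝ) × E 4 => nw (sh j q.1.1) := nw_cont'.comp hsh
  have hX1 : Continuous fun q : (V × ℝ) × E 4 => X1 (sh j q.1.1) := X1_cont.comp hsh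
  have hX2 : Continuous fun q : (V × ℝ) × E 4 => X2 (sh j q.1.1) := X2_cont.comp hsh
  have hp : Continuous fun q : (V × ℝ) × E 4 => (sh j q.1.1).2.2.1 := by fun_prop
  have hr : Continuous fun q : (V × ℝ) × E 4 => (sh j q.1.1).2.2.2 := by fun_prop
  have hν : ContinuousOn (fun q : (V × ℝ) × E 4 => q.2) s := continuous_snd.continuousOn
  have c1 : ContinuousOn (fun q : (V × ℝ) × E 4 => X2 (sh j q.1.1) / nz (sh j q.1.1)) s :=
    hX2.continuousOn.div hz.continuousOn fun q hq => (nk_vals hq).1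
  have c2 : ContinuousOn (fun q : (V × ℝ) × E 4 => (sh j q.1.1).2.2.1 / nz (sh j q.1.1)) s :=
    hp.continuousOn.div hz.continuousOn fun q hq => (nk_vals hq).1
  have c3 : ContinuousOn (fun q : (V × ℝ) × E 4 => X1 (sh j q.1.1) / nw (sh j q.1.1)) s :=
    hX1.continuousOn.div hw.continuousOn fun q hq => (nk_vals hq).2
  have c4 : ContinuousOn (fun q : (V × ℝ) × E 4 => (sh j q.1.1).2.2.2 / nw (sh j q.1.1)) s :=
    hr.continuousOn.div hw.continuousOn fun q hq => (nk_vals hq).2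
  have ce : ContinuousOn (fun q : (V × ℝ) × E 4 => (⟨X2 (sh j q.1.1) / nz (sh j q.1.1),
      (sh j q.1.1).2.2.1 / nz (sh j q.1.1)⟩ : ℂ)) s := mk_cont c1 c2
  have cf : ContinuousOn (fun q : (V × ℝ) × E 4 => (⟨X1 (sh j q.1.1) / nw (sh j q.1.1),
      (sh j q.1.1).2.2.2 / nw (sh j q.1.1)⟩ : ℂ)) s := mk_cont c3 c4
  have cR : ContinuousOn (fun q : (V × ℝ) × E 4 => Rv (nz (sh j q.1.1)) (nw (sh j q.1.1))
      (X2 (sh j q.1.1) / nz (sh j q.1.1)) ((sh j q.1.1).2.2.1 / nz (sh j q.1.1))) s :=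
    Rv_cont.comp_continuousOn (f := fun q : (V × ℝ) × E 4 => ((nz (sh j q.1.1), nw (sh j q.1.1)),
      (X2 (sh j q.1.1) / nz (sh j q.1.1), (sh j q.1.1).2.2.1 / nz (sh j q.1.1))))
      ((hz.continuousOn.prodMk hw.continuousOn).prodMk (c1.prodMk c2))
  have cI : ContinuousOn (fun q : (V × ℝ) × E 4 => Iv (nz (sh j q.1.1)) (nw (sh j q.1.1))
      (X2 (sh j q.1.1) / nz (sh j q.1.1)) ((sh j q.1.1).2.2.1 / nz (sh j q.1.1))) s :=
    Iv_cont.comp_continuousOn (f := fun q : (V × ℝ) × E 4 => ((nz (sh j q.1.1), nw (sh j q.1.1)),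
      (X2 (sh j q.1.1) / nz (sh j q.1.1), (sh j q.1.1).2.2.1 / nz (sh j q.1.1))))
      ((hz.continuousOn.prodMk hw.continuousOn).prodMk (c1.prodMk c2))
  have czt : ContinuousOn (fun q : (V × ℝ) × E 4 => zt (sh j q.1.1) q.2) s :=
    mk_cont (((toE.continuous.comp_continuousOn cR).inner hν).div_const _)
      (continuousOn_const.mul ((toE.continuous.comp_continuousOn cI).inner hν))
  have cC : ContinuousOn (fun q : (V × ℝ) × E 4 =>
      co (fC (sh j q.1.1)).1 (fC (sh j q.1.1)).2 q.2) s := by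
    have h := fC_cont.comp (s := s) hsh.continuousOn fun q hq => (nk_vals hq).1
    exact co_cont (continuous_fst.comp_continuousOn h) (continuous_snd.comp_continuousOn h) hν
  have cD : ContinuousOn (fun q : (V × ℝ) × E 4 =>
      co (fD (sh j q.1.1)).1 (fD (sh j q.1.1)).2 q.2) s := by
    have h := fD_cont.comp (s := s) hsh.continuousOn fun q hq => (nk_vals hq).2
    exact co_cont (continuous_fst.comp_continuousOn h) (continuous_snd.comp_continuousOn h) hν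
  -- values
  have val : ∀ q ∈ s, ∃ P Q t, PQ P Q ∧ 0 < P ∧ 0 < Q ∧ sh j q.1.1 = h400_pt P Q t ∧
      zt (sh j q.1.1) q.2 ≠ 0 ∧
      (⟨X2 (sh j q.1.1) / nz (sh j q.1.1), (sh j q.1.1).2.2.1 / nz (sh j q.1.1)⟩ : ℂ) =
        ⟨Real.cos t, Real.sin t⟩ ∧
      (⟨X1 (sh j q.1.1) / nw (sh j q.1.1), (sh j q.1.1).2.2.2 / nw (sh j q.1.1)⟩ : ℂ) =
        ⟨Real.cos t, -Real.sin t⟩ ∧ nz (sh j q.1.1) = P ∧
      vz j q.1.1 = ⟨P * Real.cos t, P * Real.sin t + 2 * (Q * Real.cos t)⟩ := by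
    intro q hq
    obtain ⟨P, Q, t, h, hP, hQ, e⟩ := OO_nk hq
    have hm : (nk j P Q t, q.2) ∈ NT := by
      rw [← e]; exact hq.1.1
    have hzt := zt_ne hco h hP hm
    have e' : sh j q.1.1 = h400_pt P Q t := by rw [e, sh_nk]
    refine ⟨P, Q, t, h, hP, hQ, e', by rw [e']; exact hzt, ?_, ?_, ?_, ?_⟩
    · rw [e', (nk_cs h hP).1, (nk_cs h hP).2]
    · rw [e', h400_nw P Q t h.2.1, h400_X1]
      apply Complex.ext
      · simp only; field_simp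
      · show -(Q * Real.sin t) / Q = -Real.sin t
        field_simp
    · rw [e', h400_nz P Q t h.1]
    · rw [e, nk_vz]
  -- logarithms
  have l1 : HasLog s (fun q => co (fC (sh j q.1.1)).1 (fC (sh j q.1.1)).2 q.2 /
      (-((⟨X2 (sh j q.1.1) / nz (sh j q.1.1), (sh j q.1.1).2.2.1 / nz (sh j q.1.1)⟩ : ℂ) *
        zt (sh j q.1.1) q.2))) := by
    refine HasLog.of_slit (cC.div (ce.mul czt).neg ?_) ?_
    · intro q hq
      obtain ⟨P, Q, t, h, hP, hQ, e', hzt, he, hf, hn, hv⟩ := val q hq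
      rw [he]
      exact neg_ne_zero.2 (mul_ne_zero (cs_ne t) hzt)
    · intro q hq
      obtain ⟨P, Q, t, h, hP, hQ, e', hzt, he, hf, hn, hv⟩ := val q hq
      rw [he]
      rw [e'] at hzt ⊢
      rw [co_fC h hP]
      exact JJ_slit (mul_ne_zero (cs_ne t) hzt)
  have l2 : HasLog s (fun q => co (fD (sh j q.1.1)).1 (fD (sh j q.1.1)).2 q.2 /
      (-((⟨X1 (sh j q.1.1) / nw (sh j q.1.1), (sh j q.1.1).2.2.2 / nw (sh j q.1.1)⟩ : ℂ) *
        zt (sh j q.1.1) q.2))) := by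
    refine HasLog.of_slit (cD.div (cf.mul czt).neg ?_) ?_
    · intro q hq
      obtain ⟨P, Q, t, h, hP, hQ, e', hzt, he, hf, hn, hv⟩ := val q hq
      rw [hf]
      exact neg_ne_zero.2 (mul_ne_zero (cs_ne' t) hzt)
    · intro q hq
      obtain ⟨P, Q, t, h, hP, hQ, e', hzt, he, hf, hn, hv⟩ := val q hq
      rw [hf]
      rw [e'] at hzt ⊢
      rw [co_fD h hP hQ]
      exact JJ_slit (mul_ne_zero (cs_ne' t) hzt)
  have l3 : HasLog s (fun q => ((nz (sh j q.1.1) : ℝ) : ℂ)) := by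
    refine HasLog.of_slit (Complex.continuous_ofReal.comp_continuousOn hz.continuousOn) ?_
    intro q hq
    obtain ⟨P, Q, t, h, hP, hQ, e', hzt, he, hf, hn, hv⟩ := val q hq
    rw [hn]
    exact Complex.ofReal_mem_slitPlane.2 hP
  have hPe : ∀ q ∈ s, ((nz (sh j q.1.1) : ℝ) : ℂ) *
      (⟨X2 (sh j q.1.1) / nz (sh j q.1.1), (sh j q.1.1).2.2.1 / nz (sh j q.1.1)⟩ : ℂ) ≠ 0 := by
    intro q hq
    obtain ⟨P, Q, t, h, hP, hQ, e', hzt, he, hf, hn, hv⟩ := val q hq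
    rw [he, hn]
    exact mul_ne_zero (Complex.ofReal_ne_zero.2 hP.ne') (cs_ne t)
  have l4 : HasLog s (fun q => vz j q.1.1 / (((nz (sh j q.1.1) : ℝ) : ℂ) *
      (⟨X2 (sh j q.1.1) / nz (sh j q.1.1), (sh j q.1.1).2.2.1 / nz (sh j q.1.1)⟩ : ℂ))) := by
    refine HasLog.of_slit ((vzq_cont j).continuousOn.div
      ((Complex.continuous_ofReal.comp_continuousOn hz.continuousOn).mul ce) hPe) ?_
    intro q hq
    obtain ⟨P, Q, t, h, hP, hQ, e', hzt, he, hf, hn, hv⟩ := val q hq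
    rw [he, hn, hv]
    have e5 : ((P : ℝ) : ℂ) * (⟨Real.cos t, Real.sin t⟩ : ℂ) =
        ⟨P * Real.cos t, P * Real.sin t⟩ := by
      apply Complex.ext <;> simp
    rw [e5]
    exact vz_slit hP hQ
  have l5 : HasLog s (fun q => ∏ i ∈ Finset.univ.erase j, vz i q.1.1) := by
    refine log_prod (j := j) fun q hq => ?_
    obtain ⟨P, Q, t, h, hP, hQ, e⟩ := OO_nk hq
    rw [e]
    exact nk_X2 h
  obtain ⟨h, hc, he⟩ := (l1.div l2).div (((l3.mul l4).mul l5).pow 2)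
  refine ⟨h, hc, fun q hq => ?_⟩
  obtain ⟨P, Q, t, hPQ, hP, hQ, e', hzt, hee, hff, hn, hv⟩ := val q hq
  have e := Finset.mul_prod_erase Finset.univ (fun i => vz i q.1.1) (Finset.mem_univ j)
  have hm : q.1 ∈ MT := hq.1.1.1
  have hne : ∀ i, vz i q.1.1 ≠ 0 := fun i => vz_ne hm hq.1.2.2 i
  have hpr : (∏ i ∈ Finset.univ.erase j, vz i q.1.1) ≠ 0 :=
    Finset.prod_ne_zero_iff.2 fun i _ => hne i
  have hC := frC_nrm hm hq.1.2.2
  have hD := frD_nrm hm hq.1.2.1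
  have hC' := hco q hq.1.1 _ _ hC.1 hC.2
  have hD' := hco q hq.1.1 _ _ hD.1 hD.2
  rw [frC_neck hq.2 hq.1.2.2] at hC' ⊢
  rw [frD_neck hq.2 hq.1.2.1] at hD' ⊢
  have he' := he q hq
  simp only at he'
  rw [he', ← e]
  refine neck_alg ?_ ?_ hzt ?_ (hne j) hpr hC' hD'
  · rw [hee]; exact cs_ne t
  · rw [hee, hff]; exact cs_mul t
  · rw [hn]; exact Complex.ofReal_ne_zero.2 hP.ne'

/-! ### the assembly -/

/-- the closed pieces of the overlap -/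
def Cp : Option (Fin 3 ⊕ Fin 3) → Set ((V × ℝ) × E 4)
  | none => {q | q.1 ∈ Zn .base}
  | some (Sum.inl j) => {q | q.1 ∈ Zn (.tA j)}
  | some (Sum.inr j) => {q | q.1 ∈ NK j}

theorem Cp_closed (o : Option (Fin 3 ⊕ Fin 3)) : IsClosed (Cp o) := by
  rcases o with _ | (j | j)
  · exact (Zn_closed .base).preimage continuous_fst
  · exact (Zn_closed (.tA j)).preimage continuous_fst
  · exact (NK_closed j).preimage continuous_fst

theorem Cp_cover : OO ⊆ ⋃ o, Cp o := by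
  rintro q ⟨h1, h2, h3⟩
  rcases MT_eq.1 h1.1 with ⟨k, hk⟩ | ⟨j, hj⟩
  · cases k with
    | base => exact mem_iUnion.2 ⟨none, hk⟩
    | tA j => exact mem_iUnion.2 ⟨some (Sum.inl j), hk⟩
    | tB j => exact absurd (Or.inr (Or.inr ⟨j, hk⟩)) h3
  · exact mem_iUnion.2 ⟨some (Sum.inr j), hj⟩

theorem nk_not_Zn {j : Fin 3} {q : (V × ℝ) × E 4} (hq : q ∈ OO) (h : q.1 ∈ NK j) {k : Pc}
    (hk : q.1 ∈ Zn k) : False := by
  obtain ⟨P, Q, t, h1, hP, hQ, e⟩ := OO_nk ⟨hq, h⟩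
  rw [e] at hk
  rcases nk_Zn h1 hk with ⟨-, -, h2⟩ | ⟨-, h2, -⟩
  · exact hQ.ne' h2
  · exact hP.ne' h2

theorem base_not_tA {j : Fin 3} {q : (V × ℝ) × E 4} (hq : q ∈ OO) (h : q.1 ∈ Zn .base)
    (hk : q.1 ∈ Zn (.tA j)) : False := by
  have h1 := (Zn_bA h hk).2.1
  obtain ⟨h2, h3⟩ := band_p hk hq.2.1 hq.2.2
  rw [abs_of_neg (by linarith)] at h1
  linarith

theorem Cp_disj (o o' : Option (Fin 3 ⊕ Fin 3)) : ∀ q ∈ OO, q ∈ Cp o → q ∈ Cp o' → o = o' := by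
  intro q hq h h'
  rcases o with _ | (i | i) <;> rcases o' with _ | (j | j)
  · rfl
  · exact (base_not_tA hq h h').elim
  · exact (nk_not_Zn (k := .base) hq h' h).elim
  · exact (base_not_tA hq h' h).elim
  · by_cases hij : i = j
    · rw [hij]
    · exfalso
      have := far hij (tA_x (j := i) h)
      linarith [tA_x (j := j) h']
  · exact (nk_not_Zn (k := .tA i) hq h' h).elim
  · exact (nk_not_Zn (k := .base) hq h h').elim
  · exact (nk_not_Zn (k := .tA j) hq h h').elim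
  · rw [NK_unique h h']

/-- on the overlap, the quotient of the two functions is a sixth power times a null-homotopic
function -/
theorem overlap (hco : ∀ q ∈ NT, ∀ n n' : V, Nrm q.1 n n' → Ind n n' → co n n' q.2 ≠ 0) :
    ∃ g h : (V × ℝ) × E 4 → ℂ,
      ContinuousOn g {q | q ∈ NT ∧ q.1 ∉ K1 ∧ q.1 ∉ K2} ∧
      ContinuousOn h {q | q ∈ NT ∧ q.1 ∉ K1 ∧ q.1 ∉ K2} ∧
      ∀ q ∈ NT, q.1 ∉ K1 → q.1 ∉ K2 → g q ≠ 0 ∧
        co (frC q.1).1 (frC q.1).2 q.2 / (∏ j, vz j q.1.1) ^ 2 =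
          co (frD q.1).1 (frD q.1).2 q.2 * g q ^ 6 * Complex.exp (h q) := by
  have hp : ∀ o : Option (Fin 3 ⊕ Fin 3), ∃ g, Piece (OO ∩ Cp o) g := by
    rintro (_ | (j | j))
    · exact ⟨_, piece_base⟩
    · exact ⟨_, piece_tA j⟩
    · exact ⟨_, piece_NK hco j⟩
  choose g hg using hp
  have hg1 : ∀ o, ContinuousOn (g o) (OO ∩ Cp o) := fun o => (hg o).1
  have hg2 : ∀ o, ∀ q ∈ OO ∩ Cp o, g o q ≠ 0 := fun o => (hg o).2.1
  choose h hh using fun o => (hg o).2.2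
  obtain ⟨G, hG, hG'⟩ := glue_pieces Cp_closed Cp_cover Cp_disj hg1
  obtain ⟨H, hH, hH'⟩ := glue_pieces Cp_closed Cp_cover Cp_disj (f := h) fun o => (hh o).1
  refine ⟨G, H, hG, hH, fun q h1 h2 h3 => ?_⟩
  have hq : q ∈ OO := ⟨h1, h2, h3⟩
  obtain ⟨o, ho⟩ := mem_iUnion.1 (Cp_cover hq)
  rw [hG' o q hq ho, hH' o q hq ho]
  exact ⟨hg2 o q ⟨hq, ho⟩, (hh o).2 q ⟨hq, ho⟩⟩

end Pool.Agent.TH619
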