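import Pool.Agent.TH619.Geo7
import Pool.Agent.Helper874.Odd.Jtube1

/-! Nonvanishing of the functions `vz j`; logarithms. -/

set_option autoImplicit false

namespace Pool.Agent.TH619

open Set Topology Filter
open scoped InnerProductSpace Manifold ContDiff
open Pool.Agent.Helper874.Odd

theorem X2_sh (i j : Fin 3) (v : V) : X2 (sh j v) = X2 (sh i v) + (cc j - cc i) := by
  unfold X2 sh
  ring

theorem X2_bd {v : V} {s : ℝ} (h : kA v ≤ s) : |X2 v| ≤ s := by
  have h1 := abs_le_mm (v.1 + 1 / 4)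
  have h2 := abs_le_mm v.2.1
  unfold kA at h
  have h3 := abs_le.1 (le_refl |v.1 + 1 / 4|)
  have h4 := abs_le.1 (le_refl |v.2.1|)
  unfold X2
  rw [abs_le]
  constructor <;> linarith [h3.1, h3.2, h4.1, h4.2]

/-- the other functions have nonzero real part near the `i`-th copy -/
theorem re_ne {i j : Fin 3} (h : j ≠ i) {v : V} (hv : |X2 (sh i v)| < 1) : (vz j v).re ≠ 0 := by
  have h1 := cc_dist h
  show X2 (sh j v) ≠ 0
  rw [X2_sh i j]
  intro h0
  have h2 : X2 (sh i v) = -(cc j - cc i) := by linarith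
  rw [h2, abs_neg] at hv
  linarith

theorem tA_facts {j : Fin 3} {m : V × ℝ} (h : m ∈ Zn (.tA j)) :
    m.1.2.2.1 ∈ Icc (-1 : ℝ) 1 ∧ kA (sh j m.1) = tuSf m.1.2.2.1 ∧ m.1.2.2.2 = 0 ∧
      |X2 (sh j m.1)| < 1 ∧ 1 / 2 ≤ kA (sh j m.1) := by
  obtain ⟨hr, hk, hP⟩ := h.2.1
  have h1 := tu_fwd (s := kA (sh j m.1)) (p := m.1.2.2.1) hk hP
  have h2 := tu_range h1.1
  exact ⟨h1.1, h1.2, hr, lt_of_le_of_lt (X2_bd hk) (by norm_num), by rw [h1.2]; exact h2.1⟩

theorem tuSf_half {p : ℝ} (h : |p| ≤ 15 / 16) : tuSf p = 1 / 2 := by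
  unfold tuSf
  rw [alp_eq_zero_iff.2 h, sub_zero, iot_one, add_zero]

theorem vz_tA {j : Fin 3} {m : V × ℝ} (h : m ∈ Zn (.tA j)) : vz j m.1 ≠ 0 := by
  intro h0
  obtain ⟨hp, hs, hr, -, hk⟩ := tA_facts h
  have e1 : X2 (sh j m.1) = 0 := congrArg Complex.re h0
  have e2 : m.1.2.2.1 + 2 * X1 (sh j m.1) = 0 := congrArg Complex.im h0
  have e3 : (sh j m.1).1 + 1 / 4 = (sh j m.1).2.1 := by
    unfold X2 at e1; linarith
  have e4 : X1 (sh j m.1) = 2 * (sh j m.1).2.1 - 1 / 2 := by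
    unfold X1; linarith
  have e5 : 2 * mm (sh j m.1).2.1 = kA (sh j m.1) := by
    unfold kA
    rw [e3]; ring
  have e6 : 1 / 16 ≤ |(sh j m.1).2.1| := by
    by_contra hcon
    push Not at hcon
    have := mm_le hcon.le
    linarith
  rw [mm_eq_abs e6] at e5
  rcases abs_cases (sh j m.1).2.1 with ⟨h1, h2⟩ | ⟨h1, h2⟩
  · rw [h1] at e5
    have e7 : m.1.2.2.1 = -(2 * (kA (sh j m.1) - 1 / 2)) := by linarith
    have e8 : kA (sh j m.1) ≤ 9 / 16 := h.2.1.2.1
    have e9 : |m.1.2.2.1| ≤ 15 / 16 := by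
      rw [abs_le]; constructor <;> linarith
    rw [tuSf_half e9] at hs
    apply h.2.2
    refine ⟨by linarith, hr, ?_⟩
    unfold nz
    have e10 : (sh j m.1).2.2.1 = 0 := by
      show m.1.2.2.1 = 0
      linarith
    rw [e1, e10]
    norm_num
  · rw [h1] at e5
    linarith [hp.2]

theorem sq_of_base {m : V × ℝ} (hm : m ∈ Zn .base) (h2 : m ∉ K2) :
    |m.1.1| < 15 / 4 ∧ |m.1.2.1| < 15 / 4 ∧ m.1.2.2.1 = 1 ∧ m.1.2.2.2 = 0 := by
  have h : ¬ (15 / 4 ≤ |m.1.1| ∨ 15 / 4 ≤ |m.1.2.1| ∨ m.1.2.2.1 + m.1.2.2.2 / 2 ≤ 3 / 4) :=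
    fun h => h2 (Or.inl ⟨hm, h⟩)
  push Not at h
  obtain ⟨hx, hy, hl⟩ := h
  have hV := (ML_flat hx hy).1 hm.2.1
  have hV' : (m.1.2.2.1, m.1.2.2.2) ∈ Vt := hV
  simp only [Vt, Set.mem_insert_iff, Set.mem_singleton_iff, Prod.mk.injEq] at hV'
  refine ⟨hx, hy, ?_⟩
  rcases hV' with h | h | h | h | h | h
  · exact h
  all_goals
    rw [h.1, h.2] at hl
    norm_num at hl

theorem vz_base {j : Fin 3} {m : V × ℝ} (hm : m ∈ Zn .base) (h2 : m ∉ K2) : vz j m.1 ≠ 0 := by
  intro h0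
  obtain ⟨hx, hy, hp, hr⟩ := sq_of_base hm h2
  have e1 : X2 (sh j m.1) = 0 := congrArg Complex.re h0
  have e2 : m.1.2.2.1 + 2 * X1 (sh j m.1) = 0 := congrArg Complex.im h0
  rw [hp] at e2
  have e3 : (sh j m.1).2.1 = 0 := by
    unfold X1 at e2; unfold X2 at e1; linarith
  have e4 : (sh j m.1).1 + 1 / 4 = 0 := by
    unfold X1 at e2; unfold X2 at e1; linarith
  apply hm.2.2 j
  left
  refine ⟨hr, ?_, ?_⟩
  · show |m.1.2.2.1| = 1
    rw [hp]; norm_num
  · unfold kA
    rw [e3, e4]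
    have := mm_le (t := 0) (by norm_num)
    linarith

theorem nk_vz {j : Fin 3} {P Q t : ℝ} : vz j (nk j P Q t).1 =
    ⟨P * Real.cos t, P * Real.sin t + 2 * (Q * Real.cos t)⟩ := by
  unfold vz
  rw [sh_nk, h400_X1, h400_X2]
  rfl

theorem nk_X2 {i : Fin 3} {P Q t : ℝ} (h : PQ P Q) : |X2 (sh i (nk i P Q t).1)| < 1 := by
  rw [sh_nk, h400_X2, abs_mul, abs_of_nonneg h.1]
  have h1 := Real.abs_cos_le_one t
  have h2 := h.2.2.1
  have h3 := h.1
  nlinarith [abs_nonneg (Real.cos t)]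

/-- the functions `vz j` do not vanish outside of `K2` -/
theorem vz_ne {m : V × ℝ} (hm : m ∈ MT) (h2 : m ∉ K2) (j : Fin 3) : vz j m.1 ≠ 0 := by
  rcases MT_eq.1 hm with ⟨k, hk⟩ | ⟨i, hi⟩
  · cases k with
    | base => exact vz_base hk h2
    | tA i =>
      by_cases hij : j = i
      · subst hij; exact vz_tA hk
      · intro h0
        have := re_ne hij (tA_facts hk).2.2.2.1
        rw [h0] at this
        exact this rfl
    | tB i => exact absurd (Or.inr (Or.inr ⟨i, hk⟩)) h2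
  · obtain ⟨P, Q, t, h, rfl⟩ := PQ.exists_nk hi
    by_cases hij : j = i
    · subst hij
      rw [nk_vz]
      intro h0
      have hP := h.P_pos h2
      have e1 : P * Real.cos t = 0 := congrArg Complex.re h0
      have e2 : P * Real.sin t + 2 * (Q * Real.cos t) = 0 := congrArg Complex.im h0
      have e3 := (mul_eq_zero.1 e1).resolve_left hP.ne'
      rw [e3, mul_zero, mul_zero, add_zero] at e2
      have e4 := (mul_eq_zero.1 e2).resolve_left hP.ne'
      have := Real.cos_sq_add_sin_sq t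
      rw [e3, e4] at this
      norm_num at this
    · intro h0
      have := re_ne hij (nk_X2 (t := t) h)
      rw [h0] at this
      exact this rfl

theorem X1_cont : Continuous X1 := by unfold X1; fun_prop
theorem X2_cont : Continuous X2 := by unfold X2; fun_prop

theorem vz_cont (j : Fin 3) : Continuous (vz j) := by
  have h1 := X1_cont
  have h2 := X2_cont
  have h3 := sh_cont j
  have h : vz j = fun v => ((X2 (sh j v) : ℝ) : ℂ) +
      ((v.2.2.1 + 2 * X1 (sh j v) : ℝ) : ℂ) * Complex.I := by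
    funext v
    apply Complex.ext <;> simp [vz]
  rw [h]
  fun_prop

/-! ### logarithms -/

/-- `f` has a continuous logarithm on `s` -/
def HasLog {Y : Type} [TopologicalSpace Y] (s : Set Y) (f : Y → ℂ) : Prop :=
  ∃ L : Y → ℂ, ContinuousOn L s ∧ ∀ x ∈ s, Complex.exp (L x) = f x

namespace HasLog

variable {Y : Type} [TopologicalSpace Y] {s : Set Y} {f g : Y → ℂ}

theorem mul (hf : HasLog s f) (hg : HasLog s g) : HasLog s (fun x => f x * g x) := by
  obtain ⟨L, hL, hL'⟩ := hf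
  obtain ⟨M, hM, hM'⟩ := hg
  exact ⟨fun x => L x + M x, hL.add hM, fun x hx => by rw [Complex.exp_add, hL' x hx, hM' x hx]⟩

theorem inv (hf : HasLog s f) : HasLog s (fun x => (f x)⁻¹) := by
  obtain ⟨L, hL, hL'⟩ := hf
  exact ⟨fun x => -L x, hL.neg, fun x hx => by rw [Complex.exp_neg, hL' x hx]⟩

theorem div (hf : HasLog s f) (hg : HasLog s g) : HasLog s (fun x => f x / g x) := by
  simpa only [div_eq_mul_inv] using hf.mul hg.inv

theorem pow (hf : HasLog s f) (n : ℕ) : HasLog s (fun x => f x ^ n) := by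
  obtain ⟨L, hL, hL'⟩ := hf
  exact ⟨fun x => n * L x, continuousOn_const.mul hL, fun x hx => by
    rw [Complex.exp_nat_mul, hL' x hx]⟩

theorem congr (hf : HasLog s f) (h : ∀ x ∈ s, f x = g x) : HasLog s g := by
  obtain ⟨L, hL, hL'⟩ := hf
  exact ⟨L, hL, fun x hx => by rw [hL' x hx, h x hx]⟩

theorem of_slit (hf : ContinuousOn f s) (h : ∀ x ∈ s, f x ∈ Complex.slitPlane) : HasLog s f :=
  ⟨fun x => Complex.log (f x), hf.clog h, fun x hx =>
    Complex.exp_log (Complex.slitPlane_ne_zero (h x hx))⟩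

theorem const {c : ℂ} (hc : c ≠ 0) : HasLog s (fun _ => c) :=
  ⟨fun _ => Complex.log c, continuousOn_const, fun _ _ => Complex.exp_log hc⟩

open Classical in
/-- real part nonzero -/
theorem of_re (hf : ContinuousOn f s) (h : ∀ x ∈ s, (f x).re ≠ 0) : HasLog s f := by
  refine ⟨fun x => if 0 < (f x).re then Complex.log (f x) else
    Complex.log (-f x) + Real.pi * Complex.I, ?_, ?_⟩
  · intro x hx
    have hre : ContinuousWithinAt (fun y => (f y).re) s x :=
      Complex.continuous_re.continuousAt.comp_continuousWithinAt (hf x hx)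
    rcases lt_or_gt_of_ne (h x hx) with h1 | h1
    · have h2 : ∀ᶠ y in 𝓝[s] x, (f y).re < 0 := hre.eventually_lt_const h1
      have h3 : ContinuousWithinAt (fun y => Complex.log (-f y) + Real.pi * Complex.I) s x := by
        refine ContinuousWithinAt.add (ContinuousWithinAt.clog (hf x hx).neg ?_)
          continuousWithinAt_const
        left
        rw [Complex.neg_re]; linarith
      refine h3.congr_of_eventuallyEq ?_ ?_
      · filter_upwards [h2] with y hy
        rw [if_neg (not_lt.2 hy.le)]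
      · rw [if_neg (not_lt.2 h1.le)]
    · have h2 : ∀ᶠ y in 𝓝[s] x, 0 < (f y).re := hre.eventually_const_lt h1
      have h3 : ContinuousWithinAt (fun y => Complex.log (f y)) s x :=
        ContinuousWithinAt.clog (hf x hx) (Or.inl h1)
      refine h3.congr_of_eventuallyEq ?_ ?_
      · filter_upwards [h2] with y hy
        rw [if_pos hy]
      · rw [if_pos h1]
  · intro x hx
    have hne : f x ≠ 0 := by
      intro h0
      apply h x hx
      rw [h0]; rfl
    simp only
    split_ifs with h1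
    · exact Complex.exp_log hne
    · rw [Complex.exp_add, Complex.exp_log (neg_ne_zero.2 hne), Complex.exp_pi_mul_I]
      ring

end HasLog

open Classical in
/-- gluing of functions on disjoint closed pieces -/
theorem glue_pieces {X ι : Type} [TopologicalSpace X] [Finite ι] {C : ι → Set X}
    (hC : ∀ i, IsClosed (C i)) {s : Set X} (hs : s ⊆ ⋃ i, C i)
    (hd : ∀ i j, ∀ x ∈ s, x ∈ C i → x ∈ C j → i = j) {f : ι → X → ℂ}
    (hf : ∀ i, ContinuousOn (f i) (s ∩ C i)) :
    ∃ F : X → ℂ, ContinuousOn F s ∧ ∀ i, ∀ x ∈ s, x ∈ C i → F x = f i x := by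
  have key : ∀ i, ∀ x ∈ s, x ∈ C i →
      (if h : ∃ i, x ∈ C i then f h.choose x else 0) = f i x := by
    intro i x hx hi
    have h : ∃ i, x ∈ C i := ⟨i, hi⟩
    rw [dif_pos h, hd h.choose i x hx h.choose_spec hi]
  refine ⟨fun x => if h : ∃ i, x ∈ C i then f h.choose x else 0, ?_, key⟩
  exact cont_cover hC hs fun i => (hf i).congr fun x hx => key i x hx.1 hx.2

end Pool.Agent.TH619
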