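import Pool.Agent.TH619.Base
import Pool.Agent.Helper874.Odd.Base

/-! The tight surface with three necks: a stretched copy of the surface `M0` of Helper874 with three
translated copies of the system of two tubes and one neck. -/

set_option autoImplicit false

namespace Pool.Agent.TH619

open Set Topology Filter
open scoped InnerProductSpace Manifold ContDiff
open Pool.Agent.Helper874.Odd

/-- the centres of the three copies: `-2, 0, 2` -/
def cc (j : Fin 3) : ℝ := 2 * (j : ℝ) - 2

/-- the translation moving the `j`-th copy to the origin -/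
def sh (j : Fin 3) (v : V) : V := (v.1 - cc j, v.2)

/-- the linear map shrinking the stretched surface to `M0` -/
noncomputable def scl (v : V) : V := (v.1 / 4, v.2.1 / 4, v.2.2)

/-- the stretched surface of genus two -/
def ML : Set V := {v | scl v ∈ M0}

/-- the stretched surface without the twelve discs -/
def BL : Set V := {v | v ∈ ML ∧ ∀ j, sh j v ∉ DiA ∪ DiB}

/-- the surface with three necks (the last coordinate separates the sheets) -/
def MT : Set (V × ℝ) := {m | (m.2 = 0 ∧ m.1 ∈ BL) ∨
  ∃ j, (m.2 = 0 ∧ (sh j m.1 ∈ SB \ DB ∨ sh j m.1 ∈ SC)) ∨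
    (m.2 = lab (sh j m.1) ∧ sh j m.1 ∈ SA \ DA)}

/-- the immersion of the surface -/
noncomputable def fM (m : MT) : E 4 := toE m.1.1

/-- the open box of the `j`-th copy -/
def Bx (j : Fin 3) (ρ : ℝ) : Set V := {v | |v.1 - cc j| < ρ ∧ |v.2.1| < ρ}

/-- domains of the local models: `none` is the flat/curved part away from the copies -/
def Wd : Option (Fin 3 × Kd) → Set (V × ℝ)
  | none => {m | ∀ j, ¬ (|m.1.1 - cc j| ≤ 7 / 8 ∧ |m.1.2.1| ≤ 7 / 8)}
  | some (j, k) => {m | m.1 ∈ Bx j (15 / 16) ∧ (sh j m.1, m.2) ∈ Wk k}

/-- first defining functions -/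
noncomputable def D1 : Option (Fin 3 × Kd) → V → ℝ
  | none => fun v => G1 (scl v)
  | some (j, k) => fun v => F1 k (sh j v)

/-- second defining functions -/
noncomputable def D2 : Option (Fin 3 × Kd) → V → ℝ
  | none => fun v => G2 (scl v)
  | some (j, k) => fun v => F2 k (sh j v)

/-- the height of the sheets -/
noncomputable def bd : Option (Fin 3 × Kd) → V → ℝ
  | none => fun _ => 0
  | some (j, k) => fun v => bk k (sh j v)

end Pool.Agent.TH619
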