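import Pool.Agent.TH619.PF
import Pool.Agent.TH619.Sur

/-! Loops in the surface and their path functionals. -/

set_option autoImplicit false

namespace Pool.Agent.TH619

open Set Topology
open Pool.Agent.Helper874.Odd

namespace PF

variable {X : Type} [TopologicalSpace X] {S : Set X} {A : Type} [AddCommGroup A] (μ : PF S A)

/-- the value on the boundary of the rectangle `[a,b] × [c,d]`, counterclockwise -/
def Dr (ι : ℝ → ℝ → X) (a b c d : ℝ) : A :=
  μ.L (fun x => ι x c) a b + μ.L (fun y => ι b y) c d - μ.L (fun x => ι x d) a b -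
    μ.L (fun y => ι a y) c d

/-- the value on the loop `{mm X + mm Y = s}`, counterclockwise -/
noncomputable def Gl (ι : ℝ → ℝ → X) (s : ℝ) : A :=
  μ.L (fun x => ι x (-(s - mm x))) (-(s / 2)) (s / 2) +
    μ.L (fun y => ι (s - mm y) y) (-(s / 2)) (s / 2) -
    μ.L (fun x => ι x (s - mm x)) (-(s / 2)) (s / 2) -
    μ.L (fun y => ι (-(s - mm y)) y) (-(s / 2)) (s / 2)

end PF

/-- the stretched surface of genus two outside the open flat squares -/
def S1 : Set V := {v | v ∈ ML ∧ (15 / 4 ≤ |v.1| ∨ 15 / 4 ≤ |v.2.1|)}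

/-- a square with three holes around the points `(cc j + c, 0)` -/
def S2 (c : ℝ) : Set (ℝ × ℝ) := {w | |w.1| ≤ 15 / 4 ∧ |w.2| ≤ 15 / 4 ∧
  ∀ j, 9 / 16 ≤ mm (w.1 - (cc j + c)) + mm w.2}

/-- the height-dependent level of the cross-sections of the tubes -/
noncomputable def tl (p : ℝ) : ℝ := 1 / 2 + iot (1 - alp p)

/-- the tube without the open disc of the neck; coordinates `(X, Y, p)` with `(X, Y)` relative to
the centre of the tube -/
def S3 : Set (ℝ × ℝ × ℝ) := {w | |w.2.2| ≤ 1 ∧ mm w.1 + mm w.2.1 = tl w.2.2 ∧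
  ¬ (w.1 + w.2.1 = 1 / 2 ∧ Real.sqrt ((w.2.1 - w.1) ^ 2 + w.2.2 ^ 2) < 1 / 16)}

/-- the boundary circle of the disc -/
noncomputable def kap (t : ℝ) : ℝ × ℝ × ℝ :=
  (1 / 4 - 1 / 32 * Real.cos (2 * Real.pi * t), 1 / 4 + 1 / 32 * Real.cos (2 * Real.pi * t),
    1 / 16 * Real.sin (2 * Real.pi * t))

end Pool.Agent.TH619
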