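import Pool.Agent.TH619.Geo7
import Pool.Agent.TH619.PF
import Pool.Agent.TH619.ResDefs

/-! Path functionals on the unit normal bundle: fibre loops. -/

set_option autoImplicit false

namespace Pool.Agent.TH619

open Set Topology Filter
open scoped InnerProductSpace Manifold ContDiff
open Pool.Agent.Helper874.Odd

section

variable {A : Type} [AddCommGroup A]

namespace PF

variable {X : Type} [TopologicalSpace X] {S : Set X} (μ : PF S A)

/-- the diagonal of a periodic square -/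
theorem L_diag {G : ℝ → ℝ → X} (hG : Continuous fun q : ℝ × ℝ => G q.1 q.2)
    (hS : ∀ u v, G u v ∈ S) (hp : ∀ v, G 1 v = G 0 v) :
    μ.L (fun t => G t t) 0 1 = μ.L (fun u => G u 0) 0 1 + μ.L (fun v => G 0 v) 0 1 := by
  have h := μ.rect' (fun u v => G u (u * v)) (by
    have : Continuous fun q : ℝ × ℝ => G q.1 (q.1 * q.2) :=
      hG.comp (f := fun q : ℝ × ℝ => (q.1, q.1 * q.2)) (by fun_prop)
    exact this.continuousOn) (fun u _ v _ => hS _ _)
  have e1 : (fun t : ℝ => G t (t * 0)) = fun t => G (0 + (1 - 0) * t) 0 := by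
    funext t; congr 1 <;> ring
  have e2 : (fun t : ℝ => G 1 (1 * t)) = fun t => G 0 (0 + (1 - 0) * t) := by
    funext t; rw [hp]; congr 1; ring
  have e3 : (fun t : ℝ => G 0 (0 * t)) = fun _ => G 0 0 := by
    funext t; congr 1; ring
  have e4 : (fun t : ℝ => G t (t * 1)) = fun t => G (0 + (1 - 0) * t) (0 + (1 - 0) * t) := by
    funext t; congr 1 <;> ring
  rw [e1, e2, e3, e4, μ.const' _ (hS _ _), zero_add] at h
  exact h.symm

/-- homotopic loops: the two sides of the square agree -/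
theorem L_htpy {G : ℝ → ℝ → X}
    (hG : ContinuousOn (fun q : ℝ × ℝ => G q.1 q.2) (Icc (0 : ℝ) 1 ×ˢ Icc (0 : ℝ) 1))
    (hS : ∀ u ∈ Icc (0 : ℝ) 1, ∀ v ∈ Icc (0 : ℝ) 1, G u v ∈ S)
    (hp : ∀ u ∈ Icc (0 : ℝ) 1, G u 1 = G u 0) :
    μ.L (fun v => G 0 v) 0 1 = μ.L (fun v => G 1 v) 0 1 := by
  have h := μ.rect' G hG hS
  have e0 : ∀ f : ℝ → X, (fun t : ℝ => f (0 + (1 - 0) * t)) = f := by
    intro f; funext t; congr 1; ring
  have h' : μ.val (fun t => G t 0) = μ.val (fun t => G t 1) :=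
    μ.congr' _ _ fun t ht => (hp t ht).symm
  rw [h', add_comm] at h
  have h2 := add_right_cancel h
  show μ.val _ = μ.val _
  rw [e0 (fun v => G 0 v), e0 (fun v => G 1 v)]
  exact h2.symm

end PF

/-- the fibre loop with coordinates `z` -/
noncomputable def fl (m : V × ℝ) (n n' : V) (z : ℝ → ℂ) (t : ℝ) : (V × ℝ) × E 4 :=
  (m, psi n n' (z t))

/-- the standard loop in the punctured plane -/
noncomputable def cz (t : ℝ) : ℂ := ⟨Real.cos (2 * Real.pi * t), Real.sin (2 * Real.pi * t)⟩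

theorem cz_ne (t : ℝ) : cz t ≠ 0 := by
  intro h
  have h1 := congrArg Complex.re h
  have h2 := congrArg Complex.im h
  simp only [cz, Complex.zero_re, Complex.zero_im] at h1 h2
  have := Real.cos_sq_add_sin_sq (2 * Real.pi * t)
  rw [h1, h2] at this
  norm_num at this

/-- the fibre class -/
noncomputable def Phi (lam : PF NT A) (m : V × ℝ) : A :=
  lam.L (fl m (frm m).1 (frm m).2 cz) 0 1

theorem mk_cont {X : Type} [TopologicalSpace X] {f g : X → ℝ} {s : Set X} (hf : ContinuousOn f s)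
    (hg : ContinuousOn g s) : ContinuousOn (fun x => (⟨f x, g x⟩ : ℂ)) s := by
  have h : (fun x => (⟨f x, g x⟩ : ℂ)) = fun x => (f x : ℂ) + (g x : ℂ) * Complex.I := by
    funext x
    apply Complex.ext <;> simp
  rw [h]
  exact (Complex.continuous_ofReal.comp_continuousOn hf).add
    ((Complex.continuous_ofReal.comp_continuousOn hg).mul continuousOn_const)

theorem cz_cont : Continuous cz := by
  have h : ContinuousOn cz univ := mk_cont (by fun_prop) (by fun_prop)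
  exact continuousOn_univ.1 h

/-- a general homotopy of loops in the unit normal bundle -/
theorem nt_htpy (lam : PF NT A) {m : ℝ → ℝ → V × ℝ} {n n' : ℝ → ℝ → V} {z : ℝ → ℝ → ℂ}
    (hm : ContinuousOn (fun q : ℝ × ℝ => m q.1 q.2) (Icc (0 : ℝ) 1 ×ˢ Icc (0 : ℝ) 1))
    (hn : ContinuousOn (fun q : ℝ × ℝ => n q.1 q.2) (Icc (0 : ℝ) 1 ×ˢ Icc (0 : ℝ) 1))
    (hn' : ContinuousOn (fun q : ℝ × ℝ => n' q.1 q.2) (Icc (0 : ℝ) 1 ×ˢ Icc (0 : ℝ) 1))
    (hz : ContinuousOn (fun q : ℝ × ℝ => z q.1 q.2) (Icc (0 : ℝ) 1 ×ˢ Icc (0 : ℝ) 1))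
    (hmem : ∀ u ∈ Icc (0 : ℝ) 1, ∀ v ∈ Icc (0 : ℝ) 1, m u v ∈ MT ∧ Nrm (m u v) (n u v) (n' u v) ∧
      Ind (n u v) (n' u v) ∧ z u v ≠ 0)
    (hp : ∀ u ∈ Icc (0 : ℝ) 1, m u 1 = m u 0 ∧ n u 1 = n u 0 ∧ n' u 1 = n' u 0 ∧ z u 1 = z u 0) :
    lam.L (fun v => (m 0 v, psi (n 0 v) (n' 0 v) (z 0 v))) 0 1 =
      lam.L (fun v => (m 1 v, psi (n 1 v) (n' 1 v) (z 1 v))) 0 1 := by
  refine lam.L_htpy (G := fun u v => (m u v, psi (n u v) (n' u v) (z u v))) ?_ ?_ ?_
  · refine hm.prodMk ?_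
    refine psi_cont.comp (f := fun q : ℝ × ℝ => ((n q.1 q.2, n' q.1 q.2), z q.1 q.2))
      ((hn.prodMk hn').prodMk hz) ?_
    rintro ⟨u, v⟩ ⟨hu, hv⟩
    exact ⟨(hmem u hu v hv).2.2.1, (hmem u hu v hv).2.2.2⟩
  · intro u hu v hv
    obtain ⟨h1, h2, h3, h4⟩ := hmem u hu v hv
    exact psi_mem h1 h2 h3 h4
  · intro u hu
    obtain ⟨h1, h2, h3, h4⟩ := hp u hu
    simp only [h1, h2, h3, h4]

theorem MO_sub : MO ⊆ MT := by
  intro m hm
  obtain ⟨k, hk⟩ := mem_iUnion.1 hm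
  exact Zn_sub k hk

theorem cz_one : cz 1 = cz 0 := by
  unfold cz
  simp

/-- the fibre class is constant on path components of `MO` -/
theorem Phi_joined (lam : PF NT A) {m m' : V × ℝ} (h : JoinedIn MO m m') :
    Phi lam m = Phi lam m' := by
  obtain ⟨γ, hγ⟩ := h
  set g : ℝ → V × ℝ := fun t => γ.extend t with hg
  have hgc : Continuous g := γ.continuous_extend
  have hgm : ∀ t, g t ∈ MO := by
    intro t
    have : g t ∈ range γ := by
      rw [← Path.extend_range]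
      exact ⟨t, rfl⟩
    obtain ⟨s, hs⟩ := this
    rw [← hs]
    exact hγ s
  have h := nt_htpy lam (m := fun u _ => g u) (n := fun u _ => (frm (g u)).1)
    (n' := fun u _ => (frm (g u)).2) (z := fun _ v => cz v) ?_ ?_ ?_ ?_ ?_ ?_
  · have e0 : g 0 = m := by simp [hg]
    have e1 : g 1 = m' := by simp [hg]
    simp only [e0, e1] at h
    exact h
  · exact (hgc.comp continuous_fst).continuousOn
  · exact (continuous_fst.comp_continuousOn (frm_cont.comp (hgc.comp continuous_fst).continuousOn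
      fun q _ => hgm _))
  · exact (continuous_snd.comp_continuousOn (frm_cont.comp (hgc.comp continuous_fst).continuousOn
      fun q _ => hgm _))
  · exact (cz_cont.comp continuous_snd).continuousOn
  · exact fun u _ v _ => ⟨MO_sub (hgm _), frm_nrm (hgm _), frm_ind (hgm _), cz_ne _⟩
  · exact fun u _ => ⟨rfl, rfl, rfl, cz_one⟩

end

end Pool.Agent.TH619
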