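import Pool.Agent.TH619.Ovl1
import Pool.Agent.TH619.Six1

/-! The quotient of the two functions on the overlap. -/

set_option autoImplicit false

namespace Pool.Agent.TH619

open Set Topology Filter
open scoped InnerProductSpace Manifold ContDiff
open Pool.Agent.Helper874.Odd

/-- the overlap -/
def OO : Set ((V × ℝ) × E 4) := {q | q ∈ NT ∧ q.1 ∉ K1 ∧ q.1 ∉ K2}

theorem co_cont {X : Type} [TopologicalSpace X] {n n' : X → V} {ν : X → E 4} {s : Set X}
    (hn : ContinuousOn n s) (hn' : ContinuousOn n' s) (hν : ContinuousOn ν s) :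
    ContinuousOn (fun x => co (n x) (n' x) (ν x)) s :=
  mk_cont ((toE.continuous.comp_continuousOn hn).inner hν)
    ((toE.continuous.comp_continuousOn hn').inner hν)

theorem vzq_cont (j : Fin 3) : Continuous fun q : (V × ℝ) × E 4 => vz j q.1.1 :=
  (vz_cont j).comp (continuous_fst.comp continuous_fst)

/-! ### the annulus -/

theorem annulus_ineq {x y : ℝ} (h : 7 / 2 < |x| ∨ 7 / 2 < |y|) :
    20 < (y - x - 1 / 4) ^ 2 + (1 + 2 * (x + y - 1 / 4)) ^ 2 := by
  have e : (y - x - 1 / 4) ^ 2 + (1 + 2 * (x + y - 1 / 4)) ^ 2 =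
      (y - (x + 1 / 4)) ^ 2 + 4 * (y + (x + 1 / 4)) ^ 2 := by ring
  rw [e]
  rcases h with h | h
  · have h1 : 13 / 4 < |x + 1 / 4| := by
      have := abs_sub_abs_le_abs_sub x (-(1 / 4))
      rw [sub_neg_eq_add, abs_neg, abs_of_pos (by norm_num : (0 : ℝ) < 1 / 4)] at this
      linarith
    have h2 : (13 / 4 : ℝ) ^ 2 < (x + 1 / 4) ^ 2 := by
      rw [← sq_abs (x + 1 / 4)]
      nlinarith [abs_nonneg (x + 1 / 4)]
    nlinarith [sq_nonneg (5 * y + 3 * (x + 1 / 4))]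
  · have h2 : (7 / 2 : ℝ) ^ 2 < y ^ 2 := by
      rw [← sq_abs y]
      nlinarith [abs_nonneg y]
    nlinarith [sq_nonneg (5 * (x + 1 / 4) + 3 * y)]

theorem cc_one : cc 1 = 0 := by unfold cc; norm_num

theorem vz_add (j : Fin 3) (v : V) : vz j v = vz 1 v + (cc j : ℂ) * (1 - 2 * Complex.I) := by
  apply Complex.ext
  · have := X2_sh 1 j v
    rw [cc_one, sub_zero] at this
    simp only [vz, Complex.add_re, Complex.mul_re, Complex.ofReal_re, Complex.ofReal_im,
      Complex.sub_re, Complex.one_re, Complex.re_ofNat, Complex.im_ofNat, Complex.I_re,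
      Complex.I_im]
    rw [this]
    ring
  · have : X1 (sh j v) = X1 (sh 1 v) - cc j := by
      unfold X1 sh
      rw [cc_one]
      ring
    simp only [vz, Complex.add_im, Complex.mul_im, Complex.ofReal_re, Complex.ofReal_im,
      Complex.sub_re, Complex.sub_im, Complex.one_re, Complex.one_im, Complex.mul_re,
      Complex.re_ofNat, Complex.im_ofNat, Complex.I_re, Complex.I_im]
    rw [this]
    ring

theorem cc_sq (j : Fin 3) : cc j ^ 2 ≤ 4 := by
  rcases cc_vals j with h | h | h <;> rw [h] <;> norm_num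

theorem annulus_slit {j : Fin 3} {v : V} (hp : v.2.2.1 = 1)
    (h : 7 / 2 < |v.1| ∨ 7 / 2 < |v.2.1|) : vz j v / vz 1 v ∈ Complex.slitPlane := by
  have h1 := annulus_ineq h
  have hn : Complex.normSq (vz 1 v) = (v.2.1 - v.1 - 1 / 4) ^ 2 +
      (1 + 2 * (v.1 + v.2.1 - 1 / 4)) ^ 2 := by
    rw [Complex.normSq_apply]
    unfold vz X1 X2 sh
    rw [cc_one, hp]
    simp only [sub_zero]
    ring
  have hne : vz 1 v ≠ 0 := by
    intro h0
    rw [h0, Complex.normSq_zero] at hn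
    linarith
  have e : vz j v / vz 1 v = 1 + (cc j : ℂ) * (1 - 2 * Complex.I) / vz 1 v := by
    rw [vz_add j v]
    field_simp
  rw [e]
  refine Complex.mem_slitPlane_of_norm_lt_one ?_
  have hpos : 0 < ‖vz 1 v‖ := norm_pos_iff.2 hne
  rw [norm_div, div_lt_one hpos]
  have h2 : ‖(cc j : ℂ) * (1 - 2 * Complex.I)‖ ^ 2 < ‖vz 1 v‖ ^ 2 := by
    rw [← Complex.normSq_eq_norm_sq, ← Complex.normSq_eq_norm_sq, hn, map_mul,
      Complex.normSq_ofReal]
    have e5 : Complex.normSq (1 - 2 * Complex.I) = 5 := by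
      rw [Complex.normSq_apply]
      simp
      norm_num
    rw [e5]
    nlinarith [cc_sq j]
  exact lt_of_pow_lt_pow_left₀ 2 hpos.le h2

theorem base_out {m : V × ℝ} (hm : m ∈ Zn .base) (h1 : m ∉ K1) (h2 : m ∉ K2) :
    7 / 2 < |m.1.1| ∨ 7 / 2 < |m.1.2.1| := by
  obtain ⟨-, -, hp, hr⟩ := sq_of_base hm h2
  by_contra hcon
  push Not at hcon
  exact h1 (Or.inl ⟨hm, hcon.1, hcon.2, Prod.ext hp hr⟩)

/-! ### the pieces of the overlap -/

/-- existence of a logarithm of the quotient with a given `g` -/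
def Piece (s : Set ((V × ℝ) × E 4)) (g : (V × ℝ) × E 4 → ℂ) : Prop :=
  ContinuousOn g s ∧ (∀ q ∈ s, g q ≠ 0) ∧ ∃ h : (V × ℝ) × E 4 → ℂ, ContinuousOn h s ∧
    ∀ q ∈ s, co (frC q.1).1 (frC q.1).2 q.2 / (∏ j, vz j q.1.1) ^ 2 =
      co (frD q.1).1 (frD q.1).2 q.2 * g q ^ 6 * Complex.exp (h q)

theorem piece_base : Piece (OO ∩ {q | q.1 ∈ Zn .base}) (fun q => 1 / vz 1 q.1.1) := by
  have hne : ∀ q ∈ OO ∩ {q | q.1 ∈ Zn .base}, ∀ j, vz j q.1.1 ≠ 0 :=
    fun q hq j => vz_ne hq.1.1.1 hq.1.2.2 j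
  refine ⟨continuousOn_const.div (vzq_cont 1).continuousOn fun q hq => hne q hq 1,
    fun q hq => one_div_ne_zero (hne q hq 1), ?_⟩
  have hl : ∀ j, HasLog (OO ∩ {q | q.1 ∈ Zn .base})
      (fun q : (V × ℝ) × E 4 => vz j q.1.1 / vz 1 q.1.1) := by
    intro j
    refine HasLog.of_slit ((vzq_cont j).continuousOn.div (vzq_cont 1).continuousOn
      fun q hq => hne q hq 1) fun q hq => ?_
    exact annulus_slit (sq_of_base hq.2 hq.1.2.2).2.2.1 (base_out hq.2 hq.1.2.1 hq.1.2.2)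
  obtain ⟨h, hc, he⟩ := ((hl 0).mul (hl 2)).pow 2 |>.inv
  refine ⟨h, hc, fun q hq => ?_⟩
  have hO : q.1 ∈ MO := mem_iUnion.2 ⟨.base, hq.2⟩
  rw [he q hq, frC_MO hO, frD_MO hO, Fin.prod_univ_three]
  have h0 := hne q hq 0
  have h1 := hne q hq 1
  have h2 := hne q hq 2
  field_simp

/-! ### the bands -/

theorem band_p {j : Fin 3} {m : V × ℝ} (hm : m ∈ Zn (.tA j)) (h1 : m ∉ K1) (h2 : m ∉ K2) :
    -(3 / 4) < m.1.2.2.1 ∧ m.1.2.2.1 < -(1 / 2) := by
  constructor
  · by_contra hcon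
    push Not at hcon
    exact h2 (Or.inr (Or.inl ⟨j, hm, hcon⟩))
  · by_contra hcon
    push Not at hcon
    exact h1 (Or.inr ⟨j, hm, hcon⟩)

theorem band_im {j : Fin 3} {m : V × ℝ} (hm : m ∈ Zn (.tA j)) (h1 : m ∉ K1) (h2 : m ∉ K2) :
    (vz j m.1).im < 0 := by
  obtain ⟨ha, hb⟩ := band_p hm h1 h2
  obtain ⟨-, hs, -, -, -⟩ := tA_facts hm
  rw [tuSf_half (by rw [abs_le]; constructor <;> linarith)] at hs
  show m.1.2.2.1 + 2 * X1 (sh j m.1) < 0
  have h3 := (le_abs_self _).trans (abs_le_mm ((sh j m.1).1 + 1 / 4))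
  have h4 := (le_abs_self _).trans (abs_le_mm (sh j m.1).2.1)
  unfold kA at hs
  unfold X1
  linarith

/-- logarithm of the other factors near the `i`-th copy -/
theorem log_other {i j : Fin 3} (hij : j ≠ i) {s : Set ((V × ℝ) × E 4)}
    (hs : ∀ q ∈ s, |X2 (sh i q.1.1)| < 1) : HasLog s (fun q => vz j q.1.1) :=
  HasLog.of_re (vzq_cont j).continuousOn fun q hq => re_ne hij (hs q hq)

theorem log_prod {j : Fin 3} {s : Set ((V × ℝ) × E 4)} (hs : ∀ q ∈ s, |X2 (sh j q.1.1)| < 1) :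
    HasLog s (fun q => ∏ i ∈ Finset.univ.erase j, vz i q.1.1) := by
  classical
  have : ∀ t : Finset (Fin 3), j ∉ t → HasLog s (fun q => ∏ i ∈ t, vz i q.1.1) := by
    intro t
    induction t using Finset.induction_on with
    | empty => intro _; simpa using HasLog.const (s := s) one_ne_zero
    | insert a t ha ih =>
      intro hj
      have h1 := ih fun h => hj (Finset.mem_insert_of_mem h)
      have h2 : HasLog s (fun q => vz a q.1.1) :=
        log_other (by rintro rfl; exact hj (Finset.mem_insert_self _ _)) hs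
      refine (h2.mul h1).congr fun q _ => ?_
      rw [Finset.prod_insert ha]
  exact this _ (Finset.notMem_erase j _)

theorem piece_tA (j : Fin 3) : Piece (OO ∩ {q | q.1 ∈ Zn (.tA j)}) (fun _ => 1) := by
  refine ⟨continuousOn_const, fun _ _ => one_ne_zero, ?_⟩
  have h1 : HasLog (OO ∩ {q | q.1 ∈ Zn (.tA j)}) (fun q => vz j q.1.1) := by
    have h2 : HasLog (OO ∩ {q | q.1 ∈ Zn (.tA j)}) (fun q => Complex.I * vz j q.1.1) := by
      refine HasLog.of_slit (continuousOn_const.mul (vzq_cont j).continuousOn) fun q hq => ?_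
      left
      rw [Complex.mul_re, Complex.I_re, Complex.I_im]
      have := band_im hq.2 hq.1.2.1 hq.1.2.2
      linarith
    refine (h2.div (HasLog.const Complex.I_ne_zero)).congr fun q _ => ?_
    rw [mul_comm, mul_div_assoc, div_self Complex.I_ne_zero, mul_one]
  have h3 := log_prod (j := j) (s := OO ∩ {q | q.1 ∈ Zn (.tA j)})
    fun q hq => (tA_facts hq.2).2.2.2.1
  obtain ⟨h, hc, he⟩ := (h1.mul h3).pow 2 |>.inv
  refine ⟨h, hc, fun q hq => ?_⟩
  have hO : q.1 ∈ MO := mem_iUnion.2 ⟨.tA j, hq.2⟩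
  have e := Finset.mul_prod_erase Finset.univ (fun i => vz i q.1.1) (Finset.mem_univ j)
  rw [he q hq, frC_MO hO, frD_MO hO]
  beta_reduce
  rw [e, one_pow, mul_one, div_eq_mul_inv]

/-! ### the necks -/

/-- the linear map `JJ` -/
noncomputable def JJ (w : ℂ) : ℂ := ⟨b0 * w.re, -w.im⟩

theorem JJ_slit {w : ℂ} (hw : w ≠ 0) : JJ w / (-w) ∈ Complex.slitPlane := by
  left
  rw [Complex.div_re]
  have hn : 0 < Complex.normSq (-w) := Complex.normSq_pos.2 (neg_ne_zero.2 hw)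
  have hb := b0_neg
  have e : (JJ w).re * (-w).re / Complex.normSq (-w) + (JJ w).im * (-w).im / Complex.normSq (-w) =
      (-b0 * w.re ^ 2 + w.im ^ 2) / Complex.normSq (-w) := by
    unfold JJ
    simp only [Complex.neg_re, Complex.neg_im]
    ring
  rw [e]
  refine div_pos ?_ hn
  have h : w.re ≠ 0 ∨ w.im ≠ 0 := by
    by_contra hcon
    push Not at hcon
    exact hw (Complex.ext hcon.1 hcon.2)
  rcases h with h | h
  · have := mul_pos (neg_pos.2 hb) (sq_pos_of_ne_zero h)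
    nlinarith [sq_nonneg w.im]
  · have := mul_nonneg (neg_pos.2 hb).le (sq_nonneg w.re)
    have := sq_pos_of_ne_zero h
    linarith

/-- scaling -/
theorem JJ_smul (r : ℝ) (w : ℂ) : JJ ((r : ℂ) * w) = (r : ℂ) * JJ w := by
  unfold JJ
  apply Complex.ext <;> simp <;> ring

/-- the twisted coordinate on the neck; `v` is the point in the coordinates of the copy -/
noncomputable def zt (v : V) (ν : E 4) : ℂ :=
  ⟨⟪toE (Rv (nz v) (nw v) (X2 v / nz v) (v.2.2.1 / nz v)), ν⟫_ℝ / (-b0),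
    16 * ⟪toE (Iv (nz v) (nw v) (X2 v / nz v) (v.2.2.1 / nz v)), ν⟫_ℝ⟩

theorem co_comb (R I : V) (a b c d : ℝ) (ν : E 4) :
    co (a • R + b • I) (c • R + d • I) ν =
      ⟨a * ⟪toE R, ν⟫_ℝ + b * ⟪toE I, ν⟫_ℝ, c * ⟪toE R, ν⟫_ℝ + d * ⟪toE I, ν⟫_ℝ⟩ := by
  unfold co
  simp only [map_add, map_smul, inner_add_left, inner_smul_left]
  rfl

theorem nk_cs {P Q t : ℝ} (h : PQ P Q) (hP : 0 < P) :
    X2 (h400_pt P Q t) / nz (h400_pt P Q t) = Real.cos t ∧
    (h400_pt P Q t).2.2.1 / nz (h400_pt P Q t) = Real.sin t := by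
  rw [h400_nz P Q t h.1, h400_X2]
  constructor
  · field_simp
  · show P * Real.sin t / P = _
    field_simp

theorem zt_nk {P Q t : ℝ} (h : PQ P Q) (hP : 0 < P) (ν : E 4) : zt (h400_pt P Q t) ν =
    ⟨⟪toE (Rv P Q (Real.cos t) (Real.sin t)), ν⟫_ℝ / (-b0),
      16 * ⟪toE (Iv P Q (Real.cos t) (Real.sin t)), ν⟫_ℝ⟩ := by
  unfold zt
  rw [(nk_cs h hP).1, (nk_cs h hP).2, h400_nz P Q t h.1, h400_nw P Q t h.2.1]

theorem co_fC {P Q t : ℝ} (h : PQ P Q) (hP : 0 < P) (ν : E 4) :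
    co (fC (h400_pt P Q t)).1 (fC (h400_pt P Q t)).2 ν =
      JJ (⟨Real.cos t, Real.sin t⟩ * zt (h400_pt P Q t) ν) := by
  rw [fC_nk h hP, zt_nk h hP]
  simp only
  rw [co_comb]
  have hb := b0_ne
  unfold JJ
  apply Complex.ext
  · simp only [Complex.mul_re]
    field_simp
    ring
  · simp only [Complex.mul_im]
    field_simp
    ring

theorem co_fD {P Q t : ℝ} (h : PQ P Q) (hP : 0 < P) (hQ : 0 < Q) (ν : E 4) :
    co (fD (h400_pt P Q t)).1 (fD (h400_pt P Q t)).2 ν =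
      JJ (⟨Real.cos t, -Real.sin t⟩ * zt (h400_pt P Q t) ν) := by
  rw [fD_nk h hQ, zt_nk h hP]
  simp only
  rw [co_comb]
  have hb := b0_ne
  unfold JJ
  apply Complex.ext
  · simp only [Complex.mul_re]
    field_simp
    ring
  · simp only [Complex.mul_im]
    field_simp
    ring

/-- the positive quotients -/
theorem cs_ne (t : ℝ) : (⟨Real.cos t, Real.sin t⟩ : ℂ) ≠ 0 := by
  intro h0
  have h1 : Real.cos t = 0 := congrArg Complex.re h0
  have h2 : Real.sin t = 0 := congrArg Complex.im h0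
  have := Real.cos_sq_add_sin_sq t
  rw [h1, h2] at this
  norm_num at this

theorem cs_ne' (t : ℝ) : (⟨Real.cos t, -Real.sin t⟩ : ℂ) ≠ 0 := by
  have := cs_ne (-t)
  rwa [Real.cos_neg, Real.sin_neg] at this

theorem cs_mul (t : ℝ) : (⟨Real.cos t, Real.sin t⟩ : ℂ) * ⟨Real.cos t, -Real.sin t⟩ = 1 := by
  have := Real.cos_sq_add_sin_sq t
  apply Complex.ext
  · simp only [Complex.mul_re, Complex.one_re]
    linear_combination this
  · simp only [Complex.mul_im, Complex.one_im]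
    ring

theorem vz_slit {P Q t : ℝ} (hP : 0 < P) (hQ : 0 < Q) :
    (⟨P * Real.cos t, P * Real.sin t + 2 * (Q * Real.cos t)⟩ : ℂ) /
      ⟨P * Real.cos t, P * Real.sin t⟩ ∈ Complex.slitPlane := by
  have hcs := Real.cos_sq_add_sin_sq t
  have hne : (⟨P * Real.cos t, P * Real.sin t⟩ : ℂ) ≠ 0 := by
    intro h0
    have h1 : P * Real.cos t = 0 := congrArg Complex.re h0
    have h2 : P * Real.sin t = 0 := congrArg Complex.im h0
    rw [(mul_eq_zero.1 h1).resolve_left hP.ne', (mul_eq_zero.1 h2).resolve_left hP.ne'] at hcs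
    norm_num at hcs
  by_cases hc : Real.cos t = 0
  · rw [hc] at hne ⊢
    simp only [mul_zero, add_zero] at hne ⊢
    rw [div_self hne]
    exact Complex.one_mem_slitPlane
  · right
    rw [Complex.div_im]
    have hn : 0 < Complex.normSq ⟨P * Real.cos t, P * Real.sin t⟩ := Complex.normSq_pos.2 hne
    have e : (P * Real.sin t + 2 * (Q * Real.cos t)) * (P * Real.cos t) /
        Complex.normSq ⟨P * Real.cos t, P * Real.sin t⟩ -
        P * Real.cos t * (P * Real.sin t) / Complex.normSq ⟨P * Real.cos t, P * Real.sin t⟩ =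
        (2 * (P * Q) * Real.cos t ^ 2) / Complex.normSq ⟨P * Real.cos t, P * Real.sin t⟩ := by
      ring
    simp only
    rw [e]
    have h1 := mul_pos hP hQ
    have h2 := sq_pos_of_ne_zero hc
    positivity

theorem neck_alg {JC JD e f z P v p : ℂ} (he : e ≠ 0) (hef : e * f = 1) (hz : z ≠ 0)
    (hP : P ≠ 0) (hv : v ≠ 0) (hp : p ≠ 0) (hJC : JC ≠ 0) (hJD : JD ≠ 0) :
    JC / (v * p) ^ 2 = JD * 1 ^ 6 *
      (JC / (-(e * z)) / (JD / (-(f * z))) / ((P * (v / (P * e)) * p) ^ 2)) := by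
  have hf' : f = 1 / e := by
    field_simp
    rw [mul_comm]; exact hef
  rw [hf']
  field_simp

end Pool.Agent.TH619
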