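import Pool.Agent.TH619.ResDefs
import Pool.Agent.Helper874.Odd.Jtube1
import Pool.Agent.Helper874.Odd.Jcur1

/-! The two ends of a tube without a disc. -/

set_option autoImplicit false

namespace Pool.Agent.TH619

open Set Topology
open Pool.Agent.Helper874.Odd

namespace PF

variable {X : Type} [TopologicalSpace X] {S : Set X} {A : Type} [AddCommGroup A] (μ : PF S A)

/-- change of parameter -/
theorem L_reparam {g : ℝ → X} {φ : ℝ → ℝ} {a b : ℝ} {I J : Set ℝ} (hI : I.OrdConnected)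
    (hJ : J.OrdConnected) (hg : ContinuousOn g J) (hS : ∀ t ∈ J, g t ∈ S)
    (hφ : ContinuousOn φ I) (hφJ : MapsTo φ I J) (ha : a ∈ I) (hb : b ∈ I) :
    μ.L (fun t => g (φ t)) a b = μ.L g (φ a) (φ b) := by
  have hmemI : ∀ u ∈ Icc (0 : ℝ) 1, a + (b - a) * u ∈ I := by
    intro u hu
    have := hI.convex ha hb (sub_nonneg.2 hu.2) hu.1 (by ring)
    simp only [smul_eq_mul] at this
    convert this using 1
    ring
  have hmemJ : ∀ u ∈ Icc (0 : ℝ) 1, φ a + (φ b - φ a) * u ∈ J := by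
    intro u hu
    have := hJ.convex (hφJ ha) (hφJ hb) (sub_nonneg.2 hu.2) hu.1 (by ring)
    simp only [smul_eq_mul] at this
    convert this using 1
    ring
  have hmem : ∀ u ∈ Icc (0 : ℝ) 1, ∀ v ∈ Icc (0 : ℝ) 1,
      (1 - v) * φ (a + (b - a) * u) + v * (φ a + (φ b - φ a) * u) ∈ J := by
    intro u hu v hv
    have := hJ.convex (hφJ (hmemI u hu)) (hmemJ u hu) (sub_nonneg.2 hv.2) hv.1 (by ring)
    simpa only [smul_eq_mul] using this
  have h := μ.rect' (fun u v => g ((1 - v) * φ (a + (b - a) * u) + v * (φ a + (φ b - φ a) * u)))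
    (by
      refine hg.comp (f := fun q : ℝ × ℝ => (1 - q.2) * φ (a + (b - a) * q.1) +
        q.2 * (φ a + (φ b - φ a) * q.1)) ?_ ?_
      · have h1 : ContinuousOn (fun q : ℝ × ℝ => φ (a + (b - a) * q.1))
            (Icc (0 : ℝ) 1 ×ˢ Icc (0 : ℝ) 1) :=
          hφ.comp (f := fun q : ℝ × ℝ => a + (b - a) * q.1) (by fun_prop)
            fun q hq => hmemI q.1 hq.1
        exact (ContinuousOn.mul (by fun_prop) h1).add (by fun_prop)
      · rintro ⟨u, v⟩ ⟨hu, hv⟩
        exact hmem u hu v hv)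
    (fun u hu v hv => hS _ (hmem u hu v hv))
  have e1 : (fun t : ℝ => g ((1 - (0 : ℝ)) * φ (a + (b - a) * t) +
      0 * (φ a + (φ b - φ a) * t))) = fun t => g (φ (a + (b - a) * t)) := by
    funext t; congr 1; ring
  have e2 : (fun t : ℝ => g ((1 - t) * φ (a + (b - a) * 1) + t * (φ a + (φ b - φ a) * 1))) =
      fun _ => g (φ b) := by
    funext t
    congr 1
    have : a + (b - a) * 1 = b := by ring
    rw [this]; ring
  have e3 : (fun t : ℝ => g ((1 - t) * φ (a + (b - a) * 0) + t * (φ a + (φ b - φ a) * 0))) =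
      fun _ => g (φ a) := by
    funext t
    congr 1
    have : a + (b - a) * 0 = a := by ring
    rw [this]; ring
  have e4 : (fun t : ℝ => g ((1 - (1 : ℝ)) * φ (a + (b - a) * t) +
      1 * (φ a + (φ b - φ a) * t))) = fun t => g (φ a + (φ b - φ a) * t) := by
    funext t; congr 1; ring
  simp only [e1, e2, e3, e4] at h
  rw [μ.const' _ (hS _ (hφJ hb)), μ.const' _ (hS _ (hφJ ha)), add_zero, zero_add] at h
  exact h

end PF

/-- the rectangle with a hole -/
def TT : Set (ℝ × ℝ) := {q | |q.1| ≤ 1 / 8 ∧ |q.2| ≤ 1 ∧ 1 / 256 ≤ 4 * q.1 ^ 2 + q.2 ^ 2}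

/-- the boundary circle of the hole -/
noncomputable def CC (t : ℝ) : ℝ × ℝ :=
  (1 / 32 * Real.cos (2 * Real.pi * t), 1 / 16 * Real.sin (2 * Real.pi * t))

theorem CC_cont : Continuous CC := by unfold CC; fun_prop

theorem CC_q (t : ℝ) : 4 * (CC t).1 ^ 2 + (CC t).2 ^ 2 = 1 / 256 := by
  unfold CC
  have := Real.cos_sq_add_sin_sq (2 * Real.pi * t)
  simp only
  linear_combination (1 / 256) * this

theorem CC_mem (t : ℝ) : CC t ∈ TT := by
  refine ⟨?_, ?_, (CC_q t).ge⟩
  · have := CC_q t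
    rw [abs_le]
    constructor <;> nlinarith [sq_nonneg (CC t).2]
  · have := CC_q t
    rw [abs_le]
    constructor <;> nlinarith [sq_nonneg (CC t).1]

theorem CC_per (t : ℝ) : CC (1 + 1 * t) = CC t := by
  unfold CC
  have : 2 * Real.pi * (1 + 1 * t) = 2 * Real.pi * t + 2 * Real.pi := by ring
  rw [this, Real.cos_add_two_pi, Real.sin_add_two_pi]

section

variable {A : Type} [AddCommGroup A]

/-- one side of the rectangle -/
theorem side (ν : PF TT A) {d : ℝ → ℝ × ℝ} {φ k : ℝ → ℝ} {a b : ℝ} (hd : Continuous d)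
    (hφ : Continuous φ)
    (hm : ∀ w ∈ uIcc a b, |(d w).1| ≤ 1 / 8 ∧ |(d w).2| ≤ 1 ∧ 0 < k w ∧ k w ≤ 1 ∧
      CC (φ w) = (k w * (d w).1, k w * (d w).2)) :
    ν.L d a b + ν.L (fun u => (1 - u) • d b + u • CC (φ b)) 0 1 =
      ν.L (fun u => (1 - u) • d a + u • CC (φ a)) 0 1 + ν.L CC (φ a) (φ b) := by
  have hG : Continuous fun q : ℝ × ℝ => (1 - q.2) • d q.1 + q.2 • CC (φ q.1) := by
    have := CC_cont
    fun_prop
  have h := ν.L_rect (G := fun w u => (1 - u) • d w + u • CC (φ w)) (I := uIcc a b)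
    (J := Icc (0 : ℝ) 1) (a := a) (b := b) (c := 0) (d := 1) ordConnected_uIcc ordConnected_Icc
    hG.continuousOn ?_ left_mem_uIcc right_mem_uIcc (by simp) (by simp)
  · have e1 : (fun w => (1 - (0 : ℝ)) • d w + (0 : ℝ) • CC (φ w)) = d := by
      funext w; simp
    have e2 : (fun w => (1 - (1 : ℝ)) • d w + (1 : ℝ) • CC (φ w)) = fun w => CC (φ w) := by
      funext w; simp
    simp only [e1, e2] at h
    rw [h, ν.L_reparam (g := CC) (φ := φ) (I := univ) (J := univ) ordConnected_univ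
      ordConnected_univ CC_cont.continuousOn (fun t _ => CC_mem t) hφ.continuousOn
      (mapsTo_univ _ _) (mem_univ _) (mem_univ _)]
  · intro w hw u hu
    obtain ⟨h1, h2, h3, h4, h5⟩ := hm w hw
    have hC := CC_q (φ w)
    have e : (1 - u) • d w + u • CC (φ w) =
        (((1 - u) + u * k w) * (d w).1, ((1 - u) + u * k w) * (d w).2) := by
      rw [h5]
      ext
      · simp only [Prod.fst_add, Prod.smul_fst, smul_eq_mul]; ring
      · simp only [Prod.snd_add, Prod.smul_snd, smul_eq_mul]; ring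
    have hk1 : k w ≤ (1 - u) + u * k w := by nlinarith [hu.1, hu.2]
    have hk2 : (1 - u) + u * k w ≤ 1 := by nlinarith [hu.1, hu.2]
    have hk0 : 0 < (1 - u) + u * k w := lt_of_lt_of_le h3 hk1
    rw [e]
    refine ⟨?_, ?_, ?_⟩
    · simp only
      rw [abs_mul, abs_of_pos hk0]
      nlinarith [abs_nonneg (d w).1]
    · simp only
      rw [abs_mul, abs_of_pos hk0]
      nlinarith [abs_nonneg (d w).2]
    · simp only
      rw [h5] at hC
      simp only at hC
      have e2 : 4 * (((1 - u) + u * k w) * (d w).1) ^ 2 + (((1 - u) + u * k w) * (d w).2) ^ 2 =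
          ((1 - u) + u * k w) ^ 2 * (4 * (d w).1 ^ 2 + (d w).2 ^ 2) := by ring
      have e3 : 4 * (k w * (d w).1) ^ 2 + (k w * (d w).2) ^ 2 =
          k w ^ 2 * (4 * (d w).1 ^ 2 + (d w).2 ^ 2) := by ring
      rw [e2, ← hC, e3]
      exact mul_le_mul_of_nonneg_right (pow_le_pow_left₀ h3.le hk1 2) (by positivity)

theorem sqrt_one_le {x : ℝ} (hx : 0 ≤ x) : 1 ≤ Real.sqrt (1 + x) := by
  rw [Real.one_le_sqrt]; linarith

/-- the boundary of the rectangle and the boundary of the hole -/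
theorem rect_circle (ν : PF TT A) :
    ν.L (fun a => (a, (-1 : ℝ))) (-(1 / 8)) (1 / 8) + ν.L (fun p => ((1 / 8 : ℝ), p)) (-1) 1 -
      ν.L (fun a => (a, (1 : ℝ))) (-(1 / 8)) (1 / 8) - ν.L (fun p => ((-(1 / 8) : ℝ), p)) (-1) 1 =
      ν.L CC 0 1 := by
  have hpi := Real.pi_pos
  have hac : Continuous Real.arctan := Real.continuous_arctan
  have hsR := side ν (d := fun w => (1 / 8, w)) (φ := fun w => Real.arctan (4 * w) / (2 * Real.pi))
    (k := fun w => 1 / 4 / Real.sqrt (1 + (4 * w) ^ 2)) (a := -1) (b := 1) (by fun_prop)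
    (by fun_prop) (by
      intro w hw
      rw [uIcc_of_le (by norm_num)] at hw
      have h1 := sqrt_one_le (x := (4 * w) ^ 2) (sq_nonneg _)
      have h0 : 0 < Real.sqrt (1 + (4 * w) ^ 2) := by linarith
      refine ⟨?_, abs_le.2 hw, by positivity, ?_, ?_⟩
      · rw [abs_of_pos] <;> norm_num
      · rw [div_le_one h0]; linarith
      · have e : 2 * Real.pi * (Real.arctan (4 * w) / (2 * Real.pi)) = Real.arctan (4 * w) := by
          field_simp
        unfold CC
        rw [e, Real.cos_arctan, Real.sin_arctan]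
        ext
        · simp only; ring
        · simp only; ring)
  have hsT := side ν (d := fun w => (w, 1))
    (φ := fun w => 1 / 4 - Real.arctan (2 * w) / (2 * Real.pi))
    (k := fun w => 1 / 16 / Real.sqrt (1 + (2 * w) ^ 2)) (a := 1 / 8) (b := -(1 / 8))
    (by fun_prop) (by fun_prop) (by
      intro w hw
      rw [uIcc_of_ge (by norm_num)] at hw
      have h1 := sqrt_one_le (x := (2 * w) ^ 2) (sq_nonneg _)
      have h0 : 0 < Real.sqrt (1 + (2 * w) ^ 2) := by linarith
      refine ⟨abs_le.2 hw, by norm_num, by positivity, ?_, ?_⟩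
      · rw [div_le_one h0]; linarith
      · have e : 2 * Real.pi * (1 / 4 - Real.arctan (2 * w) / (2 * Real.pi)) =
            Real.pi / 2 - Real.arctan (2 * w) := by
          field_simp; ring
        unfold CC
        rw [e, Real.cos_pi_div_two_sub, Real.sin_pi_div_two_sub, Real.cos_arctan,
          Real.sin_arctan]
        ext
        · simp only; ring
        · simp only; ring)
  have hsL := side ν (d := fun w => (-(1 / 8), w))
    (φ := fun w => 1 / 2 - Real.arctan (4 * w) / (2 * Real.pi))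
    (k := fun w => 1 / 4 / Real.sqrt (1 + (4 * w) ^ 2)) (a := 1) (b := -1) (by fun_prop)
    (by fun_prop) (by
      intro w hw
      rw [uIcc_of_ge (by norm_num)] at hw
      have h1 := sqrt_one_le (x := (4 * w) ^ 2) (sq_nonneg _)
      have h0 : 0 < Real.sqrt (1 + (4 * w) ^ 2) := by linarith
      refine ⟨?_, abs_le.2 hw, by positivity, ?_, ?_⟩
      · rw [abs_neg, abs_of_pos] <;> norm_num
      · rw [div_le_one h0]; linarith
      · have e : 2 * Real.pi * (1 / 2 - Real.arctan (4 * w) / (2 * Real.pi)) =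
            Real.pi - Real.arctan (4 * w) := by
          field_simp
        unfold CC
        rw [e, Real.cos_pi_sub, Real.sin_pi_sub, Real.cos_arctan, Real.sin_arctan]
        ext
        · simp only; ring
        · simp only; ring)
  have hsB := side ν (d := fun w => (w, -1))
    (φ := fun w => 3 / 4 + Real.arctan (2 * w) / (2 * Real.pi))
    (k := fun w => 1 / 16 / Real.sqrt (1 + (2 * w) ^ 2)) (a := -(1 / 8)) (b := 1 / 8)
    (by fun_prop) (by fun_prop) (by
      intro w hw
      rw [uIcc_of_le (by norm_num)] at hw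
      have h1 := sqrt_one_le (x := (2 * w) ^ 2) (sq_nonneg _)
      have h0 : 0 < Real.sqrt (1 + (2 * w) ^ 2) := by linarith
      refine ⟨abs_le.2 hw, by norm_num, by positivity, ?_, ?_⟩
      · rw [div_le_one h0]; linarith
      · have e : 2 * Real.pi * (3 / 4 + Real.arctan (2 * w) / (2 * Real.pi)) =
            Real.pi / 2 + Real.arctan (2 * w) + Real.pi := by
          field_simp; ring
        unfold CC
        rw [e, Real.cos_add_pi, Real.sin_add_pi, add_comm (Real.pi / 2), Real.cos_add_pi_div_two,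
          Real.sin_add_pi_div_two, Real.cos_arctan, Real.sin_arctan]
        ext
        · simp only; ring
        · simp only; ring)
  -- the angles at the corners
  have hat : Real.arctan (1 / 4) = Real.pi / 2 - Real.arctan 4 := by
    have := Real.arctan_inv_of_pos (x := 4) (by norm_num)
    rw [← this]; norm_num
  set τ : ℝ := Real.arctan 4 / (2 * Real.pi) with hτ
  have f1 : Real.arctan (4 * -1) / (2 * Real.pi) = -τ := by
    rw [hτ, show (4 : ℝ) * -1 = -4 by ring, Real.arctan_neg]; ring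
  have f2 : Real.arctan (4 * 1) / (2 * Real.pi) = τ := by
    rw [hτ, mul_one]
  have f3 : 1 / 4 - Real.arctan (2 * (1 / 8)) / (2 * Real.pi) = τ := by
    rw [hτ, show (2 : ℝ) * (1 / 8) = 1 / 4 by ring, hat]; field_simp; ring
  have f4 : 1 / 4 - Real.arctan (2 * -(1 / 8)) / (2 * Real.pi) = 1 / 2 - τ := by
    rw [hτ, show (2 : ℝ) * -(1 / 8) = -(1 / 4) by ring, Real.arctan_neg, hat]; field_simp; ring
  have f5 : 1 / 2 - Real.arctan (4 * 1) / (2 * Real.pi) = 1 / 2 - τ := by
    rw [hτ, mul_one]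
  have f6 : 1 / 2 - Real.arctan (4 * -1) / (2 * Real.pi) = 1 / 2 + τ := by
    rw [f1]; ring
  have f7 : 3 / 4 + Real.arctan (2 * -(1 / 8)) / (2 * Real.pi) = 1 / 2 + τ := by
    rw [hτ, show (2 : ℝ) * -(1 / 8) = -(1 / 4) by ring, Real.arctan_neg, hat]; field_simp; ring
  have f8 : 3 / 4 + Real.arctan (2 * (1 / 8)) / (2 * Real.pi) = 1 - τ := by
    rw [hτ, show (2 : ℝ) * (1 / 8) = 1 / 4 by ring, hat]; field_simp; ring
  simp only [f1, f2] at hsR
  simp only [f3, f4] at hsT
  simp only [f5, f6] at hsL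
  simp only [f7, f8] at hsB
  have hCadd : ∀ a b c : ℝ, ν.L CC a b + ν.L CC b c = ν.L CC a c := fun a b c =>
    ν.L_add (I := univ) ordConnected_univ CC_cont.continuousOn (fun t _ => CC_mem t)
      (mem_univ _) (mem_univ _) (mem_univ _)
  have hper : ν.L CC (-τ) 0 = ν.L CC (1 - τ) 1 := by
    have h7 := ν.L_affine CC 1 1 (-τ) 0
    have e7 : (fun t : ℝ => CC (1 + 1 * t)) = CC := funext CC_per
    rw [e7] at h7
    rw [h7]
    congr 1 <;> ring
  have hper2 : CC (1 - τ) = CC (-τ) := by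
    have := CC_per (-τ)
    rw [← this]; congr 1; ring
  have hsum : ν.L CC (-τ) τ + ν.L CC τ (1 / 2 - τ) + ν.L CC (1 / 2 - τ) (1 / 2 + τ) +
      ν.L CC (1 / 2 + τ) (1 - τ) = ν.L CC 0 1 := by
    rw [hCadd, hCadd, hCadd, ← hCadd (-τ) 0 (1 - τ), hper, add_comm, hCadd]
  rw [hper2] at hsB
  -- reversal of two sides
  have hrT : ν.L (fun w : ℝ => (w, (1 : ℝ))) (1 / 8) (-(1 / 8)) =
      - ν.L (fun w : ℝ => (w, (1 : ℝ))) (-(1 / 8)) (1 / 8) :=
    ν.L_symm (I := Icc (-(1 / 8)) (1 / 8)) ordConnected_Icc (by fun_prop)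
      (fun t ht => ⟨abs_le.2 ht, by norm_num, by
        show 1 / 256 ≤ 4 * t ^ 2 + 1 ^ 2
        nlinarith [sq_nonneg t]⟩) (by constructor <;> norm_num) (by constructor <;> norm_num)
  have hrL : ν.L (fun w : ℝ => ((-(1 / 8) : ℝ), w)) 1 (-1) =
      - ν.L (fun w : ℝ => ((-(1 / 8) : ℝ), w)) (-1) 1 :=
    ν.L_symm (I := Icc (-1) 1) ordConnected_Icc (by fun_prop)
      (fun t ht => ⟨by norm_num [abs_le], abs_le.2 ht, by
        show 1 / 256 ≤ 4 * (-(1 / 8)) ^ 2 + t ^ 2
        nlinarith [sq_nonneg t]⟩) (by constructor <;> norm_num) (by constructor <;> norm_num)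
  rw [hrT] at hsT
  rw [hrL] at hsL
  rw [← hsum]
  have h1 := eq_sub_of_add_eq hsR
  have h2 := eq_sub_of_add_eq hsT
  have h3 := eq_sub_of_add_eq hsL
  have h4 := eq_sub_of_add_eq hsB
  rw [sub_eq_add_neg, sub_eq_add_neg, h1, h2, h3, h4]
  abel

end

end Pool.Agent.TH619
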