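import Mathlib
import Pool.Agent.Helper775.Tight.SingDefs

/-!
Singular chains with coefficients in a commutative ring, tight maps with respect to a field, and
torsion in integral homology: the definitions used in the statement of the theorem.
`Sing X n` is the type of continuous maps from the standard `n`-simplex to `X`, and `sface n i` is
the restriction of a singular `(n+1)`-simplex to its `i`-th face.
-/

set_option autoImplicit false

namespace Pool.Agent.TH619

open scoped InnerProductSpace Topology
open Pool.Agent.Helper775.Tight (Sing sface)

/-- The boundary of singular chains: the linear map sending a singular `(n+1)`-simplex to the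
alternating sum of its `n + 2` faces. -/
noncomputable def sbd (R : Type) [CommRing R] (X : Type) [TopologicalSpace X] (n : ℕ) :
    (Sing X (n + 1) →₀ R) →ₗ[R] (Sing X n →₀ R) :=
  Finsupp.linearCombination R
    (fun σ => ∑ i : Fin (n + 2), Finsupp.single (sface n i σ) ((-1 : R) ^ (i : ℕ)))

/-- Cycles: all chains in degree `0`, the kernel of the boundary in positive degrees. -/
def SCyc {R : Type} [CommRing R] {X : Type} [TopologicalSpace X] :
    ∀ n : ℕ, (Sing X n →₀ R) → Prop
  | 0, _ => True
  | (n + 1), c => sbd R X n c = 0

/-- The chain `c` is a chain of the subspace `A`: all its simplices have image in `A`. -/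
def SIn {R : Type} [CommRing R] {X : Type} [TopologicalSpace X] (A : Set X) {n : ℕ}
    (c : Sing X n →₀ R) : Prop :=
  ∀ σ ∈ c.support, Set.range σ ⊆ A

/-- The map `H_i(A; F) → H_i(X; F)` of singular homology induced by the inclusion is injective for
all `i`: a cycle of `A` which is a boundary in `X` is a boundary in `A`. -/
def SInj (F : Type) [Field F] {X : Type} [TopologicalSpace X] (A : Set X) : Prop :=
  ∀ (n : ℕ) (c : Sing X n →₀ F), SIn A c → SCyc n c →
    (∃ b, sbd F X n b = c) → ∃ b, SIn A b ∧ sbd F X n b = c

/-- `f : X → ℝ^N` is tight with respect to the field `F`: for every open half-space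
`{y | t < ⟪z, y⟫}`, `z ≠ 0`, the inclusion of its preimage into `X` is injective in homology with
coefficients in `F`. -/
def STight (F : Type) [Field F] {X : Type} [TopologicalSpace X] {N : ℕ}
    (f : X → EuclideanSpace ℝ (Fin N)) : Prop :=
  ∀ (z : EuclideanSpace ℝ (Fin N)) (t : ℝ), z ≠ 0 → SInj F {x | t < ⟪z, f x⟫_ℝ}

/-- The singular homology of `X` with integral coefficients contains an element of order `p` (for a
prime `p`: a homology class which is not zero but whose multiple by `p` is zero). -/
def STor (p : ℕ) (X : Type) [TopologicalSpace X] : Prop :=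
  ∃ (n : ℕ) (c : Sing X n →₀ ℤ), SCyc n c ∧ (∃ b, sbd ℤ X n b = (p : ℤ) • c) ∧
    ¬ ∃ b, sbd ℤ X n b = c

end Pool.Agent.TH619
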