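import Pool.Agent.TH619.Six1

/-! Path functionals on the unit normal bundle: the necks. -/

set_option autoImplicit false

namespace Pool.Agent.TH619

open Set Topology Filter
open scoped InnerProductSpace Manifold ContDiff
open Pool.Agent.Helper874.Odd

theorem hh_add_right (l v v' : V) : hh l (v + v') = hh l v + hh l v' := by
  rw [hh_comm, hh_add_left, hh_comm v, hh_comm v']

theorem hh_smul_right (c : ℝ) (l v : V) : hh l (c • v) = c * hh l v := by
  rw [hh_comm, hh_smul_left, hh_comm v]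

theorem wv_change (R I : V) (a b c d x y : ℝ) :
    wv (a • R + b • I) (c • R + d • I) ⟨a * x + b * y, c * x + d * y⟩ =
      (a * d - b * c) ^ 2 • wv R I ⟨x, y⟩ := by
  unfold wv
  simp only [hh_add_left, hh_smul_left, hh_add_right, hh_smul_right, hh_comm I R]
  module

theorem psi_of_smul {n n' m m' : V} {z w : ℂ} {r : ℝ} (hr : 0 < r)
    (h : wv n n' z = r • wv m m' w) : psi n n' z = psi m m' w := by
  unfold psi
  rw [h, map_smul, norm_smul, Real.norm_eq_abs, abs_of_pos hr, smul_smul]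
  congr 1
  rw [mul_inv, mul_comm, ← mul_assoc, mul_inv_cancel₀ hr.ne', one_mul]

theorem psi_change (R I : V) {a b c d : ℝ} (hd : a * d - b * c ≠ 0) (x y : ℝ) :
    psi (a • R + b • I) (c • R + d • I) ⟨a * x + b * y, c * x + d * y⟩ = psi R I ⟨x, y⟩ :=
  psi_of_smul (by positivity) (wv_change R I a b c d x y)

/-- the section -/
noncomputable def sec (m : V × ℝ) : (V × ℝ) × E 4 := (m, psi (frm m).1 (frm m).2 Complex.I)

theorem sec_cont : ContinuousOn sec MO := by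
  refine continuousOn_id.prodMk ?_
  refine psi_cont.comp (f := fun m : V × ℝ => (frm m, Complex.I)) (frm_cont.prodMk
    continuousOn_const) ?_
  intro m hm
  exact ⟨frm_ind hm, Complex.I_ne_zero⟩

theorem sec_mem {m : V × ℝ} (hm : m ∈ MO) : sec m ∈ NT :=
  psi_mem (MO_sub hm) (frm_nrm hm) (frm_ind hm) Complex.I_ne_zero

theorem PQA : PQ (1 / 16) 0 := ⟨by norm_num, le_rfl, le_rfl, by norm_num, by
    rw [bet_eq_zero le_rfl, bet_zero, zero_add]⟩

theorem PQB : PQ 0 (1 / 16) := PQA.symm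

/-- the frames at the upper circle -/
theorem frm_A (j : Fin 3) (t : ℝ) : frm (nk j (1 / 16) 0 t) =
    ((-Real.cos t) • Rv (1 / 16) 0 (Real.cos t) (Real.sin t) +
      (-(16 * b0 * Real.sin t)) • Iv (1 / 16) 0 (Real.cos t) (Real.sin t),
     (Real.sin t / b0) • Rv (1 / 16) 0 (Real.cos t) (Real.sin t) +
      (-(16 * Real.cos t)) • Iv (1 / 16) 0 (Real.cos t) (Real.sin t)) := by
  rw [← fC_nk PQA (by norm_num), fC_end, frm_eq nk_tA]
  show (gA (sh j (nk j (1 / 16) 0 t).1), er) = _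
  rw [sh_nk]

/-- the frames at the lower circle -/
theorem frm_B (j : Fin 3) (t : ℝ) : frm (nk j 0 (1 / 16) t) =
    ((-Real.cos t) • Rv 0 (1 / 16) (Real.cos t) (Real.sin t) +
      (16 * b0 * Real.sin t) • Iv 0 (1 / 16) (Real.cos t) (Real.sin t),
     (-(Real.sin t / b0)) • Rv 0 (1 / 16) (Real.cos t) (Real.sin t) +
      (-(16 * Real.cos t)) • Iv 0 (1 / 16) (Real.cos t) (Real.sin t)) := by
  rw [← fD_nk PQB (by norm_num), fD_end, frm_eq nk_tB]
  show (gB (sh j (nk j 0 (1 / 16) t).1), ep) = _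
  rw [sh_nk]

theorem I_eq : Complex.I = ⟨0, 1⟩ := rfl

theorem sec_A (j : Fin 3) (t : ℝ) : sec (nk j (1 / 16) 0 t) =
    (nk j (1 / 16) 0 t, psi (Rv (1 / 16) 0 (Real.cos t) (Real.sin t))
      (Iv (1 / 16) 0 (Real.cos t) (Real.sin t)) ⟨b0 * Real.sin t, -(Real.cos t / 16)⟩) := by
  unfold sec
  rw [frm_A]
  have hcs := Real.cos_sq_add_sin_sq t
  have hb := b0_ne
  congr 1
  simp only
  rw [← psi_change (Rv (1 / 16) 0 (Real.cos t) (Real.sin t))
      (Iv (1 / 16) 0 (Real.cos t) (Real.sin t)) (a := -Real.cos t) (b := -(16 * b0 * Real.sin t))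
      (c := Real.sin t / b0) (d := -(16 * Real.cos t)) ?_ (b0 * Real.sin t) (-(Real.cos t / 16))]
  · congr 1
    rw [I_eq]
    apply Complex.ext
    · show (0 : ℝ) = _
      ring
    · show (1 : ℝ) = _
      field_simp
      linear_combination -hcs
  · have e : -Real.cos t * -(16 * Real.cos t) - -(16 * b0 * Real.sin t) * (Real.sin t / b0) = 16 := by
      field_simp
      linear_combination hcs
    rw [e]; norm_num

theorem sec_B (j : Fin 3) (t : ℝ) : sec (nk j 0 (1 / 16) t) =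
    (nk j 0 (1 / 16) t, psi (Rv 0 (1 / 16) (Real.cos t) (Real.sin t))
      (Iv 0 (1 / 16) (Real.cos t) (Real.sin t)) ⟨-(b0 * Real.sin t), -(Real.cos t / 16)⟩) := by
  unfold sec
  rw [frm_B]
  have hcs := Real.cos_sq_add_sin_sq t
  have hb := b0_ne
  congr 1
  simp only
  rw [← psi_change (Rv 0 (1 / 16) (Real.cos t) (Real.sin t))
      (Iv 0 (1 / 16) (Real.cos t) (Real.sin t)) (a := -Real.cos t) (b := 16 * b0 * Real.sin t)
      (c := -(Real.sin t / b0)) (d := -(16 * Real.cos t)) ?_ (-(b0 * Real.sin t))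
      (-(Real.cos t / 16))]
  · congr 1
    rw [I_eq]
    apply Complex.ext
    · show (0 : ℝ) = _
      ring
    · show (1 : ℝ) = _
      field_simp
      linear_combination -hcs
  · have e : -Real.cos t * -(16 * Real.cos t) - 16 * b0 * Real.sin t * -(Real.sin t / b0) = 16 := by
      field_simp
      linear_combination hcs
    rw [e]; norm_num

theorem nk_cont (j : Fin 3) : Continuous fun q : (ℝ × ℝ) × ℝ => nk j q.1.1 q.1.2 q.2 := by
  unfold nk h400_pt
  fun_prop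

section

variable {A : Type} [AddCommGroup A]

/-- the path of the radii -/
noncomputable def pu (u : ℝ) : ℝ := (1 - u) / 16
noncomputable def qu (u : ℝ) : ℝ := iot (1 - bet ((1 - u) / 16))

theorem pu_mem {u : ℝ} (hu : u ∈ Icc (0 : ℝ) 1) : pu u ∈ Icc (0 : ℝ) (1 / 16) := by
  unfold pu
  constructor <;> linarith [hu.1, hu.2]

theorem PQu {u : ℝ} (hu : u ∈ Icc (0 : ℝ) 1) : PQ (pu u) (qu u) := by
  have h1 := pu_mem hu
  have h2 := h400_iot h1
  have h3 := iot_mem h2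
  refine ⟨h1.1, h3.1, h1.2, h3.2, ?_⟩
  show bet (pu u) + bet (iot (1 - bet (pu u))) = 1
  rw [bet_iot h2]
  ring

theorem pu_zero : pu 0 = 1 / 16 := by unfold pu; norm_num
theorem pu_one : pu 1 = 0 := by unfold pu; norm_num
theorem qu_zero : qu 0 = 0 := by
  have : qu 0 = iot (1 - bet (1 / 16)) := by unfold qu; norm_num
  rw [this, bet_eq_zero le_rfl, sub_zero, iot_one]
theorem qu_one : qu 1 = 1 / 16 := by
  have : qu 1 = iot (1 - bet 0) := by unfold qu; norm_num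
  rw [this, bet_zero, sub_self, iot_zero]

theorem pu_cont : Continuous pu := by unfold pu; fun_prop
theorem qu_cont : ContinuousOn qu (Icc 0 1) :=
  h400_contOn.comp (f := pu) pu_cont.continuousOn fun _ hu => pu_mem hu

/-- homotopies of loops over the necks -/
theorem neck_htpy (lam : PF NT A) (j : Fin 3) {P Q : ℝ → ℝ} {θ : ℝ → ℝ} {z : ℝ → ℝ → ℂ}
    (hP : ContinuousOn P (Icc 0 1)) (hQ : ContinuousOn Q (Icc 0 1))
    (hPQ : ∀ u ∈ Icc (0 : ℝ) 1, PQ (P u) (Q u)) (hθ : Continuous θ)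
    (hθ1 : Real.cos (θ 1) = Real.cos (θ 0) ∧ Real.sin (θ 1) = Real.sin (θ 0))
    (hz : ContinuousOn (fun q : ℝ × ℝ => z q.1 q.2) (Icc (0 : ℝ) 1 ×ˢ Icc (0 : ℝ) 1))
    (hz0 : ∀ u ∈ Icc (0 : ℝ) 1, ∀ v ∈ Icc (0 : ℝ) 1, z u v ≠ 0)
    (hz1 : ∀ u ∈ Icc (0 : ℝ) 1, z u 1 = z u 0) :
    lam.L (fun v => (nk j (P 0) (Q 0) (θ v),
        psi (Rv (P 0) (Q 0) (Real.cos (θ v)) (Real.sin (θ v)))
          (Iv (P 0) (Q 0) (Real.cos (θ v)) (Real.sin (θ v))) (z 0 v))) 0 1 =
      lam.L (fun v => (nk j (P 1) (Q 1) (θ v),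
        psi (Rv (P 1) (Q 1) (Real.cos (θ v)) (Real.sin (θ v)))
          (Iv (P 1) (Q 1) (Real.cos (θ v)) (Real.sin (θ v))) (z 1 v))) 0 1 := by
  have hP' : ContinuousOn (fun q : ℝ × ℝ => P q.1) (Icc (0 : ℝ) 1 ×ˢ Icc (0 : ℝ) 1) :=
    hP.comp continuous_fst.continuousOn fun q hq => hq.1
  have hQ' : ContinuousOn (fun q : ℝ × ℝ => Q q.1) (Icc (0 : ℝ) 1 ×ˢ Icc (0 : ℝ) 1) :=
    hQ.comp continuous_fst.continuousOn fun q hq => hq.1
  have hθ' : Continuous fun q : ℝ × ℝ => θ q.2 := hθ.comp continuous_snd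
  have hcs' : ContinuousOn (fun q : ℝ × ℝ => ((P q.1, Q q.1), (Real.cos (θ q.2),
      Real.sin (θ q.2)))) (Icc (0 : ℝ) 1 ×ˢ Icc (0 : ℝ) 1) :=
    (hP'.prodMk hQ').prodMk ((Real.continuous_cos.comp hθ').continuousOn.prodMk
      (Real.continuous_sin.comp hθ').continuousOn)
  obtain ⟨hc1, hs1⟩ := hθ1
  refine nt_htpy lam (m := fun u v => nk j (P u) (Q u) (θ v))
    (n := fun u v => Rv (P u) (Q u) (Real.cos (θ v)) (Real.sin (θ v)))
    (n' := fun u v => Iv (P u) (Q u) (Real.cos (θ v)) (Real.sin (θ v))) (z := z)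
    ?_ ?_ ?_ hz ?_ ?_
  · exact (nk_cont j).comp_continuousOn (f := fun q : ℝ × ℝ => ((P q.1, Q q.1), θ q.2))
      ((hP'.prodMk hQ').prodMk hθ'.continuousOn)
  · exact Rv_cont.comp_continuousOn hcs'
  · exact Iv_cont.comp_continuousOn hcs'
  · intro u hu v hv
    exact ⟨NK_sub j ((hPQ u hu).nk_mem j _), neck_nrm (hPQ u hu) j _,
      neck_ind (hPQ u hu) (Real.cos_sq_add_sin_sq _), hz0 u hu v hv⟩
  · intro u hu
    refine ⟨?_, ?_, ?_, hz1 u hu⟩
    · unfold nk h400_pt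
      simp only [hc1, hs1]
    · simp only [hc1, hs1]
    · simp only [hc1, hs1]

end

end Pool.Agent.TH619
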